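import Pool.Agent.Lib.H92U.U5

/-! # H92U/U6: the trace term of the gradient formula, real forms, explicit tensors -/

namespace Pool.Agent.H92U

open Matrix

variable {n D D' : ℕ}

section ST

variable {S : Fin n → Fin n → UG n → ℂ} {T : Fin n → Fin n → Fin n → Fin n → UG n → ℂ}

/-- A constant times the conjugate of a (1,1) field. -/
theorem Ten11.constMulStar {c : UG n → ℂ} (hc : PolLe D' c) (hc0 : ∀ a b, HasD a b c (fun _ => 0))
    {S : Fin n → Fin n → UG n → ℂ} (hS : Ten11 D S) :
    Ten11 (D' + D) (fun i k U => c U * star (S k i U)) := by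
  refine ⟨fun i k => hc.mul (hS.1 k i).star, fun a b i k => ?_⟩
  refine ((hc0 a b).mul (hS.2 b a k i).star).congr (fun _ => rfl) fun U => ?_
  split_ifs <;> simp only [star_sub, star_zero] <;> ring

/-- The field `(m n | l j) ↦ ∑_b S(b|l) conj T(jb|mn)`. -/
theorem Ten22.half (hS : Ten11 D' S) (hT : Ten22 D T) :
    Ten22 (D' + D) (fun m n' l j U => ∑ b, S b l U * star (T j b m n' U)) := by
  refine ⟨fun m n' l j => PolLe.sum _ (fun b U => S b l U * star (T j b m n' U))
    fun b _ => (hS.1 b l).mul (hT.1 j b m n').star, fun α β m n' l j => ?_⟩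
  refine (HasD.sum Finset.univ (fun b U => S b l U * star (T j b m n' U)) _
    fun b _ => (hS.2 α β b l).mul (hT.2 β α j b m n').star).congr (fun _ => rfl) fun U => ?_
  have e1 : ∀ b, (((if b = β then S α l U else 0) - (if l = α then S b β U else 0)) *
      star (T j b m n' U) + S b l U * -star ((if j = α then T β b m n' U else 0) +
      (if b = α then T j β m n' U else 0) - (if m = β then T j b α n' U else 0) -
      (if n' = β then T j b m α U else 0))) =
      (if b = β then S α l U * star (T j b m n' U) else 0) -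
      (if b = α then S b l U * star (T j β m n' U) else 0) +
      ((if m = β then S b l U * star (T j b α n' U) else 0) +
      (if n' = β then S b l U * star (T j b m α U) else 0) -
      (if l = α then S b β U * star (T j b m n' U) else 0) -
      (if j = α then S b l U * star (T β b m n' U) else 0)) := by
    intro b
    split_ifs <;> simp only [star_add, star_sub, star_zero] <;> ring
  simp only [e1]
  rw [Finset.sum_add_distrib, Finset.sum_sub_distrib, Finset.sum_ite_eq' Finset.univ β,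
    Finset.sum_ite_eq' Finset.univ α, Finset.sum_sub_distrib, Finset.sum_sub_distrib,
    Finset.sum_add_distrib]
  simp only [Finset.mem_univ, if_true, sub_self, zero_add]
  split_ifs <;> (try simp only [Finset.sum_const_zero])

theorem Av_T22_const (δ : Design n (D' + D)) {c : UG n → ℂ} (hc : PolLe D' c)
    (hc0 : ∀ a b, HasD a b c (fun _ => 0)) (hT : Ten22 D T)
    (hs1 : ∀ i j k l, T i j k l = T j i k l) (hs2 : ∀ i j k l, T i j k l = T i j l k)
    (a : Fin n) :
    (n : ℂ) * ((n : ℂ) + 1) * Av δ (fun U => c U * star (T a a a a U)) =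
      2 * Av δ (fun U => c U * star (∑ i, ∑ j, T i j i j U)) := by
  have h1 : ∀ b, b ≠ a → Av δ (fun U => c U * star (T a a a a U)) =
      2 * Av δ (fun U => c U * star (T a b a b U)) := by
    intro b hb
    have hab' : ¬ (a = b) := fun h => hb h.symm
    have hp := hc.mul (hT.1 a a a b).star
    have h1 := Av_HasD δ hp ((hc0 a b).mul (hT.2 b a a a a b).star)
    have e : (fun U => (0 : ℂ) * star (T a a a b U) + c U * -star ((if a = a then T b a a b U
        else 0) + (if a = a then T a b a b U else 0) - (if a = b then T a a a b U else 0) -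
        (if b = b then T a a a a U else 0))) = fun U => c U * star (T a a a a U) -
        2 * (c U * star (T a b a b U)) := by
      funext U
      simp only [hab', if_true, if_false, sub_zero, hs1 b a a b, star_sub, star_add]
      ring
    rw [e, Av_sub, Av_mul_left] at h1
    linear_combination h1
  have h2 : ∑ b, (if b = a then 2 * Av δ (fun U => c U * star (T a a a a U)) else
      Av δ (fun U => c U * star (T a a a a U))) =
      ∑ b, 2 * Av δ (fun U => c U * star (T a b a b U)) := by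
    refine Finset.sum_congr rfl fun b _ => ?_
    by_cases hb : b = a
    · rw [if_pos hb, hb]
    · rw [if_neg hb]
      exact h1 b hb
  have h3 : ∀ b, (if b = a then 2 * Av δ (fun U => c U * star (T a a a a U)) else
      Av δ (fun U => c U * star (T a a a a U))) =
      Av δ (fun U => c U * star (T a a a a U)) +
        if b = a then Av δ (fun U => c U * star (T a a a a U)) else 0 := by
    intro b
    split_ifs <;> ring
  simp only [h3, Finset.sum_add_distrib, Finset.sum_const, Finset.card_univ, Fintype.card_fin,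
    nsmul_eq_mul, Finset.sum_ite_eq', Finset.mem_univ, if_true] at h2
  rw [← Finset.mul_sum, ← Av_sum] at h2
  have hK : Ten11 (D' + D) (fun i k U => c U * star (∑ b, T b k b i U)) :=
    Ten11.constMulStar hc hc0 hT.contr13
  have h4 := Av_T11 δ hK a
  have e4 : (fun U => ∑ i, c U * star (T a i a i U)) = fun U => c U * star (∑ b, T b a b a U) := by
    funext U
    rw [star_sum, Finset.mul_sum]
    refine Finset.sum_congr rfl fun i _ => ?_
    rw [hs1 i a i a, hs2 a i i a]
  have e5 : (fun U => ∑ i, c U * star (∑ b, T b i b i U)) =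
      fun U => c U * star (∑ i, ∑ j, T i j i j U) := by
    funext U
    rw [Finset.sum_comm (f := fun i j => T i j i j U), star_sum, Finset.mul_sum]
  rw [e4] at h2
  rw [e5] at h4
  linear_combination (n : ℂ) * h2 + 2 * h4

/-- **The trace term**: for `S` of type (1,1) and symmetric `T` of type (2,2),
`n(n+1)(n+2) Av S(a|a) conj T(aa|aa) = 4 Av ∑ S(b|i) conj T_1(b|i) + 2 Av (tr S) conj T_2`. -/
theorem Av_S11_T22 (δ : Design n (D' + D)) (hS : Ten11 D' S) (hT : Ten22 D T)
    (hs1 : ∀ i j k l, T i j k l = T j i k l) (hs2 : ∀ i j k l, T i j k l = T i j l k)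
    (a : Fin n) :
    (n : ℂ) * ((n : ℂ) + 1) * ((n : ℂ) + 2) * Av δ (fun U => S a a U * star (T a a a a U)) =
      4 * Av δ (fun U => ∑ b, ∑ i, S b i U * star (∑ j, T b j i j U)) +
      2 * Av δ (fun U => (∑ i, S i i U) * star (∑ i, ∑ j, T i j i j U)) := by
  -- step A
  have hA : ∀ b, b ≠ a → Av δ (fun U => S a a U * star (T a a a a U)) =
      Av δ (fun U => S b b U * star (T a a a a U)) +
        2 * Av δ (fun U => S b a U * star (T a b a a U)) := by
    intro b hb
    have hab' : ¬ (a = b) := fun h => hb h.symm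
    have hp := (hS.1 b a).mul (hT.1 a a a a).star
    have h1 := Av_HasD δ hp ((hS.2 a b b a).mul (hT.2 b a a a a a).star)
    have e : (fun U => ((if b = b then S a a U else 0) - (if a = a then S b b U else 0)) *
        star (T a a a a U) + S b a U * -star ((if a = a then T b a a a U else 0) +
        (if a = a then T a b a a U else 0) - (if a = b then T a a a a U else 0) -
        (if a = b then T a a a a U else 0))) = fun U => (S a a U * star (T a a a a U) -
        S b b U * star (T a a a a U)) - 2 * (S b a U * star (T a b a a U)) := by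
      funext U
      simp only [hab', if_true, if_false, sub_zero, hs1 b a a a, star_add]
      ring
    rw [e, Av_sub, Av_sub, Av_mul_left] at h1
    linear_combination h1
  have hA2 : ∑ b, (Av δ (fun U => S a a U * star (T a a a a U)) +
      if b = a then 2 * Av δ (fun U => S a a U * star (T a a a a U)) else 0) =
      ∑ b, (Av δ (fun U => S b b U * star (T a a a a U)) +
        2 * Av δ (fun U => S b a U * star (T a b a a U))) := by
    refine Finset.sum_congr rfl fun b _ => ?_
    by_cases hb : b = a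
    · rw [if_pos hb, hb]
    · rw [if_neg hb, add_zero]
      exact hA b hb
  simp only [Finset.sum_add_distrib, Finset.sum_const, Finset.card_univ, Fintype.card_fin,
    nsmul_eq_mul, Finset.sum_ite_eq', Finset.mem_univ, if_true] at hA2
  rw [← Finset.mul_sum, ← Av_sum, ← Av_sum] at hA2
  -- step B
  have hB := Av_T22_const δ (c := fun U => ∑ i, S i i U)
    (PolLe.sum _ (fun i => S i i) fun i _ => hS.1 i i) hS.contr_const hT hs1 hs2 a
  have eB : (fun U => ∑ b, S b b U * star (T a a a a U)) =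
      fun U => (∑ i, S i i U) * star (T a a a a U) := by
    funext U
    rw [Finset.sum_mul]
  rw [eB] at hA2
  -- step C
  have hW := Ten22.half hS hT
  have hC := Av_T22 δ hW a
  have eC1 : (fun U => ∑ i, ∑ j, ∑ b, S b i U * star (T j b i j U)) =
      fun U => ∑ b, ∑ i, S b i U * star (∑ j, T b j i j U) := by
    funext U
    rw [Finset.sum_comm (f := fun b i => S b i U * star (∑ j, T b j i j U))]
    refine Finset.sum_congr rfl fun i _ => ?_
    rw [Finset.sum_comm]
    refine Finset.sum_congr rfl fun b _ => ?_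
    rw [star_sum, Finset.mul_sum]
    exact Finset.sum_congr rfl fun j _ => by rw [hs1 j b i j]
  have eC2 : (fun U => ∑ i, ∑ j, ∑ b, S b j U * star (T i b i j U)) =
      fun U => ∑ b, ∑ i, S b i U * star (∑ j, T b j i j U) := by
    funext U
    rw [Finset.sum_comm, Finset.sum_comm (f := fun b i => S b i U * star (∑ j, T b j i j U))]
    refine Finset.sum_congr rfl fun i _ => ?_
    rw [Finset.sum_comm]
    refine Finset.sum_congr rfl fun b _ => ?_
    rw [star_sum, Finset.mul_sum]
    exact Finset.sum_congr rfl fun j _ => by rw [hs1 j b j i, hs2 b j j i]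
  have eC0 : (fun U => ∑ b, S b a U * star (T a b a a U)) =
      fun U => ∑ i, S i a U * star (T a i a a U) := rfl
  rw [eC1, eC2] at hC
  linear_combination (n : ℂ) * ((n : ℂ) + 1) * hA2 + hB + 2 * hC

end ST

/-! ### real forms -/

theorem mul_star_eq (z : ℂ) : z * star z = ((‖z‖ ^ 2 : ℝ) : ℂ) := by
  rw [Complex.star_def, Complex.mul_conj, Complex.normSq_eq_norm_sq]

theorem Av_mul_star (δ : Design n D) (f : UG n → ℂ) :
    Av δ (fun U => f U * star (f U)) = ((Av δ (fun U => ‖f U‖ ^ 2) : ℝ) : ℂ) := by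
  rw [← Av_ofReal]
  exact Av_congr δ fun U => mul_star_eq _

/-- `4 ∑_{a≠b} Av |T(ab|a)|^2 = 2n ∑_a Av |T(aa|a)|^2 - (4/(n+1)) ∑ |t|^2`, real form. -/
theorem Av_T21_real (δ : Design n (D + D)) {T : Fin n → Fin n → Fin n → UG n → ℂ}
    (hT : Ten21 D T) (hs : ∀ i j k, T i j k = T j i k) :
    4 * ∑ a, ∑ b, (if b = a then 0 else Av δ (fun U => ‖T a b a U‖ ^ 2)) =
      2 * (n : ℝ) * ∑ a, Av δ (fun U => ‖T a a a U‖ ^ 2) -
      (4 / ((n : ℝ) + 1)) * Av δ (fun U => ∑ a, ‖∑ k, T a k k U‖ ^ 2) := by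
  have h := Av_T21_main δ hT hs
  simp only [mul_star_eq] at h
  have e : Av δ (fun U => ∑ a, ((‖∑ k, T a k k U‖ ^ 2 : ℝ) : ℂ)) =
      ((Av δ (fun U => ∑ a, ‖∑ k, T a k k U‖ ^ 2) : ℝ) : ℂ) := by
    rw [← Av_ofReal]
    exact Av_congr δ fun U => by rw [Complex.ofReal_sum]
  rw [e] at h
  simp only [Av_ofReal] at h
  have h2 : ∀ a b, (if b = a then (0 : ℂ) else ((Av δ (fun U => ‖T a b a U‖ ^ 2) : ℝ) : ℂ)) =
      (((if b = a then 0 else Av δ (fun U => ‖T a b a U‖ ^ 2) : ℝ)) : ℂ) := by
    intro a b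
    split_ifs <;> simp
  simp only [h2] at h
  apply Complex.ofReal_injective
  rw [Complex.ofReal_sub, Complex.ofReal_mul, Complex.ofReal_mul, Complex.ofReal_mul,
    Complex.ofReal_mul, Complex.ofReal_sum, Complex.ofReal_sum, Complex.ofReal_div,
    Complex.ofReal_add, Complex.ofReal_ofNat, Complex.ofReal_ofNat, Complex.ofReal_natCast,
    Complex.ofReal_one]
  simp only [Complex.ofReal_sum]
  exact h

/-- The gradient formula, real form. -/
theorem Av_T22_real (δ : Design n (D + D)) {T : Fin n → Fin n → Fin n → Fin n → UG n → ℂ}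
    (hT : Ten22 D T) (hs1 : ∀ i j k l, T i j k l = T j i k l)
    (hs2 : ∀ i j k l, T i j k l = T i j l k) (a : Fin n) :
    2 * ∑ b, (if b = a then 0 else Av δ (fun U => ‖T a a a b U‖ ^ 2)) =
      ((n : ℝ) + 1) * Av δ (fun U => ‖T a a a a U‖ ^ 2) -
        (2 / ((n : ℝ) * ((n : ℝ) + 1) * ((n : ℝ) + 2))) *
          (4 * Av δ (fun U => ∑ b, ∑ i, ‖∑ j, T b j i j U‖ ^ 2) +
            2 * Av δ (fun U => ‖∑ i, ∑ j, T i j i j U‖ ^ 2)) := by
  have h := Av_T22_grad δ hT hs1 hs2 a
  have h3 := Av_S11_T22 δ hT.contr13 hT hs1 hs2 a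
  have e1 : (fun U => (∑ b, T a b a b U) * star (T a a a a U)) =
      fun U => (∑ i, T i a i a U) * star (T a a a a U) := by
    funext U
    congr 1
    exact Finset.sum_congr rfl fun b _ => by rw [hs1 a b a b, hs2 b a a b]
  rw [e1] at h
  have e2 : (fun U => ∑ b, ∑ i, (∑ j, T j b j i U) * star (∑ j, T b j i j U)) =
      fun U => ∑ b, ∑ i, ((‖∑ j, T b j i j U‖ ^ 2 : ℝ) : ℂ) := by
    funext U
    refine Finset.sum_congr rfl fun b _ => Finset.sum_congr rfl fun i _ => ?_
    rw [← mul_star_eq]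
    congr 1
    exact Finset.sum_congr rfl fun j _ => by rw [hs1 j b j i, hs2 b j j i]
  have e3 : (fun U => (∑ i, ∑ j, T j i j i U) * star (∑ i, ∑ j, T i j i j U)) =
      fun U => ((‖∑ i, ∑ j, T i j i j U‖ ^ 2 : ℝ) : ℂ) := by
    funext U
    rw [← mul_star_eq]
    congr 1
    exact Finset.sum_comm
  have e4 : Av δ (fun U => ∑ b, ∑ i, ((‖∑ j, T b j i j U‖ ^ 2 : ℝ) : ℂ)) =
      ((Av δ (fun U => ∑ b, ∑ i, ‖∑ j, T b j i j U‖ ^ 2) : ℝ) : ℂ) := by
    rw [← Av_ofReal]
    exact Av_congr δ fun U => by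
      rw [Complex.ofReal_sum]
      exact Finset.sum_congr rfl fun b _ => by rw [Complex.ofReal_sum]
  rw [e2, e3, e4, Av_ofReal] at h3
  simp only [Av_mul_star] at h
  have h2 : ∀ b, (if b = a then (0 : ℂ) else ((Av δ (fun U => ‖T a a a b U‖ ^ 2) : ℝ) : ℂ)) =
      (((if b = a then 0 else Av δ (fun U => ‖T a a a b U‖ ^ 2) : ℝ)) : ℂ) := by
    intro b
    split_ifs <;> simp
  simp only [h2] at h
  have hn : 0 < n := Nat.pos_of_ne_zero fun h0 => by
    subst h0
    exact a.elim0
  have hn0 : (n : ℝ) ≠ 0 := by positivity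
  have hn1 : (n : ℝ) + 1 ≠ 0 := by positivity
  have hn2 : (n : ℝ) + 2 ≠ 0 := by positivity
  generalize Av δ (fun U => (∑ i, T i a i a U) * star (T a a a a U)) = z at h h3
  have hz : z = (((1 / ((n : ℝ) * ((n : ℝ) + 1) * ((n : ℝ) + 2))) *
          (4 * Av δ (fun U => ∑ b, ∑ i, ‖∑ j, T b j i j U‖ ^ 2) +
            2 * Av δ (fun U => ‖∑ i, ∑ j, T i j i j U‖ ^ 2)) : ℝ) : ℂ) := by
    have c0 : (n : ℂ) ≠ 0 := by exact_mod_cast hn0
    have c1 : (n : ℂ) + 1 ≠ 0 := by exact_mod_cast hn1
    have c2 : (n : ℂ) + 2 ≠ 0 := by exact_mod_cast hn2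
    push_cast
    field_simp
    linear_combination h3
  rw [hz] at h
  have h5 : 2 * ∑ b, (if b = a then 0 else Av δ (fun U => ‖T a a a b U‖ ^ 2)) =
      ((n : ℝ) + 1) * Av δ (fun U => ‖T a a a a U‖ ^ 2) - 2 *
        ((1 / ((n : ℝ) * ((n : ℝ) + 1) * ((n : ℝ) + 2))) *
          (4 * Av δ (fun U => ∑ b, ∑ i, ‖∑ j, T b j i j U‖ ^ 2) +
            2 * Av δ (fun U => ‖∑ i, ∑ j, T i j i j U‖ ^ 2))) := by
    exact_mod_cast h
  rw [h5]
  ring

/-- The gradient inequality. -/
theorem Av_T22_le (δ : Design n (D + D)) {T : Fin n → Fin n → Fin n → Fin n → UG n → ℂ}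
    (hT : Ten22 D T) (hs1 : ∀ i j k l, T i j k l = T j i k l)
    (hs2 : ∀ i j k l, T i j k l = T i j l k) (a : Fin n) :
    2 * ∑ b, (if b = a then 0 else Av δ (fun U => ‖T a a a b U‖ ^ 2)) ≤
      ((n : ℝ) + 1) * Av δ (fun U => ‖T a a a a U‖ ^ 2) := by
  rw [Av_T22_real δ hT hs1 hs2 a]
  have h1 : 0 ≤ Av δ (fun U => ∑ b, ∑ i, ‖∑ j, T b j i j U‖ ^ 2) :=
    Av_nonneg δ fun U => by positivity
  have h2 : 0 ≤ Av δ (fun U => ‖∑ i, ∑ j, T i j i j U‖ ^ 2) :=
    Av_nonneg δ fun U => by positivity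
  have h3 : 0 ≤ (2 / ((n : ℝ) * ((n : ℝ) + 1) * ((n : ℝ) + 2))) *
      (4 * Av δ (fun U => ∑ b, ∑ i, ‖∑ j, T b j i j U‖ ^ 2) +
        2 * Av δ (fun U => ‖∑ i, ∑ j, T i j i j U‖ ^ 2)) := by positivity
  linarith

end Pool.Agent.H92U
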