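import Pool.Agent.Lib.H92U.U4

/-! # H92U/U16: uniqueness, complex conjugation, embedded small unitary groups (plane averages) -/

namespace Pool.Agent.H92U

open Matrix

variable {n m D : ℕ}

/-- Averages over finite families of right translates. -/
theorem Av_family (δ : Design n D) {f : UG n → ℂ} (hf : PolLe D f) {N : ℕ} (w : Fin N → ℝ)
    (hw : ∑ k, w k = 1) (V : Fin N → UG n) :
    Av δ f = Av δ (fun U => ∑ k, (w k : ℂ) * f (U * V k)) := by
  rw [Av_sum]
  have h : ∀ k, Av δ (fun U => (w k : ℂ) * f (U * V k)) = (w k : ℂ) * Av δ f := by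
    intro k
    rw [Av_mul_left, Av_right δ hf]
  rw [Finset.sum_congr rfl fun k _ => h k, ← Finset.sum_mul, ← Complex.ofReal_sum, hw]
  simp

/-- Real part form. -/
theorem Av_family_re (δ : Design n D) {f : UG n → ℂ} (hf : PolLe D f) {N : ℕ} (w : Fin N → ℝ)
    (hw : ∑ k, w k = 1) (V : Fin N → UG n) :
    Av δ (fun U => (f U).re) = Av δ (fun U => ∑ k, w k * (f (U * V k)).re) := by
  rw [Av_re, Av_family δ hf w hw V, ← Av_re]
  refine Av_congr δ fun U => ?_
  rw [Complex.re_sum]
  exact Finset.sum_congr rfl fun k _ => by rw [Complex.re_ofReal_mul]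

/-- All designs give the same averages. -/
theorem Av_uniq (δ δ' : Design n D) {f : UG n → ℂ} (hf : PolLe D f) : Av δ f = Av δ' f := by
  have h1 : Av δ f = ∑ k, ∑ j, ((δ'.w k : ℂ) * (δ.w j : ℂ)) * f (δ.u j * δ'.u k) := by
    have h := Av_family δ hf δ'.w δ'.sum_one δ'.u
    rw [h, Av_eq]
    simp only [Finset.mul_sum]
    rw [Finset.sum_comm]
    exact Finset.sum_congr rfl fun k _ => Finset.sum_congr rfl fun j _ => by ring
  have h2 : Av δ' f = ∑ k, ∑ j, ((δ'.w k : ℂ) * (δ.w j : ℂ)) * f (δ.u j * δ'.u k) := by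
    have h : ∀ j, Av δ' f = Av δ' (fun U => f (δ.u j * U)) := fun j => (Av_left δ' hf _).symm
    have h3 : Av δ' f = ∑ j, (δ.w j : ℂ) * Av δ' (fun U => f (δ.u j * U)) := by
      rw [Finset.sum_congr rfl fun j _ => by rw [← h j], ← Finset.sum_mul, ← Complex.ofReal_sum,
        δ.sum_one]
      simp
    rw [h3]
    simp only [Av_eq, Finset.mul_sum]
    rw [Finset.sum_comm]
    exact Finset.sum_congr rfl fun k _ => Finset.sum_congr rfl fun j _ => by ring
  rw [h1, h2]

/-! ### complex conjugation -/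

/-- The entrywise conjugate. -/
def conjU (U : UG n) : UG n :=
  ⟨(U : Matrix (Fin n) (Fin n) ℂ).map star, by
    have h1 : star (U : Matrix (Fin n) (Fin n) ℂ) * (U : Matrix (Fin n) (Fin n) ℂ) = 1 :=
      Matrix.mem_unitaryGroup_iff'.1 U.2
    rw [Matrix.mem_unitaryGroup_iff']
    ext i j
    have h := congrArg star (congrFun (congrFun h1 i) j)
    rw [Matrix.mul_apply, Matrix.one_apply] at h
    rw [Matrix.mul_apply, Matrix.one_apply]
    have e : star (if i = j then (1 : ℂ) else 0) = if i = j then 1 else 0 := by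
      split_ifs <;> simp
    rw [← e, ← h, star_sum]
    refine Finset.sum_congr rfl fun k _ => ?_
    rw [star_mul']
    rfl⟩

theorem conjU_apply (U : UG n) (i j : Fin n) :
    (conjU U : Matrix (Fin n) (Fin n) ℂ) i j = star ((U : Matrix (Fin n) (Fin n) ℂ) i j) := rfl

theorem conjU_conjU (U : UG n) : conjU (conjU U) = U := by
  apply Subtype.ext
  ext i j
  rw [conjU_apply, conjU_apply, star_star]

theorem conjU_mul (U V : UG n) : conjU (U * V) = conjU U * conjU V := by
  apply Subtype.ext
  ext i j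
  rw [conjU_apply]
  change star (((U : Matrix (Fin n) (Fin n) ℂ) * (V : Matrix (Fin n) (Fin n) ℂ)) i j) =
    ((conjU U : Matrix (Fin n) (Fin n) ℂ) * (conjU V : Matrix (Fin n) (Fin n) ℂ)) i j
  rw [Matrix.mul_apply, Matrix.mul_apply, star_sum]
  refine Finset.sum_congr rfl fun k _ => ?_
  rw [star_mul', conjU_apply, conjU_apply]

theorem PolLe.conjU {f : UG n → ℂ} (hf : PolLe D f) : PolLe D (fun U => f (conjU U)) := by
  refine Submodule.span_induction (p := fun f _ => PolLe D (fun U => f (H92U.conjU U)))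
    ?_ ?_ ?_ ?_ hf
  · rintro _ ⟨l, hl, rfl⟩
    have h1 : PolLe D (lmono (l.map fun x => (x.1, x.2.1, !x.2.2))) := by
      refine PolLe.of_mono ?_
      rw [List.length_map]
      exact hl
    have h2 : (lmono (l.map fun x => (x.1, x.2.1, !x.2.2)) : UG n → ℂ) =
        fun U => lmono l (H92U.conjU U) := by
      funext U
      unfold lmono
      clear h1 hl
      induction l with
      | nil => simp
      | cons x l ih =>
        rw [List.map_cons, List.map_cons, List.prod_cons, List.map_cons, List.prod_cons, ih]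
        congr 1
        unfold fac
        rcases x with ⟨a, b, c⟩
        cases c <;> simp [conjU_apply]
    rwa [h2] at h1
  · exact PolLe.zero
  · intro x y _ _ hx hy
    exact PolLe.add hx hy
  · intro c x _ hx
    exact PolLe.smul c hx

/-- The conjugate design. -/
def Design.conj (δ : Design n D) : Design n D where
  m := δ.m
  w := δ.w
  u := fun k => conjU (δ.u k)
  nonneg := δ.nonneg
  sum_one := δ.sum_one
  right := by
    intro f hf V
    have h := δ.right _ hf.conjU (conjU V)
    simp only [conjU_mul, conjU_conjU] at h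
    exact h
  left := by
    intro f hf V
    have h := δ.left _ hf.conjU (conjU V)
    simp only [conjU_mul, conjU_conjU] at h
    exact h

/-- **Invariance under complex conjugation.** -/
theorem Av_conj (δ : Design n D) {f : UG n → ℂ} (hf : PolLe D f) :
    Av δ (fun U => f (conjU U)) = Av δ f :=
  Av_uniq δ.conj δ hf

theorem Av_conj_re (δ : Design n D) {f : UG n → ℂ} (hf : PolLe D f) :
    Av δ (fun U => (f (conjU U)).re) = Av δ (fun U => (f U).re) := by
  rw [Av_re, Av_conj δ hf, ← Av_re]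

/-- The frame of the adjoint tuple. -/
theorem rot_conjU {p q : Type*} (U : UG n) (A : Fin n → Matrix p q ℂ) (i : Fin n) :
    rot (conjU U) (fun j => (A j)ᴴ) i = (rot U A i)ᴴ := by
  unfold rot
  rw [Matrix.conjTranspose_sum]
  refine Finset.sum_congr rfl fun j _ => ?_
  rw [Matrix.conjTranspose_smul, conjU_apply]

/-! ### embedded small unitary groups -/

/-- The inclusion of the coordinate subspace. -/
def incl (ι : Fin m → Fin n) : Matrix (Fin n) (Fin m) ℂ := Matrix.of fun i x => if i = ι x then 1 else 0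

theorem incl_apply (ι : Fin m → Fin n) (i : Fin n) (x : Fin m) :
    incl ι i x = if i = ι x then 1 else 0 := rfl

theorem incl_orth (ι : Fin m → Fin n) (hι : Function.Injective ι) :
    (incl ι)ᴴ * incl ι = 1 := by
  ext x y
  rw [Matrix.mul_apply, Matrix.one_apply]
  simp only [Matrix.conjTranspose_apply, incl_apply, apply_ite (star : ℂ → ℂ), star_one, star_zero,
    ite_mul, one_mul, zero_mul]
  rw [Finset.sum_ite_eq' Finset.univ (ι x)]
  simp only [Finset.mem_univ, if_true, hι.eq_iff]

/-- The embedding of `U(m)` in `U(n)` along an injection of the coordinates. -/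
noncomputable def emb (ι : Fin m → Fin n) (hι : Function.Injective ι) (W : UG m) : UG n :=
  ⟨1 + incl ι * ((W : Matrix (Fin m) (Fin m) ℂ) - 1) * (incl ι)ᴴ, by
    have h1 : (W : Matrix (Fin m) (Fin m) ℂ)ᴴ * (W : Matrix (Fin m) (Fin m) ℂ) = 1 :=
      Matrix.mem_unitaryGroup_iff'.1 W.2
    rw [Matrix.mem_unitaryGroup_iff', Matrix.star_eq_conjTranspose]
    set J := incl ι with hJ
    set w := (W : Matrix (Fin m) (Fin m) ℂ) with hw
    have hJJ : Jᴴ * J = 1 := incl_orth ι hι
    have e1 : (1 + J * (w - 1) * Jᴴ)ᴴ = 1 + J * (wᴴ - 1) * Jᴴ := by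
      rw [Matrix.conjTranspose_add, Matrix.conjTranspose_one, Matrix.conjTranspose_mul,
        Matrix.conjTranspose_mul, Matrix.conjTranspose_conjTranspose, Matrix.conjTranspose_sub,
        Matrix.conjTranspose_one, Matrix.mul_assoc]
    rw [e1]
    have e2 : J * (wᴴ - 1) * Jᴴ * (J * (w - 1) * Jᴴ) = J * ((wᴴ - 1) * (w - 1)) * Jᴴ := by
      calc J * (wᴴ - 1) * Jᴴ * (J * (w - 1) * Jᴴ) = J * (wᴴ - 1) * (Jᴴ * J) * ((w - 1) * Jᴴ) := by
            simp only [Matrix.mul_assoc]
        _ = J * ((wᴴ - 1) * (w - 1)) * Jᴴ := by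
            rw [hJJ, Matrix.mul_one]
            simp only [Matrix.mul_assoc]
    have e3 : (wᴴ - 1) * (w - 1) = -(wᴴ - 1) - (w - 1) := by
      rw [Matrix.mul_sub, Matrix.sub_mul, h1, Matrix.mul_one, Matrix.one_mul]
      abel
    rw [Matrix.mul_add, Matrix.mul_one, Matrix.add_mul, Matrix.one_mul, e2, e3]
    generalize wᴴ - 1 = u
    generalize w - 1 = v
    rw [Matrix.mul_sub, Matrix.mul_neg, Matrix.sub_mul, Matrix.neg_mul]
    abel⟩

theorem emb_coe (ι : Fin m → Fin n) (hι : Function.Injective ι) (W : UG m) :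
    (emb ι hι W : Matrix (Fin n) (Fin n) ℂ) =
      1 + incl ι * ((W : Matrix (Fin m) (Fin m) ℂ) - 1) * (incl ι)ᴴ := rfl

/-- The columns after an embedded rotation. -/
theorem emb_col (ι : Fin m → Fin n) (hι : Function.Injective ι) (W : UG m) (U : UG n)
    (α : Fin n) (y : Fin m) :
    ((U * emb ι hι W : UG n) : Matrix (Fin n) (Fin n) ℂ) α (ι y) =
      ∑ x, (W : Matrix (Fin m) (Fin m) ℂ) x y * (U : Matrix (Fin n) (Fin n) ℂ) α (ι x) := by
  change ((U : Matrix (Fin n) (Fin n) ℂ) * (emb ι hι W : Matrix (Fin n) (Fin n) ℂ)) α (ι y) = _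
  rw [emb_coe, Matrix.mul_add, Matrix.mul_one, Matrix.add_apply, ← Matrix.mul_assoc,
    ← Matrix.mul_assoc, Matrix.mul_apply]
  have e1 : ∀ x, (incl ι)ᴴ x (ι y) = if x = y then 1 else 0 := by
    intro x
    rw [Matrix.conjTranspose_apply, incl_apply]
    by_cases h : x = y
    · rw [if_pos h, h, if_pos rfl, star_one]
    · rw [if_neg h, if_neg fun h2 => h (hι h2).symm, star_zero]
  simp only [e1, mul_ite, mul_one, mul_zero]
  rw [Finset.sum_ite_eq' Finset.univ y]
  simp only [Finset.mem_univ, if_true]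
  rw [Matrix.mul_apply]
  have e2 : ∀ x, ((U : Matrix (Fin n) (Fin n) ℂ) * incl ι) α x =
      (U : Matrix (Fin n) (Fin n) ℂ) α (ι x) := by
    intro x
    rw [Matrix.mul_apply]
    simp only [incl_apply, mul_ite, mul_one, mul_zero]
    rw [Finset.sum_ite_eq' Finset.univ (ι x)]
    simp
  simp only [e2, Matrix.sub_apply, mul_sub, Finset.sum_sub_distrib, Matrix.one_apply, mul_ite,
    mul_one, mul_zero]
  rw [Finset.sum_ite_eq' Finset.univ y]
  simp only [Finset.mem_univ, if_true]
  rw [add_sub_cancel]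
  exact Finset.sum_congr rfl fun x _ => mul_comm _ _

theorem emb_col_off (ι : Fin m → Fin n) (hι : Function.Injective ι) (W : UG m) (U : UG n)
    (α i : Fin n) (hi : ∀ x, ι x ≠ i) :
    ((U * emb ι hι W : UG n) : Matrix (Fin n) (Fin n) ℂ) α i =
      (U : Matrix (Fin n) (Fin n) ℂ) α i := by
  change ((U : Matrix (Fin n) (Fin n) ℂ) * (emb ι hι W : Matrix (Fin n) (Fin n) ℂ)) α i = _
  rw [emb_coe, Matrix.mul_add, Matrix.mul_one, Matrix.add_apply, ← Matrix.mul_assoc,
    ← Matrix.mul_assoc, Matrix.mul_apply]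
  have e1 : ∀ x, (incl ι)ᴴ x i = 0 := by
    intro x
    rw [Matrix.conjTranspose_apply, incl_apply, if_neg fun h => hi x h.symm, star_zero]
  simp only [e1, mul_zero, Finset.sum_const_zero, add_zero]

/-- **The frame after an embedded rotation.** -/
theorem rot_emb {M : Type*} [AddCommGroup M] [Module ℂ M] (ι : Fin m → Fin n)
    (hι : Function.Injective ι) (W : UG m) (U : UG n) (A : Fin n → M) (y : Fin m) :
    rot (U * emb ι hι W) A (ι y) = rot W (fun x => rot U A (ι x)) y := by
  unfold rot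
  simp only [emb_col, Finset.sum_smul, Finset.smul_sum, smul_smul]
  exact Finset.sum_comm

theorem rot_emb_off {M : Type*} [AddCommGroup M] [Module ℂ M] (ι : Fin m → Fin n)
    (hι : Function.Injective ι) (W : UG m) (U : UG n) (A : Fin n → M) (i : Fin n)
    (hi : ∀ x, ι x ≠ i) : rot (U * emb ι hι W) A i = rot U A i := by
  unfold rot
  exact Finset.sum_congr rfl fun j _ => by rw [emb_col_off ι hι W U j i hi]

/-- **Averages of averages over embedded groups.** -/
theorem Av_emb (δ : Design n D) {D' : ℕ} (δ' : Design m D') {f : UG n → ℂ} (hf : PolLe D f)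
    (ι : Fin m → Fin n) (hι : Function.Injective ι) :
    Av δ f = Av δ (fun U => Av δ' (fun W => f (U * emb ι hι W))) := by
  have h := Av_family δ hf δ'.w δ'.sum_one (fun k => emb ι hι (δ'.u k))
  rw [h]
  refine Av_congr δ fun U => ?_
  rw [Av_eq δ' (fun W => f (U * emb ι hι W))]

theorem Av_emb_re (δ : Design n D) {D' : ℕ} (δ' : Design m D') {f : UG n → ℂ} (hf : PolLe D f)
    (ι : Fin m → Fin n) (hι : Function.Injective ι) :
    Av δ (fun U => (f U).re) = Av δ (fun U => Av δ' (fun W => (f (U * emb ι hι W)).re)) := by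
  rw [Av_re, Av_emb δ δ' hf ι hι, ← Av_re]
  exact Av_congr δ fun U => (Av_re δ' _).symm

/-- Positivity from planes. -/
theorem Av_nonneg_of_emb (δ : Design n D) {D' : ℕ} (δ' : Design m D') {f : UG n → ℂ}
    (hf : PolLe D f) (ι : Fin m → Fin n) (hι : Function.Injective ι)
    (h : ∀ U, 0 ≤ Av δ' (fun W => (f (U * emb ι hι W)).re)) :
    0 ≤ Av δ (fun U => (f U).re) := by
  rw [Av_emb_re δ δ' hf ι hι]
  exact Av_nonneg δ h

/-- Positivity from finite families of rotations. -/
theorem Av_nonneg_of_family (δ : Design n D) {f : UG n → ℂ} (hf : PolLe D f) {N : ℕ}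
    (w : Fin N → ℝ) (hw : ∑ k, w k = 1) (V : Fin N → UG n)
    (h : ∀ U, 0 ≤ ∑ k, w k * (f (U * V k)).re) : 0 ≤ Av δ (fun U => (f U).re) := by
  rw [Av_family_re δ hf w hw V]
  exact Av_nonneg δ h

/-- The injection of two coordinates. -/
def pairI (a b : Fin n) : Fin 2 → Fin n := ![a, b]

theorem pairI_inj {a b : Fin n} (h : a ≠ b) : Function.Injective (pairI a b) := by
  intro x y hxy
  fin_cases x <;> fin_cases y <;> simp_all [pairI]

end Pool.Agent.H92U
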