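import Mathlib

/-! # H92U/U1: averages over a compact group by finite positive quadratures -/

namespace Pool.Agent.H92U

open MeasureTheory MeasureTheory.Measure

/-- The convex hull of a compact set in a finite dimensional space is compact. -/
theorem isCompact_convexHull {E : Type} [NormedAddCommGroup E] [NormedSpace ℝ E]
    [FiniteDimensional ℝ E] {K : Set E} (hK : IsCompact K) : IsCompact (convexHull ℝ K) := by
  classical
  rcases K.eq_empty_or_nonempty with rfl | ⟨k0, hk0⟩
  · simp
  set d := Module.finrank ℝ E + 1 with hd
  let F : (Fin d → ℝ) × (Fin d → E) → E := fun p => ∑ i, p.1 i • p.2 i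
  have hF : Continuous F := by
    refine continuous_finsetSum _ fun i _ => ?_
    exact ((continuous_apply i).comp continuous_fst).smul ((continuous_apply i).comp continuous_snd)
  have hS : IsCompact (stdSimplex ℝ (Fin d) ×ˢ (Set.univ.pi fun _ : Fin d => K)) :=
    (isCompact_stdSimplex ℝ (Fin d)).prod (isCompact_univ_pi fun _ => hK)
  have himg : convexHull ℝ K = F '' (stdSimplex ℝ (Fin d) ×ˢ (Set.univ.pi fun _ : Fin d => K)) := by
    apply Set.Subset.antisymm
    · intro x hx
      obtain ⟨ι, hι, z, w, hz, hai, hw, hw1, hx'⟩ := eq_pos_convex_span_of_mem_convexHull hx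
      have hcard : Fintype.card ι ≤ Fintype.card (Fin d) := by
        rw [Fintype.card_fin, hd]
        refine hai.card_le_finrank_succ.trans ?_
        exact Nat.succ_le_succ (Submodule.finrank_le _)
      obtain ⟨e⟩ : Nonempty (ι ↪ Fin d) := Function.Embedding.nonempty_of_card_le hcard
      refine ⟨(Function.extend e w 0, Function.extend e z (fun _ => k0)), ⟨⟨?_, ?_⟩, ?_⟩, ?_⟩
      · intro j
        by_cases hj : ∃ i, e i = j
        · obtain ⟨i, rfl⟩ := hj
          change 0 ≤ Function.extend e w 0 (e i)
          rw [e.injective.extend_apply]
          exact (hw i).le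
        · change 0 ≤ Function.extend e w 0 j
          rw [Function.extend_apply' _ _ _ hj]
          rfl
      · rw [← hw1]
        symm
        refine Fintype.sum_of_injective e e.injective _ _ ?_ ?_
        · intro j hj
          change Function.extend e w 0 j = 0
          rw [Function.extend_apply' _ _ _ (by simpa using hj)]
          rfl
        · intro i
          change w i = Function.extend e w 0 (e i)
          rw [e.injective.extend_apply]
      · intro j _
        by_cases hj : ∃ i, e i = j
        · obtain ⟨i, rfl⟩ := hj
          change Function.extend e z (fun _ => k0) (e i) ∈ K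
          rw [e.injective.extend_apply]
          exact hz ⟨i, rfl⟩
        · change Function.extend e z (fun _ => k0) j ∈ K
          rw [Function.extend_apply' _ _ _ hj]
          exact hk0
      · rw [← hx']
        symm
        refine Fintype.sum_of_injective e e.injective _ _ ?_ ?_
        · intro j hj
          change Function.extend e w 0 j • Function.extend e z (fun _ => k0) j = 0
          rw [Function.extend_apply' w _ _ (by simpa using hj)]
          simp
        · intro i
          change w i • z i = Function.extend e w 0 (e i) • Function.extend e z (fun _ => k0) (e i)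
          rw [e.injective.extend_apply, e.injective.extend_apply]
    · rintro _ ⟨⟨w, z⟩, ⟨⟨hw0, hw1⟩, hz⟩, rfl⟩
      exact (convex_convexHull ℝ K).sum_mem (fun i _ => hw0 i) hw1
        fun i _ => subset_convexHull ℝ K (hz i (Set.mem_univ i))
  rw [himg]
  exact hS.image hF

/-- The mean of a continuous function on a compact group is a finite convex combination of its
values. -/
theorem exists_quadrature {G : Type} [TopologicalSpace G] [CompactSpace G] [MeasurableSpace G]
    [OpensMeasurableSpace G] (μ : Measure G) [IsProbabilityMeasure μ]
    {E : Type} [NormedAddCommGroup E] [NormedSpace ℝ E] [FiniteDimensional ℝ E]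
    [SecondCountableTopology G]
    (Φ : G → E) (hΦ : Continuous Φ) :
    ∃ (m : ℕ) (w : Fin m → ℝ) (u : Fin m → G), (∀ i, 0 ≤ w i) ∧ ∑ i, w i = 1 ∧
      ∑ i, w i • Φ (u i) = ∫ x, Φ x ∂μ := by
  classical
  have hK : IsCompact (Set.range Φ) := isCompact_range hΦ
  have hC := isCompact_convexHull hK
  have hint : Integrable Φ μ := by
    have := hΦ.integrable_of_hasCompactSupport (μ := μ) (HasCompactSupport.of_compactSpace Φ)
    exact this
  have hmem : ∫ x, Φ x ∂μ ∈ convexHull ℝ (Set.range Φ) :=
    (convex_convexHull ℝ _).integral_mem hC.isClosed
      (Filter.Eventually.of_forall fun x => subset_convexHull ℝ _ ⟨x, rfl⟩) hint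
  rw [mem_convexHull_iff_exists_fintype] at hmem
  obtain ⟨ι, hι, w, z, hw0, hw1, hz, hx⟩ := hmem
  choose v hv using hz
  let e := Fintype.equivFin ι
  refine ⟨Fintype.card ι, fun i => w (e.symm i), fun i => v (e.symm i), fun i => hw0 _, ?_, ?_⟩
  · rw [← hw1]
    exact Equiv.sum_comp e.symm w
  · rw [← hx]
    have : ∀ i, w (e.symm i) • Φ (v (e.symm i)) = (fun i => w i • z i) (e.symm i) := by
      intro i
      simp only [hv]
    rw [Finset.sum_congr rfl fun i _ => this i]
    exact Equiv.sum_comp e.symm (fun i => w i • z i)

end Pool.Agent.H92U
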