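import Pool.Agent.Lib.H92U.U9

/-! # H92U/U10: matrix valued fields, Hilbert-Schmidt norms -/

namespace Pool.Agent.H92U

open Matrix

/-! ### Hilbert-Schmidt norm -/

section HS

variable {p q : Type*} [Fintype p] [Fintype q]

/-- The square of the Hilbert-Schmidt norm. -/
noncomputable def hs (M : Matrix p q ℂ) : ℝ := ∑ x, ∑ y, ‖M x y‖ ^ 2

theorem hs_nonneg (M : Matrix p q ℂ) : 0 ≤ hs M := by
  unfold hs
  positivity

theorem hs_zero : hs (0 : Matrix p q ℂ) = 0 := by
  simp [hs]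

theorem hs_trace (M : Matrix p q ℂ) : ((hs M : ℝ) : ℂ) = (M * Mᴴ).trace := by
  unfold hs Matrix.trace
  rw [Complex.ofReal_sum]
  refine Finset.sum_congr rfl fun x _ => ?_
  rw [Matrix.diag_apply, Matrix.mul_apply, Complex.ofReal_sum]
  refine Finset.sum_congr rfl fun y _ => ?_
  rw [Matrix.conjTranspose_apply, mul_star_eq]

theorem hs_conjTranspose (M : Matrix p q ℂ) : hs Mᴴ = hs M := by
  unfold hs
  rw [Finset.sum_comm]
  refine Finset.sum_congr rfl fun x _ => Finset.sum_congr rfl fun y _ => ?_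
  rw [Matrix.conjTranspose_apply, norm_star]

theorem hs_neg (M : Matrix p q ℂ) : hs (-M) = hs M := by
  simp [hs]

theorem hs_smul (c : ℂ) (M : Matrix p q ℂ) : hs (c • M) = ‖c‖ ^ 2 * hs M := by
  unfold hs
  rw [Finset.mul_sum]
  refine Finset.sum_congr rfl fun x _ => ?_
  rw [Finset.mul_sum]
  refine Finset.sum_congr rfl fun y _ => ?_
  rw [Matrix.smul_apply, smul_eq_mul, norm_mul, mul_pow]

theorem hs_par (M N : Matrix p q ℂ) : hs (M + N) + hs (M - N) = 2 * hs M + 2 * hs N := by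
  unfold hs
  rw [← Finset.sum_add_distrib, Finset.mul_sum, Finset.mul_sum, ← Finset.sum_add_distrib]
  refine Finset.sum_congr rfl fun x _ => ?_
  rw [← Finset.sum_add_distrib, Finset.mul_sum, Finset.mul_sum, ← Finset.sum_add_distrib]
  refine Finset.sum_congr rfl fun y _ => ?_
  rw [Matrix.add_apply, Matrix.sub_apply]
  have h := parallelogram_law_with_norm ℝ (M x y) (N x y)
  nlinarith [h]

/-- `|Y* - Y|^2 = 2 |Y|^2 - 2 Re tr Y^2`. -/
theorem hs_skew (Y : Matrix p p ℂ) : hs (Yᴴ - Y) = 2 * hs Y - 2 * ((Y * Y).trace).re := by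
  have h1 : ((hs (Yᴴ - Y) : ℝ) : ℂ) = 2 * ((hs Y : ℝ) : ℂ) - ((Y * Y).trace + star (Y * Y).trace) := by
    rw [hs_trace, hs_trace, Matrix.conjTranspose_sub, Matrix.conjTranspose_conjTranspose,
      ← Matrix.trace_conjTranspose, Matrix.conjTranspose_mul, Matrix.sub_mul, Matrix.mul_sub,
      Matrix.mul_sub, Matrix.trace_sub, Matrix.trace_sub, Matrix.trace_sub,
      Matrix.trace_mul_comm Yᴴ Y]
    ring
  have h2 : (Y * Y).trace + star (Y * Y).trace = ((2 * ((Y * Y).trace).re : ℝ) : ℂ) := by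
    rw [Complex.star_def, Complex.add_conj]
  rw [h2] at h1
  have h3 : hs (Yᴴ - Y) = 2 * hs Y - 2 * ((Y * Y).trace).re := by exact_mod_cast h1
  exact h3

/-- `|Y* + Y|^2 = 2 |Y|^2 + 2 Re tr Y^2`. -/
theorem hs_herm (Y : Matrix p p ℂ) : hs (Yᴴ + Y) = 2 * hs Y + 2 * ((Y * Y).trace).re := by
  have h := hs_par Yᴴ Y
  rw [hs_skew, hs_conjTranspose] at h
  linarith

theorem trace_mul_self (Y : Matrix p p ℂ) : (Y * Y).trace = ∑ x, ∑ y, Y x y * Y y x := by
  unfold Matrix.trace
  refine Finset.sum_congr rfl fun x _ => ?_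
  rw [Matrix.diag_apply, Matrix.mul_apply]

end HS

/-! ### matrix valued fields -/

variable {n D D' : ℕ} {p q r s : Type*}

/-- Type (1,1), matrix valued. -/
def TenM11 (D : ℕ) (T : Fin n → Fin n → UG n → Matrix p q ℂ) : Prop :=
  (∀ i k, PolM D (T i k)) ∧ ∀ a b i k, HasDM a b (T i k)
    (fun U => (if i = b then T a k U else 0) - (if k = a then T i b U else 0))

/-- Type (2,1), matrix valued. -/
def TenM21 (D : ℕ) (T : Fin n → Fin n → Fin n → UG n → Matrix p q ℂ) : Prop :=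
  (∀ i j k, PolM D (T i j k)) ∧ ∀ a b i j k, HasDM a b (T i j k)
    (fun U => (if i = b then T a j k U else 0) + (if j = b then T i a k U else 0) -
      (if k = a then T i j b U else 0))

/-- Type (2,2), matrix valued. -/
def TenM22 (D : ℕ) (T : Fin n → Fin n → Fin n → Fin n → UG n → Matrix p q ℂ) : Prop :=
  (∀ i j k l, PolM D (T i j k l)) ∧ ∀ a b i j k l, HasDM a b (T i j k l)
    (fun U => (if i = b then T a j k l U else 0) + (if j = b then T i a k l U else 0) -
      (if k = a then T i j b l U else 0) - (if l = a then T i j k b U else 0))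

theorem ite_apply2 (c : Prop) [Decidable c] (M : Matrix p q ℂ) (x : p) (y : q) :
    (if c then M else 0) x y = if c then M x y else 0 := by
  split_ifs <;> rfl

theorem TenM11.entry {T : Fin n → Fin n → UG n → Matrix p q ℂ} (h : TenM11 D T) (x : p) (y : q) :
    Ten11 D (fun i k U => T i k U x y) := by
  refine ⟨fun i k => h.1 i k x y, fun a b i k => ?_⟩
  refine (h.2 a b i k x y).congr (fun _ => rfl) fun U => ?_
  change _ = ((if i = b then T a k U else 0) - (if k = a then T i b U else 0)) x y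
  rw [Matrix.sub_apply, ite_apply2, ite_apply2]

theorem TenM21.entry {T : Fin n → Fin n → Fin n → UG n → Matrix p q ℂ} (h : TenM21 D T) (x : p)
    (y : q) : Ten21 D (fun i j k U => T i j k U x y) := by
  refine ⟨fun i j k => h.1 i j k x y, fun a b i j k => ?_⟩
  refine (h.2 a b i j k x y).congr (fun _ => rfl) fun U => ?_
  change _ = ((if i = b then T a j k U else 0) + (if j = b then T i a k U else 0) -
      (if k = a then T i j b U else 0)) x y
  rw [Matrix.sub_apply, Matrix.add_apply, ite_apply2, ite_apply2, ite_apply2]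

theorem TenM22.entry {T : Fin n → Fin n → Fin n → Fin n → UG n → Matrix p q ℂ} (h : TenM22 D T)
    (x : p) (y : q) : Ten22 D (fun i j k l U => T i j k l U x y) := by
  refine ⟨fun i j k l => h.1 i j k l x y, fun a b i j k l => ?_⟩
  refine (h.2 a b i j k l x y).congr (fun _ => rfl) fun U => ?_
  change _ = ((if i = b then T a j k l U else 0) + (if j = b then T i a k l U else 0) -
      (if k = a then T i j b l U else 0) - (if l = a then T i j k b U else 0)) x y
  rw [Matrix.sub_apply, Matrix.sub_apply, Matrix.add_apply, ite_apply2, ite_apply2, ite_apply2,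
    ite_apply2]

theorem PolM.conj [Fintype p] [Fintype q] {F : UG n → Matrix p q ℂ} (P : Matrix r p ℂ)
    (Q : Matrix q s ℂ) (h : PolM D F) : PolM D (fun U => P * F U * Q) := by
  have h1 := ((PolM.const (n := n) (D := 0) P).mul h).mul (PolM.const (n := n) (D := 0) Q)
  exact h1.mono (by omega)

theorem HasDM.conj [Fintype p] [Fintype q] {a b : Fin n} {F G : UG n → Matrix p q ℂ}
    (P : Matrix r p ℂ) (Q : Matrix q s ℂ) (h : HasDM a b F G) :
    HasDM a b (fun U => P * F U * Q) (fun U => P * G U * Q) := by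
  refine (((HasDM.const (a := a) (b := b) P).mul h).mul (HasDM.const Q)).congr (fun _ => rfl)
    fun U => ?_
  simp

theorem TenM11.conj [Fintype p] [Fintype q] {T : Fin n → Fin n → UG n → Matrix p q ℂ}
    (P : Matrix r p ℂ) (Q : Matrix q s ℂ) (h : TenM11 D T) :
    TenM11 D (fun i k U => P * T i k U * Q) := by
  refine ⟨fun i k => (h.1 i k).conj P Q, fun a b i k => ?_⟩
  refine ((h.2 a b i k).conj P Q).congr (fun _ => rfl) fun U => ?_
  rw [Matrix.mul_sub, Matrix.sub_mul]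
  congr 1 <;> split_ifs <;> simp

theorem TenM21.conj [Fintype p] [Fintype q] {T : Fin n → Fin n → Fin n → UG n → Matrix p q ℂ}
    (P : Matrix r p ℂ) (Q : Matrix q s ℂ) (h : TenM21 D T) :
    TenM21 D (fun i j k U => P * T i j k U * Q) := by
  refine ⟨fun i j k => (h.1 i j k).conj P Q, fun a b i j k => ?_⟩
  refine ((h.2 a b i j k).conj P Q).congr (fun _ => rfl) fun U => ?_
  rw [Matrix.mul_sub, Matrix.sub_mul, Matrix.mul_add, Matrix.add_mul]
  congr 1
  · congr 1 <;> split_ifs <;> simp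
  · split_ifs <;> simp

theorem TenM22.conj [Fintype p] [Fintype q]
    {T : Fin n → Fin n → Fin n → Fin n → UG n → Matrix p q ℂ}
    (P : Matrix r p ℂ) (Q : Matrix q s ℂ) (h : TenM22 D T) :
    TenM22 D (fun i j k l U => P * T i j k l U * Q) := by
  refine ⟨fun i j k l => (h.1 i j k l).conj P Q, fun a b i j k l => ?_⟩
  refine ((h.2 a b i j k l).conj P Q).congr (fun _ => rfl) fun U => ?_
  rw [Matrix.mul_sub, Matrix.sub_mul, Matrix.mul_sub, Matrix.sub_mul, Matrix.mul_add,
    Matrix.add_mul]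
  congr 1
  · congr 1
    · congr 1 <;> split_ifs <;> simp
    · split_ifs <;> simp
  · split_ifs <;> simp

theorem TenM22.swapAnti {T : Fin n → Fin n → Fin n → Fin n → UG n → Matrix p q ℂ}
    (h : TenM22 D T) : TenM22 D (fun i j k l => T i j l k) := by
  refine ⟨fun i j k l => h.1 i j l k, fun a b i j k l => ?_⟩
  refine (h.2 a b i j l k).congr (fun _ => rfl) fun U => ?_
  abel

theorem TenM22.add {S T : Fin n → Fin n → Fin n → Fin n → UG n → Matrix p q ℂ}
    (hS : TenM22 D S) (hT : TenM22 D T) : TenM22 D (fun i j k l U => S i j k l U + T i j k l U) := by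
  refine ⟨fun i j k l => (hS.1 i j k l).add (hT.1 i j k l), fun a b i j k l => ?_⟩
  refine ((hS.2 a b i j k l).add (hT.2 a b i j k l)).congr (fun _ => rfl) fun U => ?_
  split_ifs <;> simp <;> abel

theorem TenM22.neg {T : Fin n → Fin n → Fin n → Fin n → UG n → Matrix p q ℂ}
    (hT : TenM22 D T) : TenM22 D (fun i j k l U => - T i j k l U) := by
  refine ⟨fun i j k l => (hT.1 i j k l).neg, fun a b i j k l => ?_⟩
  refine ((hT.2 a b i j k l).neg).congr (fun _ => rfl) fun U => ?_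
  split_ifs <;> simp <;> abel

theorem TenM22.sub {S T : Fin n → Fin n → Fin n → Fin n → UG n → Matrix p q ℂ}
    (hS : TenM22 D S) (hT : TenM22 D T) : TenM22 D (fun i j k l U => S i j k l U - T i j k l U) := by
  simp only [sub_eq_add_neg]
  exact hS.add hT.neg

theorem TenM22.smul {T : Fin n → Fin n → Fin n → Fin n → UG n → Matrix p q ℂ} (c : ℂ)
    (hT : TenM22 D T) : TenM22 D (fun i j k l U => c • T i j k l U) := by
  refine ⟨fun i j k l => (hT.1 i j k l).smul c, fun a b i j k l => ?_⟩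
  refine ((hT.2 a b i j k l).smul c).congr (fun _ => rfl) fun U => ?_
  split_ifs <;> simp [smul_add, smul_sub]

/-! ### Hilbert-Schmidt forms of the formulas -/

section HSforms

variable [Fintype p] [Fintype q]

theorem Av_hs (δ : Design n D) (F : UG n → Matrix p q ℂ) :
    Av δ (fun U => hs (F U)) = ∑ x, ∑ y, Av δ (fun U => ‖F U x y‖ ^ 2) := by
  unfold hs
  rw [Av_sum]
  refine Finset.sum_congr rfl fun x _ => ?_
  rw [Av_sum]

theorem sum_comm22 {α β γ ε M : Type*} [AddCommMonoid M] [Fintype α] [Fintype β] [Fintype γ]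
    [Fintype ε] (f : α → β → γ → ε → M) :
    ∑ x, ∑ y, ∑ a, ∑ c, f x y a c = ∑ a, ∑ c, ∑ x, ∑ y, f x y a c := by
  have h1 : ∀ x, ∑ y, ∑ a, ∑ c, f x y a c = ∑ a, ∑ y, ∑ c, f x y a c := fun x =>
    Finset.sum_comm
  rw [Finset.sum_congr rfl fun x _ => h1 x, Finset.sum_comm]
  refine Finset.sum_congr rfl fun a _ => ?_
  have h2 : ∀ x, ∑ y, ∑ c, f x y a c = ∑ c, ∑ y, f x y a c := fun x => Finset.sum_comm
  rw [Finset.sum_congr rfl fun x _ => h2 x, Finset.sum_comm]

theorem sum_comm24 {α β M : Type*} [AddCommMonoid M] [Fintype α] [Fintype β]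
    (f : α → β → Fin n → Fin n → Fin n → Fin n → M) :
    ∑ x, ∑ y, ∑ i, ∑ j, ∑ k, ∑ l, f x y i j k l = ∑ i, ∑ j, ∑ k, ∑ l, ∑ x, ∑ y, f x y i j k l := by
  rw [sum_comm22 (fun x y i j => ∑ k, ∑ l, f x y i j k l)]
  refine Finset.sum_congr rfl fun i _ => Finset.sum_congr rfl fun j _ => ?_
  rw [sum_comm22 (fun x y k l => f x y i j k l)]

theorem sum_comm23 {α β M : Type*} [AddCommMonoid M] [Fintype α] [Fintype β]
    (f : α → β → Fin n → Fin n → Fin n → M) :
    ∑ x, ∑ y, ∑ i, ∑ j, ∑ k, f x y i j k = ∑ i, ∑ j, ∑ k, ∑ x, ∑ y, f x y i j k := by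
  rw [sum_comm22 (fun x y i j => ∑ k, f x y i j k)]
  refine Finset.sum_congr rfl fun i _ => Finset.sum_congr rfl fun j _ => ?_
  have h1 : ∀ x, ∑ y, ∑ k, f x y i j k = ∑ k, ∑ y, f x y i j k := fun x => Finset.sum_comm
  rw [Finset.sum_congr rfl fun x _ => h1 x, Finset.sum_comm]

theorem sum_comm21 {α β M : Type*} [AddCommMonoid M] [Fintype α] [Fintype β]
    (f : α → β → Fin n → M) :
    ∑ x, ∑ y, ∑ i, f x y i = ∑ i, ∑ x, ∑ y, f x y i := by
  have h1 : ∀ x, ∑ y, ∑ k, f x y k = ∑ k, ∑ y, f x y k := fun x => Finset.sum_comm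
  rw [Finset.sum_congr rfl fun x _ => h1 x, Finset.sum_comm]

theorem Av_sum2 {α β M : Type*} [AddCommGroup M] [Module ℝ M] [Fintype α] [Fintype β]
    (δ : Design n D) (f : α → β → UG n → M) :
    ∑ x, ∑ y, Av δ (f x y) = Av δ (fun U => ∑ x, ∑ y, f x y U) := by
  rw [Av_sum]
  exact Finset.sum_congr rfl fun x _ => (Av_sum δ _ _).symm

/-- **Antisymmetric fields, Hilbert-Schmidt form.** -/
theorem Av_G22_hs {G : Fin n → Fin n → Fin n → Fin n → UG n → Matrix p q ℂ}
    (δ : Design n ((1 + D) + (1 + D))) (hG : TenM22 D G)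
    (hs1 : ∀ i j k l, G i j k l = G j i k l) (hs2 : ∀ i j k l, G i j k l = fun U => - G i j l k U) :
    ((n : ℝ) + 1) * ((n : ℝ) + 2) * ∑ a, ∑ c, Av δ (fun U => hs (G a c a c U)) =
      Av δ (fun U => ∑ i, ∑ j, ∑ k, ∑ l, hs (G j i k l U)) +
      2 * Av δ (fun U => ∑ i, ∑ l, hs (∑ k, G i k k l U)) := by
  have h : ∀ x y, ((n : ℝ) + 1) * ((n : ℝ) + 2) * ∑ a, ∑ c, Av δ (fun U => ‖G a c a c U x y‖ ^ 2) =
      Av δ (fun U => ∑ i, ∑ j, ∑ k, ∑ l, ‖G j i k l U x y‖ ^ 2) +
      2 * Av δ (fun U => ∑ i, ∑ l, ‖∑ k, G i k k l U x y‖ ^ 2) := by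
    intro x y
    have hf := hG.entry x y
    have k1 : ∀ i j k l, (fun U => G i j k l U x y) = fun U => G j i k l U x y := by
      intro i j k l
      rw [hs1 i j k l]
    have k2 : ∀ i j k l, (fun U => G i j k l U x y) = fun U => - G i j l k U x y := by
      intro i j k l
      rw [hs2 i j k l]
      rfl
    have h' := Av_G22_norm δ hf k1 k2
    exact h'
  have h2 : ∑ x, ∑ y, (((n : ℝ) + 1) * ((n : ℝ) + 2) *
      ∑ a, ∑ c, Av δ (fun U => ‖G a c a c U x y‖ ^ 2)) =
      ∑ x, ∑ y, (Av δ (fun U => ∑ i, ∑ j, ∑ k, ∑ l, ‖G j i k l U x y‖ ^ 2) +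
      2 * Av δ (fun U => ∑ i, ∑ l, ‖∑ k, G i k k l U x y‖ ^ 2)) :=
    Finset.sum_congr rfl fun x _ => Finset.sum_congr rfl fun y _ => h x y
  simp only [← Finset.mul_sum, Finset.sum_add_distrib] at h2
  rw [sum_comm22, Av_sum2, Av_sum2] at h2
  simp only [Av_hs]
  have e1 : Av δ (fun U => ∑ i, ∑ j, ∑ k, ∑ l, hs (G j i k l U)) =
      Av δ (fun U => ∑ x, ∑ y, ∑ i, ∑ j, ∑ k, ∑ l, ‖G j i k l U x y‖ ^ 2) := by
    refine Av_congr δ fun U => ?_
    rw [sum_comm24 (fun x y i j k l => ‖G j i k l U x y‖ ^ 2)]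
    rfl
  have e2 : Av δ (fun U => ∑ i, ∑ l, hs (∑ k, G i k k l U)) =
      Av δ (fun U => ∑ x, ∑ y, ∑ i, ∑ l, ‖∑ k, G i k k l U x y‖ ^ 2) := by
    refine Av_congr δ fun U => ?_
    rw [sum_comm22 (fun x y i l => ‖∑ k, G i k k l U x y‖ ^ 2)]
    refine Finset.sum_congr rfl fun i _ => Finset.sum_congr rfl fun l _ => ?_
    unfold hs
    refine Finset.sum_congr rfl fun x _ => Finset.sum_congr rfl fun y _ => ?_
    rw [Matrix.sum_apply]
  rw [e1, e2]
  exact h2

/-- **Bilinear form.** -/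
theorem Av_G22_trace {G : Fin n → Fin n → Fin n → Fin n → UG n → Matrix p p ℂ}
    (δ : Design n (D + D)) (hG : TenM22 D G)
    (hs1 : ∀ i j k l, G i j k l = G j i k l) (hs2 : ∀ i j k l, G i j k l = fun U => - G i j l k U) :
    (n : ℂ) * ((n : ℂ) + 1) * ∑ a, ∑ b, Av δ (fun U => (G a b a b U * G a b a b U).trace) =
      2 * Av δ (fun U => ∑ i, ∑ j, ((∑ c, G c i c j U) * (∑ c, G c j c i U)).trace) := by
  have h : ∀ x y, (n : ℂ) * ((n : ℂ) + 1) * ∑ a, ∑ b, Av δ (fun U => G a b a b U x y *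
      G a b a b U y x) = 2 * Av δ (fun U => ∑ i, ∑ j, (∑ c, G c i c j U x y) *
      (∑ c, G c j c i U y x)) := by
    intro x y
    have hf := hG.entry x y
    have hf' := hG.entry y x
    have k1 : ∀ x y, ∀ i j k l, (fun U => G i j k l U x y) = fun U => G j i k l U x y := by
      intro x y i j k l
      rw [hs1 i j k l]
    have k2 : ∀ x y, ∀ i j k l, (fun U => G i j k l U x y) = fun U => - G i j l k U x y := by
      intro x y i j k l
      rw [hs2 i j k l]
      rfl
    have h' := Av_G22_bil δ hf hf' (k1 x y) (k2 x y) (k1 y x) (k2 y x)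
    exact h'
  have h2 : ∑ x, ∑ y, ((n : ℂ) * ((n : ℂ) + 1) * ∑ a, ∑ b, Av δ (fun U => G a b a b U x y *
      G a b a b U y x)) = ∑ x, ∑ y, (2 * Av δ (fun U => ∑ i, ∑ j, (∑ c, G c i c j U x y) *
      (∑ c, G c j c i U y x))) :=
    Finset.sum_congr rfl fun x _ => Finset.sum_congr rfl fun y _ => h x y
  simp only [← Finset.mul_sum] at h2
  have e1 : ∑ a, ∑ b, Av δ (fun U => (G a b a b U * G a b a b U).trace) =
      ∑ x, ∑ y, ∑ a, ∑ b, Av δ (fun U => G a b a b U x y * G a b a b U y x) := by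
    rw [sum_comm22 (fun x y a b => Av δ (fun U => G a b a b U x y * G a b a b U y x))]
    refine Finset.sum_congr rfl fun a _ => Finset.sum_congr rfl fun b _ => ?_
    rw [Av_sum2]
    exact Av_congr δ fun U => trace_mul_self _
  have e2 : Av δ (fun U => ∑ i, ∑ j, ((∑ c, G c i c j U) * (∑ c, G c j c i U)).trace) =
      ∑ x, ∑ y, Av δ (fun U => ∑ i, ∑ j, (∑ c, G c i c j U x y) * (∑ c, G c j c i U y x)) := by
    rw [Av_sum2]
    refine Av_congr δ fun U => ?_
    rw [sum_comm22 (fun x y i j => (∑ c, G c i c j U x y) * (∑ c, G c j c i U y x))]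
    refine Finset.sum_congr rfl fun i _ => Finset.sum_congr rfl fun j _ => ?_
    unfold Matrix.trace
    refine Finset.sum_congr rfl fun x _ => ?_
    rw [Matrix.diag_apply, Matrix.mul_apply]
    refine Finset.sum_congr rfl fun y _ => ?_
    rw [Matrix.sum_apply, Matrix.sum_apply]
  rw [e1, e2]
  exact h2

end HSforms

end Pool.Agent.H92U
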