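import Pool.Agent.Lib.H92U.U10

/-! # H92U/U11: Hilbert-Schmidt forms of the total norm formulas; the tensors of an instrument -/

namespace Pool.Agent.H92U

open Matrix

variable {n D D' : ℕ} {p q : Type*} [Fintype p] [Fintype q]

/-- Total norm of a (2,1) field, Hilbert-Schmidt form. -/
theorem Av_T21_total_hs (δ : Design n (D + D)) {T : Fin n → Fin n → Fin n → UG n → Matrix p q ℂ}
    (hT : TenM21 D T) (hs1 : ∀ i j k, T i j k = T j i k) :
    ((n : ℝ) + 1) * ((n : ℝ) + 2) * ∑ a, Av δ (fun U => hs (T a a a U)) =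
      2 * Av δ (fun U => ∑ i, ∑ j, ∑ k, hs (T j i k U)) +
      4 * Av δ (fun U => ∑ a, hs (∑ k, T a k k U)) := by
  have h : ∀ x y, ((n : ℝ) + 1) * ((n : ℝ) + 2) * ∑ a, Av δ (fun U => ‖T a a a U x y‖ ^ 2) =
      2 * Av δ (fun U => ∑ i, ∑ j, ∑ k, ‖T j i k U x y‖ ^ 2) +
      4 * Av δ (fun U => ∑ a, ‖∑ k, T a k k U x y‖ ^ 2) := by
    intro x y
    have hf := hT.entry x y
    have k1 : ∀ i j k, (fun U => T i j k U x y) = fun U => T j i k U x y := by
      intro i j k
      rw [hs1 i j k]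
    have h' := Av_T21_total_real δ hf k1
    exact h'
  have h2 : ∑ x, ∑ y, (((n : ℝ) + 1) * ((n : ℝ) + 2) *
      ∑ a, Av δ (fun U => ‖T a a a U x y‖ ^ 2)) =
      ∑ x, ∑ y, (2 * Av δ (fun U => ∑ i, ∑ j, ∑ k, ‖T j i k U x y‖ ^ 2) +
      4 * Av δ (fun U => ∑ a, ‖∑ k, T a k k U x y‖ ^ 2)) :=
    Finset.sum_congr rfl fun x _ => Finset.sum_congr rfl fun y _ => h x y
  simp only [← Finset.mul_sum, Finset.sum_add_distrib] at h2
  rw [sum_comm21, Av_sum2, Av_sum2] at h2
  simp only [Av_hs]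
  have e1 : Av δ (fun U => ∑ i, ∑ j, ∑ k, hs (T j i k U)) =
      Av δ (fun U => ∑ x, ∑ y, ∑ i, ∑ j, ∑ k, ‖T j i k U x y‖ ^ 2) := by
    refine Av_congr δ fun U => ?_
    rw [sum_comm23 (fun x y i j k => ‖T j i k U x y‖ ^ 2)]
    rfl
  have e2 : Av δ (fun U => ∑ a, hs (∑ k, T a k k U)) =
      Av δ (fun U => ∑ x, ∑ y, ∑ a, ‖∑ k, T a k k U x y‖ ^ 2) := by
    refine Av_congr δ fun U => ?_
    rw [sum_comm21 (fun x y i => ‖∑ k, T i k k U x y‖ ^ 2)]
    refine Finset.sum_congr rfl fun i _ => ?_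
    unfold hs
    refine Finset.sum_congr rfl fun x _ => Finset.sum_congr rfl fun y _ => ?_
    rw [Matrix.sum_apply]
  rw [e1, e2]
  exact h2

/-- Total norm of a symmetric (2,2) field, Hilbert-Schmidt form. -/
theorem Av_T22_total_hs (δ : Design n ((1 + D) + (1 + D)))
    {T : Fin n → Fin n → Fin n → Fin n → UG n → Matrix p q ℂ} (hT : TenM22 D T)
    (hs1 : ∀ i j k l, T i j k l = T j i k l) (hs2 : ∀ i j k l, T i j k l = T i j l k) :
    ((n : ℝ) + 1) * ((n : ℝ) + 2) * ((n : ℝ) + 3) * ∑ a, Av δ (fun U => hs (T a a a a U)) =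
      4 * Av δ (fun U => ∑ i, ∑ j, ∑ k, ∑ l, hs (T j i k l U)) +
      16 * Av δ (fun U => ∑ b, ∑ i, hs (∑ j, T b j i j U)) +
      4 * Av δ (fun U => hs (∑ i, ∑ j, T i j i j U)) := by
  have h : ∀ x y, ((n : ℝ) + 1) * ((n : ℝ) + 2) * ((n : ℝ) + 3) *
      ∑ a, Av δ (fun U => ‖T a a a a U x y‖ ^ 2) =
      4 * Av δ (fun U => ∑ i, ∑ j, ∑ k, ∑ l, ‖T j i k l U x y‖ ^ 2) +
      16 * Av δ (fun U => ∑ b, ∑ i, ‖∑ j, T b j i j U x y‖ ^ 2) +
      4 * Av δ (fun U => ‖∑ i, ∑ j, T i j i j U x y‖ ^ 2) := by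
    intro x y
    have hf := hT.entry x y
    have k1 : ∀ i j k l, (fun U => T i j k l U x y) = fun U => T j i k l U x y := by
      intro i j k l
      rw [hs1 i j k l]
    have k2 : ∀ i j k l, (fun U => T i j k l U x y) = fun U => T i j l k U x y := by
      intro i j k l
      rw [hs2 i j k l]
    have h' := Av_T22_total δ hf k1 k2
    exact h'
  have h2 : ∑ x, ∑ y, (((n : ℝ) + 1) * ((n : ℝ) + 2) * ((n : ℝ) + 3) *
      ∑ a, Av δ (fun U => ‖T a a a a U x y‖ ^ 2)) =
      ∑ x, ∑ y, (4 * Av δ (fun U => ∑ i, ∑ j, ∑ k, ∑ l, ‖T j i k l U x y‖ ^ 2) +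
      16 * Av δ (fun U => ∑ b, ∑ i, ‖∑ j, T b j i j U x y‖ ^ 2) +
      4 * Av δ (fun U => ‖∑ i, ∑ j, T i j i j U x y‖ ^ 2)) :=
    Finset.sum_congr rfl fun x _ => Finset.sum_congr rfl fun y _ => h x y
  simp only [← Finset.mul_sum, Finset.sum_add_distrib] at h2
  rw [sum_comm21, Av_sum2, Av_sum2, Av_sum2] at h2
  simp only [Av_hs]
  have e1 : Av δ (fun U => ∑ i, ∑ j, ∑ k, ∑ l, hs (T j i k l U)) =
      Av δ (fun U => ∑ x, ∑ y, ∑ i, ∑ j, ∑ k, ∑ l, ‖T j i k l U x y‖ ^ 2) := by
    refine Av_congr δ fun U => ?_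
    rw [sum_comm24 (fun x y i j k l => ‖T j i k l U x y‖ ^ 2)]
    rfl
  have e2 : Av δ (fun U => ∑ b, ∑ i, hs (∑ j, T b j i j U)) =
      Av δ (fun U => ∑ x, ∑ y, ∑ b, ∑ i, ‖∑ j, T b j i j U x y‖ ^ 2) := by
    refine Av_congr δ fun U => ?_
    rw [sum_comm22 (fun x y b i => ‖∑ j, T b j i j U x y‖ ^ 2)]
    refine Finset.sum_congr rfl fun i _ => Finset.sum_congr rfl fun l _ => ?_
    unfold hs
    refine Finset.sum_congr rfl fun x _ => Finset.sum_congr rfl fun y _ => ?_
    rw [Matrix.sum_apply]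
  have e3 : ∑ x, ∑ y, Av δ (fun U => ‖(∑ i, ∑ j, T i j i j U) x y‖ ^ 2) =
      Av δ (fun U => ∑ x, ∑ y, ‖∑ i, ∑ j, T i j i j U x y‖ ^ 2) := by
    rw [Av_sum2]
    refine Av_congr δ fun U => ?_
    refine Finset.sum_congr rfl fun x _ => Finset.sum_congr rfl fun y _ => ?_
    rw [Matrix.sum_apply]
    congr 2
    exact Finset.sum_congr rfl fun i _ => Matrix.sum_apply _ _ _ _
  rw [e1, e2, e3]
  exact h2

/-- The gradient inequality, Hilbert-Schmidt form. -/
theorem Av_T22_le_hs (δ : Design n (D + D))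
    {T : Fin n → Fin n → Fin n → Fin n → UG n → Matrix p q ℂ} (hT : TenM22 D T)
    (hs1 : ∀ i j k l, T i j k l = T j i k l) (hs2 : ∀ i j k l, T i j k l = T i j l k)
    (a : Fin n) :
    2 * ∑ b, (if b = a then 0 else Av δ (fun U => hs (T a a a b U))) ≤
      ((n : ℝ) + 1) * Av δ (fun U => hs (T a a a a U)) := by
  have h : ∀ x y, 2 * ∑ b, (if b = a then 0 else Av δ (fun U => ‖T a a a b U x y‖ ^ 2)) ≤
      ((n : ℝ) + 1) * Av δ (fun U => ‖T a a a a U x y‖ ^ 2) := by
    intro x y
    have hf := hT.entry x y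
    have k1 : ∀ i j k l, (fun U => T i j k l U x y) = fun U => T j i k l U x y := by
      intro i j k l
      rw [hs1 i j k l]
    have k2 : ∀ i j k l, (fun U => T i j k l U x y) = fun U => T i j l k U x y := by
      intro i j k l
      rw [hs2 i j k l]
    have h' := Av_T22_le δ hf k1 k2 a
    exact h'
  have h2 : ∑ x, ∑ y, (2 * ∑ b, (if b = a then 0 else Av δ (fun U => ‖T a a a b U x y‖ ^ 2))) ≤
      ∑ x, ∑ y, (((n : ℝ) + 1) * Av δ (fun U => ‖T a a a a U x y‖ ^ 2)) :=
    Finset.sum_le_sum fun x _ => Finset.sum_le_sum fun y _ => h x y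
  simp only [← Finset.mul_sum] at h2
  rw [sum_comm21] at h2
  simp only [Av_hs]
  refine le_trans (le_of_eq ?_) h2
  congr 1
  refine Finset.sum_congr rfl fun b _ => ?_
  by_cases hb : b = a
  · simp [hb]
  · simp [hb]

/-! ### the tensors of an instrument -/

variable (A : Fin n → Matrix p q ℂ)

/-- `C(ij|k)`, the polarisation of `A_x - A_x A_x^* A_x`. -/
noncomputable def cT (i j k : Fin n) (U : UG n) : Matrix p q ℂ :=
  (1 / 2 : ℂ) • ((if j = k then rot U A i else 0) + (if i = k then rot U A j else 0) -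
    rot U A i * (rot U A k)ᴴ * rot U A j - rot U A j * (rot U A k)ᴴ * rot U A i)

/-- `D(ij|kl) = A_l^* C(ij|k)`. -/
noncomputable def dT (i j k l : Fin n) (U : UG n) : Matrix q q ℂ := (rot U A l)ᴴ * cT A i j k U

/-- The symmetric part: the polarisation of `E_x (1 - E_x)`. -/
noncomputable def sT (i j k l : Fin n) (U : UG n) : Matrix q q ℂ :=
  (1 / 2 : ℂ) • (dT A i j k l U + dT A i j l k U)

/-- The antisymmetric part. -/
noncomputable def gT (i j k l : Fin n) (U : UG n) : Matrix q q ℂ :=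
  (1 / 2 : ℂ) • (dT A i j k l U - dT A i j l k U)

theorem cT_symm (i j k : Fin n) : cT A i j k = cT A j i k := by
  funext U
  unfold cT
  congr 1
  abel

theorem TenM21.add {S T : Fin n → Fin n → Fin n → UG n → Matrix p q ℂ}
    (hS : TenM21 D S) (hT : TenM21 D T) : TenM21 D (fun i j k U => S i j k U + T i j k U) := by
  refine ⟨fun i j k => (hS.1 i j k).add (hT.1 i j k), fun a b i j k => ?_⟩
  refine ((hS.2 a b i j k).add (hT.2 a b i j k)).congr (fun _ => rfl) fun U => ?_
  split_ifs <;> simp <;> abel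

theorem TenM21.neg {T : Fin n → Fin n → Fin n → UG n → Matrix p q ℂ}
    (hT : TenM21 D T) : TenM21 D (fun i j k U => - T i j k U) := by
  refine ⟨fun i j k => (hT.1 i j k).neg, fun a b i j k => ?_⟩
  refine ((hT.2 a b i j k).neg).congr (fun _ => rfl) fun U => ?_
  split_ifs <;> simp <;> abel

theorem TenM21.sub {S T : Fin n → Fin n → Fin n → UG n → Matrix p q ℂ}
    (hS : TenM21 D S) (hT : TenM21 D T) : TenM21 D (fun i j k U => S i j k U - T i j k U) := by
  simp only [sub_eq_add_neg]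
  exact hS.add hT.neg

theorem TenM21.smul {T : Fin n → Fin n → Fin n → UG n → Matrix p q ℂ} (c : ℂ)
    (hT : TenM21 D T) : TenM21 D (fun i j k U => c • T i j k U) := by
  refine ⟨fun i j k => (hT.1 i j k).smul c, fun a b i j k => ?_⟩
  refine ((hT.2 a b i j k).smul c).congr (fun _ => rfl) fun U => ?_
  split_ifs <;> simp [smul_add, smul_sub]

theorem TenM21.swap {T : Fin n → Fin n → Fin n → UG n → Matrix p q ℂ}
    (h : TenM21 D T) : TenM21 D (fun i j k => T j i k) := by
  refine ⟨fun i j k => h.1 j i k, fun a b i j k => ?_⟩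
  refine (h.2 a b j i k).congr (fun _ => rfl) fun U => ?_
  abel

theorem metric_ten : TenM21 3 (fun i j k U => if j = k then rot U A i else 0) := by
  constructor
  · intro i j k
    by_cases hc : j = k
    · simp only [hc, if_true]
      exact (PolM.rot A i).mono (by norm_num)
    · simp only [hc, if_false]
      exact PolM.const 0
  · intro a b i j k
    have h2 : HasDM a b (fun U => if j = k then rot U A i else 0)
        (fun U => if j = k then (if i = b then rot U A a else 0) else 0) := by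
      by_cases hc : j = k
      · simp only [hc, if_true]
        exact HasDM.rot A i
      · simp only [hc, if_false]
        exact HasDM.const 0
    refine h2.congr (fun _ => rfl) fun U => ?_
    by_cases hjk : j = k
    · subst hjk
      by_cases hja : j = a
      · subst hja
        by_cases hjb : j = b
        · subst hjb
          simp
        · simp [hjb]
      · have hja' : ¬ (a = j) := fun h => hja h.symm
        simp [hja, hja']
    · by_cases hjb : j = b
      · subst hjb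
        by_cases hka : k = a
        · subst hka
          simp [hjk]
        · have hka' : ¬ (a = k) := fun h => hka h.symm
          simp [hjk, hka, hka']
      · simp [hjk, hjb]

theorem cubic_ten : TenM21 3 (fun i j k U => rot U A i * (rot U A k)ᴴ * rot U A j) := by
  constructor
  · intro i j k
    exact (((PolM.rot A i).mul (PolM.rot A k).conjTranspose).mul (PolM.rot A j)).mono
      (by norm_num)
  · intro a b i j k
    refine (((HasDM.rot (a := a) (b := b) A i).mul (HasDM.rotH A k)).mul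
      (HasDM.rot A j)).congr (fun _ => rfl) fun U => ?_
    split_ifs <;> simp [Matrix.add_mul] <;> abel

theorem cT_ten : TenM21 3 (cT A) := by
  have h := ((((metric_ten A).add (metric_ten A).swap).sub (cubic_ten A)).sub
    (cubic_ten A).swap).smul (1 / 2)
  exact h

theorem dT_ten : TenM22 4 (dT A) := by
  constructor
  · intro i j k l
    exact ((PolM.rot A l).conjTranspose.mul ((cT_ten A).1 i j k)).mono (by norm_num)
  · intro a b i j k l
    refine ((HasDM.rotH A l).mul ((cT_ten A).2 a b i j k)).congr (fun _ => rfl) fun U => ?_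
    unfold dT
    split_ifs <;> simp [Matrix.mul_add, Matrix.mul_sub] <;> abel

theorem sT_ten : TenM22 4 (sT A) := by
  have h := ((dT_ten A).add (dT_ten A).swapAnti).smul (1 / 2)
  exact h

theorem gT_ten : TenM22 4 (gT A) := by
  have h := ((dT_ten A).sub (dT_ten A).swapAnti).smul (1 / 2)
  exact h

theorem dT_symm (i j k l : Fin n) : dT A i j k l = dT A j i k l := by
  funext U
  unfold dT
  rw [cT_symm]

theorem sT_symm1 (i j k l : Fin n) : sT A i j k l = sT A j i k l := by
  funext U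
  unfold sT
  rw [dT_symm A i j k l, dT_symm A i j l k]

theorem sT_symm2 (i j k l : Fin n) : sT A i j k l = sT A i j l k := by
  funext U
  unfold sT
  rw [add_comm]

theorem gT_symm1 (i j k l : Fin n) : gT A i j k l = gT A j i k l := by
  funext U
  unfold gT
  rw [dT_symm A i j k l, dT_symm A i j l k]

theorem gT_symm2 (i j k l : Fin n) : gT A i j k l = fun U => - gT A i j l k U := by
  funext U
  unfold gT
  rw [← smul_neg, neg_sub]

end Pool.Agent.H92U
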