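import Pool.Agent.Lib.H92U.U11

/-! # H92U/U12: the exact commutator identity at a Perron pair -/

namespace Pool.Agent.H92U

open Matrix

variable {n D : ℕ} {p q : Type*} [Fintype p] [Fintype q]

variable (A : Fin n → Matrix p q ℂ)

/-- `F = ∑ A_i A_i^*`. -/
def opF : Matrix p p ℂ := ∑ i, A i * (A i)ᴴ

/-- `P = ∑ A_i^* A_i`. -/
def opP : Matrix q q ℂ := ∑ i, (A i)ᴴ * A i

/-- `t_j = ∑_i C(ij|i) = ((n+1) A_j - F A_j - A_j P)/2`. -/
noncomputable def tvec (j : Fin n) : Matrix p q ℂ :=
  (1 / 2 : ℂ) • (((n : ℂ) + 1) • A j - opF A * A j - A j * opP A)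

omit [Fintype p] in
theorem sum_rot_F (U : UG n) (X : Matrix q q ℂ) :
    ∑ i, rot U A i * X * (rot U A i)ᴴ = ∑ i, A i * X * (A i)ᴴ := by
  refine sum_rot_sesq U A A (fun M N => M * X * Nᴴ) (fun x y z => ?_) (fun x y z => ?_)
    (fun c x y => ?_) fun c x y => ?_
  · simp only [Matrix.add_mul]
  · simp only [Matrix.conjTranspose_add, Matrix.mul_add]
  · simp only [Matrix.smul_mul]
  · simp only [Matrix.conjTranspose_smul, Matrix.mul_smul]

omit [Fintype q] in
theorem sum_rot_P (U : UG n) (Y : Matrix p p ℂ) :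
    ∑ i, (rot U A i)ᴴ * Y * rot U A i = ∑ i, (A i)ᴴ * Y * A i := by
  refine sum_rot_sesq U A A (fun M N => Nᴴ * Y * M) (fun x y z => ?_) (fun x y z => ?_)
    (fun c x y => ?_) fun c x y => ?_
  · simp only [Matrix.mul_add]
  · simp only [Matrix.conjTranspose_add, Matrix.add_mul]
  · simp only [Matrix.mul_smul]
  · simp only [Matrix.conjTranspose_smul, Matrix.smul_mul]

omit [Fintype p] in
theorem rot_F (U : UG n) : ∑ i, rot U A i * (rot U A i)ᴴ = opF A := by
  classical
  have h := sum_rot_F A U 1
  simp only [Matrix.mul_one] at h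
  exact h

omit [Fintype q] in
theorem rot_P (U : UG n) : ∑ i, (rot U A i)ᴴ * rot U A i = opP A := by
  classical
  have h := sum_rot_P A U 1
  simp only [Matrix.mul_one] at h
  exact h

theorem sum_cT (U : UG n) (a : Fin n) : ∑ k, cT A a k k U = rot U (tvec A) a := by
  have h1 : rot U (tvec A) a =
      (1 / 2 : ℂ) • (((n : ℂ) + 1) • rot U A a - opF A * rot U A a - rot U A a * opP A) := by
    unfold rot tvec
    rw [Matrix.mul_sum, Matrix.sum_mul, Finset.smul_sum, ← Finset.sum_sub_distrib,
      ← Finset.sum_sub_distrib, Finset.smul_sum]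
    refine Finset.sum_congr rfl fun j _ => ?_
    rw [Matrix.mul_smul, Matrix.smul_mul]
    module
  rw [h1]
  unfold cT
  rw [← Finset.smul_sum, Finset.sum_sub_distrib, Finset.sum_sub_distrib, Finset.sum_add_distrib]
  congr 1
  have e1 : ∑ k : Fin n, (if k = k then rot U A a else 0) = (n : ℂ) • rot U A a := by
    simp only [if_true, Finset.sum_const, Finset.card_univ, Fintype.card_fin]
    exact (Nat.cast_smul_eq_nsmul ℂ n _).symm
  have e2 : ∑ k, (if a = k then rot U A k else 0) = rot U A a := by
    rw [Finset.sum_ite_eq Finset.univ a]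
    simp
  have e3 : ∑ k, rot U A a * (rot U A k)ᴴ * rot U A k = rot U A a * opP A := by
    rw [← rot_P A U, Matrix.mul_sum]
    exact Finset.sum_congr rfl fun k _ => by rw [Matrix.mul_assoc]
  have e4 : ∑ k, rot U A k * (rot U A k)ᴴ * rot U A a = opF A * rot U A a := by
    rw [← rot_F A U, Matrix.sum_mul]
  rw [e1, e2, e3, e4, add_smul, one_smul]
  abel

/-! ### values of the tensors -/

theorem cT_diag (a : Fin n) (U : UG n) :
    cT A a a a U = rot U A a - rot U A a * (rot U A a)ᴴ * rot U A a := by
  unfold cT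
  simp only [if_true]
  module

theorem sT_diag (a : Fin n) (U : UG n) :
    sT A a a a a U = (rot U A a)ᴴ * rot U A a -
      (rot U A a)ᴴ * rot U A a * ((rot U A a)ᴴ * rot U A a) := by
  unfold sT dT
  rw [cT_diag, Matrix.mul_sub, Matrix.mul_assoc, Matrix.mul_assoc]
  module

theorem comm_eq (a b : Fin n) (U : UG n) :
    (rot U A a)ᴴ * rot U A a * ((rot U A b)ᴴ * rot U A b) -
      (rot U A b)ᴴ * rot U A b * ((rot U A a)ᴴ * rot U A a) =
    (2 : ℂ) • gT A a b a b U - ((2 : ℂ) • gT A a b a b U)ᴴ := by
  by_cases hab : a = b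
  · subst hab
    have h : gT A a a a a U = 0 := by
      unfold gT
      rw [sub_self, smul_zero]
    rw [h]
    simp
  · have hba : ¬ (b = a) := fun h => hab h.symm
    unfold gT dT cT
    simp only [if_true, hab, hba, if_false]
    generalize rot U A a = x
    generalize rot U A b = z
    simp only [Matrix.conjTranspose_smul, Matrix.conjTranspose_sub,
      Matrix.conjTranspose_mul, Matrix.conjTranspose_conjTranspose,
      Matrix.mul_smul, Matrix.mul_sub, smul_sub,
      ← Matrix.mul_assoc, zero_add, add_zero]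
    have hs1 : star (1 / 2 : ℂ) = 1 / 2 := by simp
    have hs2 : star (2 : ℂ) = 2 := by simp
    simp only [hs1, hs2]
    module

theorem mer_eq (a b : Fin n) (U : UG n) :
    (rot U A a)ᴴ * rot U A a - (rot U A b)ᴴ * rot U A b -
      ((rot U A a)ᴴ * rot U A b * ((rot U A b)ᴴ * rot U A a) -
        (rot U A b)ᴴ * rot U A a * ((rot U A a)ᴴ * rot U A b)) =
    - ((2 : ℂ) • gT A a b a b U + ((2 : ℂ) • gT A a b a b U)ᴴ) := by
  by_cases hab : a = b
  · subst hab
    have h : gT A a a a a U = 0 := by
      unfold gT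
      rw [sub_self, smul_zero]
    rw [h]
    simp
  · have hba : ¬ (b = a) := fun h => hab h.symm
    unfold gT dT cT
    simp only [if_true, hab, hba, if_false]
    generalize rot U A a = x
    generalize rot U A b = z
    simp only [Matrix.conjTranspose_smul, Matrix.conjTranspose_sub,
      Matrix.conjTranspose_mul, Matrix.conjTranspose_conjTranspose,
      Matrix.mul_smul, Matrix.mul_sub, smul_sub,
      ← Matrix.mul_assoc, zero_add, add_zero]
    have hs1 : star (1 / 2 : ℂ) = 1 / 2 := by simp
    have hs2 : star (2 : ℂ) = 2 := by simp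
    simp only [hs1, hs2]
    module

/-- `S(ij|kl)^* = S(kl|ij)`. -/
theorem sT_star (i j k l : Fin n) (U : UG n) : (sT A i j k l U)ᴴ = sT A k l i j U := by
  unfold sT dT cT
  have e1 : (if l = i then rot U A k else 0) = if i = l then rot U A k else 0 := by
    simp only [eq_comm]
  have e2 : (if k = i then rot U A l else 0) = if i = k then rot U A l else 0 := by
    simp only [eq_comm]
  have e3 : (if l = j then rot U A k else 0) = if j = l then rot U A k else 0 := by
    simp only [eq_comm]
  have e4 : (if k = j then rot U A l else 0) = if j = k then rot U A l else 0 := by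
    simp only [eq_comm]
  rw [e1, e2, e3, e4]
  generalize rot U A i = a
  generalize rot U A j = b
  generalize rot U A k = c
  generalize rot U A l = d
  have hs1 : star (1 / 2 : ℂ) = 1 / 2 := by simp
  (by_cases h1 : j = k <;> [simp only [if_pos h1]; simp only [if_neg h1]]) <;>
    (by_cases h2 : i = k <;> [simp only [if_pos h2]; simp only [if_neg h2]]) <;>
    (by_cases h3 : j = l <;> [simp only [if_pos h3]; simp only [if_neg h3]]) <;>
    (by_cases h4 : i = l <;> [simp only [if_pos h4]; simp only [if_neg h4]]) <;>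
    simp only [Matrix.conjTranspose_smul,
      Matrix.conjTranspose_sub, Matrix.conjTranspose_add,
      Matrix.conjTranspose_mul, Matrix.conjTranspose_conjTranspose, Matrix.conjTranspose_zero,
      Matrix.mul_smul, Matrix.mul_sub, Matrix.mul_add, smul_sub, smul_add, Matrix.mul_zero,
      ← Matrix.mul_assoc, zero_add, add_zero, hs1] <;> module

end Pool.Agent.H92U
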