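import Pool.Agent.Lib.H92U.U12

/-! # H92U/U13: the exact commutator identity at a Perron pair -/

namespace Pool.Agent.H92U

open Matrix

variable {n D : ℕ} {p q : Type*} [Fintype p] [Fintype q]

/-- `∑ A_j X A_j^* = lam X'`, `X = S^2`, `X' = S'^2`. -/
structure Perron (A : Fin n → Matrix p q ℂ) (S : Matrix q q ℂ) (S' : Matrix p p ℂ) (lam : ℝ) :
    Prop where
  hS : Sᴴ = S
  hS' : S'ᴴ = S'
  h1 : ∑ j, A j * (S * S) * (A j)ᴴ = (lam : ℂ) • (S' * S')

variable {A : Fin n → Matrix p q ℂ} {S : Matrix q q ℂ} {S' : Matrix p p ℂ} {lam : ℝ}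

/-- `∑_l |A_l^* Y|_XX^2 = lam |Y|_*^2`. -/
theorem Perron.sumL (h : Perron A S S' lam) (U : UG n) (Y : Matrix p q ℂ) :
    ∑ l, hs (S * ((rot U A l)ᴴ * Y) * S) = lam * hs (S' * Y * S) := by
  have e : ∀ M : Matrix p q ℂ, ((hs (S * (Mᴴ * Y) * S) : ℝ) : ℂ) =
      (Y * (S * S) * Yᴴ * (M * (S * S) * Mᴴ)).trace := by
    intro M
    rw [hs_trace]
    have e1 : (S * (Mᴴ * Y) * S)ᴴ = S * (Yᴴ * M) * S := by
      rw [Matrix.conjTranspose_mul, Matrix.conjTranspose_mul, Matrix.conjTranspose_mul,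
        Matrix.conjTranspose_conjTranspose, h.hS]
      simp only [Matrix.mul_assoc]
    rw [e1]
    have e2 : S * (Mᴴ * Y) * S * (S * (Yᴴ * M) * S) =
        (S * Mᴴ) * (Y * (S * S) * Yᴴ * (M * S)) := by
      simp only [Matrix.mul_assoc]
    rw [e2, Matrix.trace_mul_comm]
    congr 1
    simp only [Matrix.mul_assoc]
  have e3 : ((hs (S' * Y * S) : ℝ) : ℂ) = (Y * (S * S) * Yᴴ * (S' * S')).trace := by
    rw [hs_trace]
    have e1 : (S' * Y * S)ᴴ = S * Yᴴ * S' := by
      rw [Matrix.conjTranspose_mul, Matrix.conjTranspose_mul, h.hS, h.hS', Matrix.mul_assoc]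
    rw [e1]
    have e2 : S' * Y * S * (S * Yᴴ * S') = S' * (Y * (S * S) * Yᴴ * S') := by
      simp only [Matrix.mul_assoc]
    rw [e2, Matrix.trace_mul_comm]
    congr 1
    simp only [Matrix.mul_assoc]
  apply Complex.ofReal_injective
  rw [Complex.ofReal_sum, Finset.sum_congr rfl fun l _ => e (rot U A l), ← Matrix.trace_sum,
    ← Matrix.mul_sum, sum_rot_F, h.h1, Matrix.mul_smul, Matrix.trace_smul, Complex.ofReal_mul, e3,
    smul_eq_mul]

/-- The contracted symmetric tensor in the frame. -/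
noncomputable def s1 (A : Fin n → Matrix p q ℂ) (i l : Fin n) (U : UG n) : Matrix q q ℂ :=
  ∑ k, sT A i k k l U

theorem gT_contr (i l : Fin n) (U : UG n) :
    ∑ k, gT A i k k l U = (rot U A l)ᴴ * rot U (tvec A) i - s1 A i l U := by
  rw [← sum_cT, Matrix.mul_sum]
  unfold s1
  rw [← Finset.sum_sub_distrib]
  refine Finset.sum_congr rfl fun k _ => ?_
  unfold gT sT dT
  module

theorem s1_star (i l : Fin n) (U : UG n) : (s1 A i l U)ᴴ = s1 A l i U := by
  unfold s1
  rw [Matrix.conjTranspose_sum]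
  refine Finset.sum_congr rfl fun k _ => ?_
  rw [sT_star, sT_symm1, sT_symm2]

/-- The norm of the symmetric tensor. -/
noncomputable def N4 (A : Fin n → Matrix p q ℂ) (S : Matrix q q ℂ) (U : UG n) : ℝ :=
  ∑ i, ∑ j, ∑ k, ∑ l, hs (S * sT A j i k l U * S)

/-- The norm of the contracted antisymmetric tensor. -/
noncomputable def N1G (A : Fin n → Matrix p q ℂ) (S : Matrix q q ℂ) (U : UG n) : ℝ :=
  ∑ i, ∑ l, hs (S * ((rot U A l)ᴴ * rot U (tvec A) i - s1 A i l U) * S)

/-- `∑ |t_j|_*^2`. -/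
noncomputable def T2 (A : Fin n → Matrix p q ℂ) (S : Matrix q q ℂ) (S' : Matrix p p ℂ) : ℝ :=
  ∑ j, hs (S' * tvec A j * S)

/-- `Z = ∑ t_j X A_j^*`. -/
noncomputable def Zop (A : Fin n → Matrix p q ℂ) (S : Matrix q q ℂ) : Matrix p p ℂ :=
  ∑ j, tvec A j * (S * S) * (A j)ᴴ

theorem T2_frame (U : UG n) : ∑ j, hs (S' * rot U (tvec A) j * S) = T2 A S S' := by
  have h : ∀ (U : UG n), ((∑ j, hs (S' * rot U (tvec A) j * S) : ℝ) : ℂ) =
      (∑ j, S' * tvec A j * S * (S' * tvec A j * S)ᴴ).trace := by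
    intro U
    have h2 := sum_rot_sesq U (tvec A) (tvec A) (fun M N => S' * M * S * (S' * N * S)ᴴ)
      (fun x y z => by simp only [Matrix.mul_add, Matrix.add_mul])
      (fun x y z => by simp only [Matrix.mul_add, Matrix.add_mul, Matrix.conjTranspose_add])
      (fun c x y => by simp only [Matrix.mul_smul, Matrix.smul_mul])
      (fun c x y => by simp only [Matrix.mul_smul, Matrix.smul_mul, Matrix.conjTranspose_smul])
    rw [← h2, Matrix.trace_sum, Complex.ofReal_sum]
    exact Finset.sum_congr rfl fun j _ => hs_trace _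
  have h1 : ((T2 A S S' : ℝ) : ℂ) = (∑ j, S' * tvec A j * S * (S' * tvec A j * S)ᴴ).trace := by
    unfold T2
    rw [Matrix.trace_sum, Complex.ofReal_sum]
    exact Finset.sum_congr rfl fun j _ => hs_trace _
  apply Complex.ofReal_injective
  rw [h U, h1]

theorem Z_frame (U : UG n) :
    ∑ j, rot U (tvec A) j * (S * S) * (rot U A j)ᴴ = Zop A S := by
  refine sum_rot_sesq U (tvec A) A (fun M N => M * (S * S) * Nᴴ) (fun x y z => ?_)
    (fun x y z => ?_) (fun c x y => ?_) fun c x y => ?_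
  · simp only [Matrix.add_mul]
  · simp only [Matrix.conjTranspose_add, Matrix.mul_add]
  · simp only [Matrix.smul_mul]
  · simp only [Matrix.conjTranspose_smul, Matrix.mul_smul]

/-- `Re β = N1G - lam T2 + Re tr Z^2`. -/
theorem beta_eq (h : Perron A S S' lam) (U : UG n) :
    ((∑ i, ∑ j, ((S * ((rot U A j)ᴴ * rot U (tvec A) i - s1 A i j U) * S) *
      (S * ((rot U A i)ᴴ * rot U (tvec A) j - s1 A j i U) * S)).trace)).re =
    N1G A S U - lam * T2 A S S' + ((Zop A S * Zop A S).trace).re := by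
  set w : Fin n → Fin n → Matrix q q ℂ := fun i j => S * ((rot U A j)ᴴ * rot U (tvec A) i) * S with hw
  set z : Fin n → Fin n → Matrix q q ℂ := fun i j => S * s1 A i j U * S with hz
  have hzs : ∀ i j, (z i j)ᴴ = z j i := by
    intro i j
    simp only [hz]
    rw [Matrix.conjTranspose_mul, Matrix.conjTranspose_mul, h.hS, s1_star, Matrix.mul_assoc]
  have e0 : ∀ i j, S * ((rot U A j)ᴴ * rot U (tvec A) i - s1 A i j U) * S = w i j - z i j := by
    intro i j
    simp only [hw, hz]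
    rw [Matrix.mul_sub, Matrix.sub_mul]
  have eN : ((N1G A S U : ℝ) : ℂ) = ∑ i, ∑ j, ((w i j - z i j) * (w i j - z i j)ᴴ).trace := by
    unfold N1G
    rw [Complex.ofReal_sum]
    refine Finset.sum_congr rfl fun i _ => ?_
    rw [Complex.ofReal_sum]
    exact Finset.sum_congr rfl fun j _ => by rw [hs_trace, e0]
  have ew : ((lam * T2 A S S' : ℝ) : ℂ) = ∑ i, ∑ j, (w i j * (w i j)ᴴ).trace := by
    rw [← T2_frame U, Finset.mul_sum, Complex.ofReal_sum]
    refine Finset.sum_congr rfl fun i _ => ?_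
    rw [← h.sumL U, Complex.ofReal_sum]
    exact Finset.sum_congr rfl fun j _ => by rw [hs_trace]
  have eZ : (Zop A S * Zop A S).trace = ∑ i, ∑ j, (w i j * w j i).trace := by
    rw [← Z_frame U, Matrix.mul_sum, Matrix.trace_sum]
    refine Finset.sum_congr rfl fun i _ => ?_
    rw [Matrix.sum_mul, Matrix.trace_sum]
    refine Finset.sum_congr rfl fun j _ => ?_
    simp only [hw]
    have e1 : S * ((rot U A j)ᴴ * rot U (tvec A) i) * S * (S * ((rot U A i)ᴴ *
        rot U (tvec A) j) * S) = (S * (rot U A j)ᴴ) * (rot U (tvec A) i * (S * S) * (rot U A i)ᴴ *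
        (rot U (tvec A) j * S)) := by
      simp only [Matrix.mul_assoc]
    rw [e1, Matrix.trace_mul_comm (S * (rot U A j)ᴴ)]
    have e2 : rot U (tvec A) i * (S * S) * (rot U A i)ᴴ * (rot U (tvec A) j * S) *
        (S * (rot U A j)ᴴ) = (rot U (tvec A) i * (S * S) * (rot U A i)ᴴ) *
        (rot U (tvec A) j * (S * S) * (rot U A j)ᴴ) := by
      simp only [Matrix.mul_assoc]
    rw [e2, Matrix.trace_mul_comm]
  have hr : ∀ M : Matrix q q ℂ, (Mᴴ).trace.re = M.trace.re := by
    intro M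
    rw [Matrix.trace_conjTranspose, Complex.star_def, Complex.conj_re]
  have key : ∀ i j, ((w i j - z i j) * (w j i - z j i)).trace.re =
      ((w i j - z i j) * (w i j - z i j)ᴴ).trace.re - (w i j * (w i j)ᴴ).trace.re +
      (w i j * w j i).trace.re - (z i j * w j i).trace.re + (z i j * (w i j)ᴴ).trace.re := by
    intro i j
    simp only [Matrix.conjTranspose_sub, hzs, Matrix.mul_sub, Matrix.sub_mul, Matrix.trace_sub,
      Complex.sub_re]
    ring
  have hswap : ∑ i, ∑ j, (z i j * w j i).trace.re = ∑ i, ∑ j, (z i j * (w i j)ᴴ).trace.re := by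
    rw [Finset.sum_comm]
    refine Finset.sum_congr rfl fun i _ => Finset.sum_congr rfl fun j _ => ?_
    rw [← hr (z j i * w i j), Matrix.conjTranspose_mul, hzs, Matrix.trace_mul_comm]
  have eN' : N1G A S U = ∑ i, ∑ j, ((w i j - z i j) * (w i j - z i j)ᴴ).trace.re := by
    have := congrArg Complex.re eN
    simp only [Complex.ofReal_re, Complex.re_sum] at this
    exact this
  have ew' : lam * T2 A S S' = ∑ i, ∑ j, (w i j * (w i j)ᴴ).trace.re := by
    have := congrArg Complex.re ew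
    simp only [Complex.ofReal_re, Complex.re_sum] at this
    exact this
  have eZ' : ((Zop A S * Zop A S).trace).re = ∑ i, ∑ j, (w i j * w j i).trace.re := by
    rw [eZ]
    simp only [Complex.re_sum]
  simp only [e0, Complex.re_sum]
  rw [eN', ew', eZ']
  simp only [key, Finset.sum_add_distrib, Finset.sum_sub_distrib]
  rw [hswap]
  ring

end Pool.Agent.H92U
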