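import Pool.Agent.Lib.H92U.U13

/-! # H92U/U14: the exact commutator identity at a Perron pair, averaged -/

namespace Pool.Agent.H92U

open Matrix

variable {n D D' : ℕ} {p q : Type*} [Fintype p] [Fintype q]

/-- The same average, regarded as a design of lower degree. -/
def Design.lower (δ : Design n D) (h : D' ≤ D) : Design n D' where
  m := δ.m
  w := δ.w
  u := δ.u
  nonneg := δ.nonneg
  sum_one := δ.sum_one
  right := fun f hf V => δ.right f (hf.mono h) V
  left := fun f hf V => δ.left f (hf.mono h) V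

theorem Av_lower {M : Type*} [AddCommGroup M] [Module ℝ M] (δ : Design n D) (h : D' ≤ D)
    (f : UG n → M) : Av (δ.lower h) f = Av δ f := rfl

theorem TenM21.mono {T : Fin n → Fin n → Fin n → UG n → Matrix p q ℂ} (h : D ≤ D')
    (hT : TenM21 D T) : TenM21 D' T :=
  ⟨fun i j k => (hT.1 i j k).mono h, hT.2⟩

theorem TenM22.mono {T : Fin n → Fin n → Fin n → Fin n → UG n → Matrix p q ℂ} (h : D ≤ D')
    (hT : TenM22 D T) : TenM22 D' T :=
  ⟨fun i j k l => (hT.1 i j k l).mono h, hT.2⟩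

variable {A : Fin n → Matrix p q ℂ} {S : Matrix q q ℂ} {S' : Matrix p p ℂ} {lam : ℝ}

theorem hs_half (M N : Matrix q q ℂ) :
    hs (S * ((1 / 2 : ℂ) • (M + N)) * S) + hs (S * ((1 / 2 : ℂ) • (M - N)) * S) =
      (1 / 2) * hs (S * M * S) + (1 / 2) * hs (S * N * S) := by
  have e1 : S * ((1 / 2 : ℂ) • (M + N)) * S = (1 / 2 : ℂ) • (S * M * S + S * N * S) := by
    rw [Matrix.mul_smul, Matrix.smul_mul, Matrix.mul_add, Matrix.add_mul]
  have e2 : S * ((1 / 2 : ℂ) • (M - N)) * S = (1 / 2 : ℂ) • (S * M * S - S * N * S) := by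
    rw [Matrix.mul_smul, Matrix.smul_mul, Matrix.mul_sub, Matrix.sub_mul]
  rw [e1, e2, hs_smul, hs_smul]
  have h := hs_par (S * M * S) (S * N * S)
  have hn : ‖(1 / 2 : ℂ)‖ ^ 2 = 1 / 4 := by
    rw [norm_div, norm_one, Complex.norm_ofNat]
    norm_num
  rw [hn]
  linarith

theorem N4G_eq (h : Perron A S S' lam) (U : UG n) :
    ∑ i, ∑ j, ∑ k, ∑ l, hs (S * gT A j i k l U * S) =
      lam * ∑ i, ∑ j, ∑ k, hs (S' * cT A j i k U * S) - N4 A S U := by
  have key : ∀ i j, ∑ k, ∑ l, hs (S * gT A j i k l U * S) +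
      ∑ k, ∑ l, hs (S * sT A j i k l U * S) = lam * ∑ k, hs (S' * cT A j i k U * S) := by
    intro i j
    have h1 : ∀ k l, hs (S * gT A j i k l U * S) + hs (S * sT A j i k l U * S) =
        (1 / 2) * hs (S * dT A j i k l U * S) + (1 / 2) * hs (S * dT A j i l k U * S) := by
      intro k l
      rw [add_comm]
      exact hs_half _ _
    have h2 : ∀ k, ∑ l, hs (S * dT A j i k l U * S) = lam * hs (S' * cT A j i k U * S) :=
      fun k => h.sumL U _
    rw [← Finset.sum_add_distrib, Finset.mul_sum]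
    have h3 : ∑ k, (∑ l, hs (S * gT A j i k l U * S) + ∑ l, hs (S * sT A j i k l U * S)) =
        ∑ k, ∑ l, ((1 / 2) * hs (S * dT A j i k l U * S) +
          (1 / 2) * hs (S * dT A j i l k U * S)) := by
      refine Finset.sum_congr rfl fun k _ => ?_
      rw [← Finset.sum_add_distrib]
      exact Finset.sum_congr rfl fun l _ => h1 k l
    rw [h3]
    simp only [Finset.sum_add_distrib, ← Finset.mul_sum]
    rw [Finset.sum_comm (f := fun k l => hs (S * dT A j i l k U * S))]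
    simp only [h2, ← Finset.mul_sum]
    ring
  have h4 : ∑ i, ∑ j, ∑ k, ∑ l, hs (S * gT A j i k l U * S) + N4 A S U =
      lam * ∑ i, ∑ j, ∑ k, hs (S' * cT A j i k U * S) := by
    unfold N4
    rw [← Finset.sum_add_distrib, Finset.mul_sum]
    refine Finset.sum_congr rfl fun i _ => ?_
    rw [← Finset.sum_add_distrib, Finset.mul_sum]
    exact Finset.sum_congr rfl fun j _ => key i j
  linarith

/-- `∑_a Av |f_a|_*^2`, `f_a = A_a - A_a A_a^* A_a`. -/
noncomputable def Rho (δ : Design n D) (A : Fin n → Matrix p q ℂ) (S : Matrix q q ℂ)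
    (S' : Matrix p p ℂ) : ℝ := ∑ a, Av δ (fun U => hs (S' * cT A a a a U * S))

/-- `∑_{a,b} Av |G(ab|ab)|^2`. -/
theorem G_norm (δ : Design n ((1 + D) + (1 + D))) (hD : 4 ≤ D) (h : Perron A S S' lam) :
    ((n : ℝ) + 1) * ((n : ℝ) + 2) * ∑ a, ∑ c, Av δ (fun U => hs (S * gT A a c a c U * S)) =
      lam * (((n : ℝ) + 1) * ((n : ℝ) + 2) / 2 * Rho δ A S S' - 2 * T2 A S S') -
        Av δ (N4 A S) + 2 * Av δ (N1G A S) := by
  have hG : TenM22 D (fun i j k l U => S * gT A i j k l U * S) :=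
    ((gT_ten A).conj S S).mono hD
  have k1 : ∀ i j k l, (fun U => S * gT A i j k l U * S) = fun U => S * gT A j i k l U * S := by
    intro i j k l
    rw [gT_symm1 A i j k l]
  have k2 : ∀ i j k l, (fun U => S * gT A i j k l U * S) =
      fun U => - (S * gT A i j l k U * S) := by
    intro i j k l
    rw [gT_symm2 A i j k l]
    funext U
    rw [Matrix.mul_neg, Matrix.neg_mul]
  have h1 := Av_G22_hs δ hG k1 k2
  have hC : TenM21 (1 + D) (fun i j k U => S' * cT A i j k U * S) :=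
    ((cT_ten A).conj S' S).mono (by omega)
  have k3 : ∀ i j k, (fun U => S' * cT A i j k U * S) = fun U => S' * cT A j i k U * S := by
    intro i j k
    rw [cT_symm A i j k]
  have h2 := Av_T21_total_hs δ hC k3
  have e1 : Av δ (fun U => ∑ i, ∑ j, ∑ k, ∑ l, hs (S * gT A j i k l U * S)) =
      lam * Av δ (fun U => ∑ i, ∑ j, ∑ k, hs (S' * cT A j i k U * S)) - Av δ (N4 A S) := by
    rw [← Av_mul_left_real, ← Av_sub]
    exact Av_congr δ fun U => N4G_eq h U
  have e2 : Av δ (fun U => ∑ i, ∑ l, hs (∑ k, S * gT A i k k l U * S)) = Av δ (N1G A S) := by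
    refine Av_congr δ fun U => ?_
    unfold N1G
    refine Finset.sum_congr rfl fun i _ => Finset.sum_congr rfl fun l _ => ?_
    rw [← gT_contr, Matrix.mul_sum, Matrix.sum_mul]
  have e3 : Av δ (fun U => ∑ a, hs (∑ k, S' * cT A a k k U * S)) = T2 A S S' := by
    rw [← Av_const δ (T2 A S S')]
    refine Av_congr δ fun U => ?_
    rw [← T2_frame U]
    refine Finset.sum_congr rfl fun a _ => ?_
    rw [← sum_cT, Matrix.mul_sum, Matrix.sum_mul]
  rw [e1, e2] at h1
  rw [e3] at h2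
  have h3 : ((n : ℝ) + 1) * ((n : ℝ) + 2) * Rho δ A S S' =
      2 * Av δ (fun U => ∑ i, ∑ j, ∑ k, hs (S' * cT A j i k U * S)) + 4 * T2 A S S' := h2
  linear_combination h1 - (lam / 2) * h3

/-- `Re ∑_{a,b} Av tr (X G X G)`. -/
theorem G_bil (δ : Design n ((1 + D) + (1 + D))) (hD : 4 ≤ D) (h : Perron A S S' lam) :
    (n : ℝ) * ((n : ℝ) + 1) * ∑ a, ∑ b, Av δ (fun U =>
      ((S * gT A a b a b U * S * (S * gT A a b a b U * S)).trace).re) =
      2 * (Av δ (N1G A S) - lam * T2 A S S' + ((Zop A S * Zop A S).trace).re) := by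
  have hG : TenM22 (1 + D) (fun i j k l U => S * gT A i j k l U * S) :=
    ((gT_ten A).conj S S).mono (by omega)
  have k1 : ∀ i j k l, (fun U => S * gT A i j k l U * S) = fun U => S * gT A j i k l U * S := by
    intro i j k l
    rw [gT_symm1 A i j k l]
  have k2 : ∀ i j k l, (fun U => S * gT A i j k l U * S) =
      fun U => - (S * gT A i j l k U * S) := by
    intro i j k l
    rw [gT_symm2 A i j k l]
    funext U
    rw [Matrix.mul_neg, Matrix.neg_mul]
  have h1 := congrArg Complex.re (Av_G22_trace δ hG k1 k2)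
  have e1 : ((n : ℂ) * ((n : ℂ) + 1) * ∑ a, ∑ b, Av δ (fun U =>
      (S * gT A a b a b U * S * (S * gT A a b a b U * S)).trace)).re =
      (n : ℝ) * ((n : ℝ) + 1) * ∑ a, ∑ b, Av δ (fun U =>
      ((S * gT A a b a b U * S * (S * gT A a b a b U * S)).trace).re) := by
    have e2 : (n : ℂ) * ((n : ℂ) + 1) = (((n : ℝ) * ((n : ℝ) + 1) : ℝ) : ℂ) := by push_cast; ring
    rw [e2, Complex.re_ofReal_mul, Complex.re_sum]
    congr 1
    refine Finset.sum_congr rfl fun a _ => ?_
    rw [Complex.re_sum]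
    exact Finset.sum_congr rfl fun b _ => (Av_re δ _).symm
  rw [e1] at h1
  rw [h1]
  have e3 : (2 : ℂ) = ((2 : ℝ) : ℂ) := by norm_num
  rw [e3, Complex.re_ofReal_mul, ← Av_re]
  congr 1
  have e4 : Av δ (fun U => N1G A S U - lam * T2 A S S' + ((Zop A S * Zop A S).trace).re) =
      Av δ (N1G A S) - lam * T2 A S S' + ((Zop A S * Zop A S).trace).re := by
    rw [Av_add, Av_sub, Av_const, Av_const]
  rw [← e4]
  refine Av_congr δ fun U => ?_
  rw [← beta_eq h U]
  congr 1
  refine Finset.sum_congr rfl fun i _ => Finset.sum_congr rfl fun j _ => ?_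
  have e5 : ∀ i j, ∑ c, S * gT A c i c j U * S =
      S * ((rot U A j)ᴴ * rot U (tvec A) i - s1 A i j U) * S := by
    intro i j
    rw [← gT_contr, Matrix.mul_sum, Matrix.sum_mul]
    refine Finset.sum_congr rfl fun c _ => ?_
    rw [gT_symm1 A c i c j]
  rw [e5, e5]

/-- The effects in the frame. -/
def eff (A : Fin n → Matrix p q ℂ) (a : Fin n) (U : UG n) : Matrix q q ℂ :=
  (rot U A a)ᴴ * rot U A a

theorem hs_comm (h : Perron A S S' lam) (a b : Fin n) (U : UG n) :
    hs (S * (eff A a U * eff A b U - eff A b U * eff A a U) * S) =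
      8 * hs (S * gT A a b a b U * S) -
        8 * ((S * gT A a b a b U * S * (S * gT A a b a b U * S)).trace).re := by
  unfold eff
  rw [comm_eq]
  have e1 : S * ((2 : ℂ) • gT A a b a b U - ((2 : ℂ) • gT A a b a b U)ᴴ) * S =
      - (((2 : ℂ) • (S * gT A a b a b U * S))ᴴ - (2 : ℂ) • (S * gT A a b a b U * S)) := by
    rw [Matrix.conjTranspose_smul, Matrix.conjTranspose_smul, Matrix.conjTranspose_mul,
      Matrix.conjTranspose_mul, h.hS, Matrix.mul_sub, Matrix.sub_mul, Matrix.mul_smul,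
      Matrix.smul_mul, Matrix.mul_smul, Matrix.smul_mul, Matrix.mul_assoc, neg_sub,
      Matrix.mul_assoc S (gT A a b a b U)ᴴ S]
  rw [e1, hs_neg, hs_skew, hs_smul, Matrix.smul_mul, Matrix.mul_smul, smul_smul,
    Matrix.trace_smul, smul_eq_mul]
  have e2 : (2 : ℂ) * 2 = ((4 : ℝ) : ℂ) := by norm_num
  have e3 : ‖(2 : ℂ)‖ ^ 2 = 4 := by
    rw [Complex.norm_ofNat]
    norm_num
  rw [e2, Complex.re_ofReal_mul, e3]
  ring

theorem hs_mer (h : Perron A S S' lam) (a b : Fin n) (U : UG n) :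
    hs (S * (eff A a U - eff A b U - ((rot U A a)ᴴ * rot U A b * ((rot U A b)ᴴ * rot U A a) -
        (rot U A b)ᴴ * rot U A a * ((rot U A a)ᴴ * rot U A b))) * S) =
      8 * hs (S * gT A a b a b U * S) +
        8 * ((S * gT A a b a b U * S * (S * gT A a b a b U * S)).trace).re := by
  unfold eff
  rw [mer_eq]
  have e1 : S * (-((2 : ℂ) • gT A a b a b U + ((2 : ℂ) • gT A a b a b U)ᴴ)) * S =
      - (((2 : ℂ) • (S * gT A a b a b U * S))ᴴ + (2 : ℂ) • (S * gT A a b a b U * S)) := by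
    rw [Matrix.conjTranspose_smul, Matrix.conjTranspose_smul, Matrix.conjTranspose_mul,
      Matrix.conjTranspose_mul, h.hS, Matrix.mul_neg, Matrix.neg_mul, Matrix.mul_add,
      Matrix.add_mul, Matrix.mul_smul,
      Matrix.smul_mul, Matrix.mul_smul, Matrix.smul_mul, Matrix.mul_assoc,
      Matrix.mul_assoc S (gT A a b a b U)ᴴ S, add_comm]
  rw [e1, hs_neg, hs_herm, hs_smul, Matrix.smul_mul, Matrix.mul_smul, smul_smul,
    Matrix.trace_smul, smul_eq_mul]
  have e2 : (2 : ℂ) * 2 = ((4 : ℝ) : ℂ) := by norm_num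
  have e3 : ‖(2 : ℂ)‖ ^ 2 = 4 := by
    rw [Complex.norm_ofNat]
    norm_num
  rw [e2, Complex.re_ofReal_mul, e3]
  ring

/-- **The exact commutator identity at a Perron pair.** -/
theorem commutator_identity (δ : Design n ((1 + D) + (1 + D))) (hD : 4 ≤ D) (hn : 0 < n)
    (h : Perron A S S' lam) :
    ∑ a, ∑ b, Av δ (fun U => hs (S * (eff A a U * eff A b U - eff A b U * eff A a U) * S)) =
      4 * lam * Rho δ A S S' - 8 / (((n : ℝ) + 1) * ((n : ℝ) + 2)) * Av δ (N4 A S) -
      32 / ((n : ℝ) * ((n : ℝ) + 1) * ((n : ℝ) + 2)) * (Av δ (N1G A S) - lam * T2 A S S') -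
      16 / ((n : ℝ) * ((n : ℝ) + 1)) * ((Zop A S * Zop A S).trace).re := by
  have h1 := G_norm δ hD h
  have h2 := G_bil δ hD h
  have hn' : (0 : ℝ) < n := Nat.cast_pos.2 hn
  have e : ∑ a, ∑ b, Av δ (fun U => hs (S * (eff A a U * eff A b U - eff A b U * eff A a U) * S)) =
      8 * ∑ a, ∑ c, Av δ (fun U => hs (S * gT A a c a c U * S)) -
      8 * ∑ a, ∑ b, Av δ (fun U =>
        ((S * gT A a b a b U * S * (S * gT A a b a b U * S)).trace).re) := by
    rw [Finset.mul_sum, Finset.mul_sum, ← Finset.sum_sub_distrib]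
    refine Finset.sum_congr rfl fun a _ => ?_
    rw [Finset.mul_sum, Finset.mul_sum, ← Finset.sum_sub_distrib]
    refine Finset.sum_congr rfl fun b _ => ?_
    rw [← Av_mul_left_real, ← Av_mul_left_real, ← Av_sub]
    exact Av_congr δ fun U => hs_comm h a b U
  have h3 : ∑ a, ∑ c, Av δ (fun U => hs (S * gT A a c a c U * S)) =
      (lam * (((n : ℝ) + 1) * ((n : ℝ) + 2) / 2 * Rho δ A S S' - 2 * T2 A S S') -
        Av δ (N4 A S) + 2 * Av δ (N1G A S)) / (((n : ℝ) + 1) * ((n : ℝ) + 2)) := by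
    rw [eq_div_iff (by positivity)]
    linarith
  have h4 : ∑ a, ∑ b, Av δ (fun U =>
      ((S * gT A a b a b U * S * (S * gT A a b a b U * S)).trace).re) =
      2 * (Av δ (N1G A S) - lam * T2 A S S' + ((Zop A S * Zop A S).trace).re) /
        ((n : ℝ) * ((n : ℝ) + 1)) := by
    rw [eq_div_iff (by positivity)]
    linarith
  rw [e, h3, h4]
  field_simp
  ring

/-- **The companion identity** for the other Hermitian part
`M_ab = E_a - E_b - [T_ab, T_ba]`. -/
theorem mer_identity (δ : Design n ((1 + D) + (1 + D))) (hD : 4 ≤ D) (hn : 0 < n)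
    (h : Perron A S S' lam) :
    ∑ a, ∑ b, Av δ (fun U => hs (S * (eff A a U - eff A b U -
      ((rot U A a)ᴴ * rot U A b * ((rot U A b)ᴴ * rot U A a) -
        (rot U A b)ᴴ * rot U A a * ((rot U A a)ᴴ * rot U A b))) * S)) =
      4 * lam * Rho δ A S S' - 8 / (((n : ℝ) + 1) * ((n : ℝ) + 2)) * Av δ (N4 A S) +
      32 / ((n : ℝ) * ((n : ℝ) + 2)) * (Av δ (N1G A S) - lam * T2 A S S') +
      16 / ((n : ℝ) * ((n : ℝ) + 1)) * ((Zop A S * Zop A S).trace).re := by
  have h1 := G_norm δ hD h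
  have h2 := G_bil δ hD h
  have hn' : (0 : ℝ) < n := Nat.cast_pos.2 hn
  have e : ∑ a, ∑ b, Av δ (fun U => hs (S * (eff A a U - eff A b U -
      ((rot U A a)ᴴ * rot U A b * ((rot U A b)ᴴ * rot U A a) -
        (rot U A b)ᴴ * rot U A a * ((rot U A a)ᴴ * rot U A b))) * S)) =
      8 * ∑ a, ∑ c, Av δ (fun U => hs (S * gT A a c a c U * S)) +
      8 * ∑ a, ∑ b, Av δ (fun U =>
        ((S * gT A a b a b U * S * (S * gT A a b a b U * S)).trace).re) := by
    rw [Finset.mul_sum, Finset.mul_sum, ← Finset.sum_add_distrib]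
    refine Finset.sum_congr rfl fun a _ => ?_
    rw [Finset.mul_sum, Finset.mul_sum, ← Finset.sum_add_distrib]
    refine Finset.sum_congr rfl fun b _ => ?_
    rw [← Av_mul_left_real, ← Av_mul_left_real, ← Av_add]
    exact Av_congr δ fun U => hs_mer h a b U
  have h3 : ∑ a, ∑ c, Av δ (fun U => hs (S * gT A a c a c U * S)) =
      (lam * (((n : ℝ) + 1) * ((n : ℝ) + 2) / 2 * Rho δ A S S' - 2 * T2 A S S') -
        Av δ (N4 A S) + 2 * Av δ (N1G A S)) / (((n : ℝ) + 1) * ((n : ℝ) + 2)) := by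
    rw [eq_div_iff (by positivity)]
    linarith
  have h4 : ∑ a, ∑ b, Av δ (fun U =>
      ((S * gT A a b a b U * S * (S * gT A a b a b U * S)).trace).re) =
      2 * (Av δ (N1G A S) - lam * T2 A S S' + ((Zop A S * Zop A S).trace).re) /
        ((n : ℝ) * ((n : ℝ) + 1)) := by
    rw [eq_div_iff (by positivity)]
    linarith
  rw [e, h3, h4]
  field_simp
  ring

end Pool.Agent.H92U
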