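import Pool.Agent.Lib.H92U.U14

/-! # H92U/U15: two dimensional planes: the second order averages of a symmetric (2,2) field -/

namespace Pool.Agent.H92U

open Matrix

variable {n D : ℕ}

section Pair

variable {T : Fin n → Fin n → Fin n → Fin n → UG n → ℂ}

/-- `2 Av|T(ab|ab)|^2 = Av|T(aa|ab)|^2 + Av T(ab|ab) conj T(aa|aa) - Av T(ab|bb) conj T(aa|ab)`. -/
theorem Av_pair_A (δ : Design n (D + D)) (hT : Ten22 D T)
    (hs1 : ∀ i j k l, T i j k l = T j i k l) (hs2 : ∀ i j k l, T i j k l = T i j l k)
    {a b : Fin n} (hab : b ≠ a) :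
    2 * Av δ (fun U => T a b a b U * star (T a b a b U)) =
      Av δ (fun U => T a a a b U * star (T a a a b U)) +
      Av δ (fun U => T a b a b U * star (T a a a a U)) -
      Av δ (fun U => T a b b b U * star (T a a a b U)) := by
  have hab' : ¬ (a = b) := fun h => hab h.symm
  have hp := (hT.1 a b a b).mul (hT.1 a a a b).star
  have h1 := Av_HasD δ hp ((hT.2 a b a b a b).mul (hT.2 b a a a a b).star)
  have e : (fun U => ((if a = b then T a b a b U else 0) + (if b = b then T a a a b U else 0) -
      (if a = a then T a b b b U else 0) - (if b = a then T a b a b U else 0)) *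
        star (T a a a b U) +
      T a b a b U * -star ((if a = a then T b a a b U else 0) +
        (if a = a then T a b a b U else 0) - (if a = b then T a a a b U else 0) -
        (if b = b then T a a a a U else 0))) =
      fun U => (T a a a b U * star (T a a a b U) + T a b a b U * star (T a a a a U)) -
        T a b b b U * star (T a a a b U) - 2 * (T a b a b U * star (T a b a b U)) := by
    funext U
    simp only [hab', hab, if_true, if_false, zero_add, sub_zero, hs1 b a a b, star_sub, star_add]
    ring
  rw [e, Av_sub, Av_sub, Av_add, Av_mul_left] at h1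
  linear_combination -h1

/-- `Av|T(aa|bb)|^2 = 2 Av|T(aa|ab)|^2 - 2 Av T(aa|ab) conj T(ab|bb)`. -/
theorem Av_pair_B (δ : Design n (D + D)) (hT : Ten22 D T)
    (hs1 : ∀ i j k l, T i j k l = T j i k l) (hs2 : ∀ i j k l, T i j k l = T i j l k)
    {a b : Fin n} (hab : b ≠ a) :
    Av δ (fun U => T a a b b U * star (T a a b b U)) =
      2 * Av δ (fun U => T a a a b U * star (T a a a b U)) -
      2 * Av δ (fun U => T a a a b U * star (T a b b b U)) := by
  have hab' : ¬ (a = b) := fun h => hab h.symm
  have hp := (hT.1 a a a b).mul (hT.1 a a b b).star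
  have h1 := Av_HasD δ hp ((hT.2 a b a a a b).mul (hT.2 b a a a b b).star)
  have e : (fun U => ((if a = b then T a a a b U else 0) + (if a = b then T a a a b U else 0) -
      (if a = a then T a a b b U else 0) - (if b = a then T a a a b U else 0)) *
        star (T a a b b U) +
      T a a a b U * -star ((if a = a then T b a b b U else 0) +
        (if a = a then T a b b b U else 0) - (if b = b then T a a a b U else 0) -
        (if b = b then T a a b a U else 0))) =
      fun U => 2 * (T a a a b U * star (T a a a b U)) -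
        2 * (T a a a b U * star (T a b b b U)) - T a a b b U * star (T a a b b U) := by
    funext U
    simp only [hab', hab, if_true, if_false, zero_add, sub_zero, hs1 b a b b, hs2 a a b a,
      star_sub, star_add, zero_sub]
    ring
  rw [e, Av_sub, Av_sub, Av_mul_left, Av_mul_left] at h1
  linear_combination -h1

/-- `Av T(aa|aa) conj T(bb|bb) = 2 Av T(ab|ab) conj T(bb|bb) - 2 Av T(ab|aa) conj T(bb|ab)`. -/
theorem Av_pair_C (δ : Design n (D + D)) (hT : Ten22 D T)
    (hs1 : ∀ i j k l, T i j k l = T j i k l) (hs2 : ∀ i j k l, T i j k l = T i j l k)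
    {a b : Fin n} (hab : b ≠ a) :
    Av δ (fun U => T a a a a U * star (T b b b b U)) =
      2 * Av δ (fun U => T a b a b U * star (T b b b b U)) -
      2 * Av δ (fun U => T a b a a U * star (T b b a b U)) := by
  have hab' : ¬ (a = b) := fun h => hab h.symm
  have hp := (hT.1 a b a a).mul (hT.1 b b b b).star
  have h1 := Av_HasD δ hp ((hT.2 a b a b a a).mul (hT.2 b a b b b b).star)
  have e : (fun U => ((if a = b then T a b a a U else 0) + (if b = b then T a a a a U else 0) -
      (if a = a then T a b b a U else 0) - (if a = a then T a b a b U else 0)) *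
        star (T b b b b U) +
      T a b a a U * -star ((if b = a then T b b b b U else 0) +
        (if b = a then T b b b b U else 0) - (if b = b then T b b a b U else 0) -
        (if b = b then T b b b a U else 0))) =
      fun U => T a a a a U * star (T b b b b U) - 2 * (T a b a b U * star (T b b b b U)) +
        2 * (T a b a a U * star (T b b a b U)) := by
    funext U
    simp only [hab', hab, if_true, if_false, zero_add, hs2 a b b a, hs2 b b b a,
      star_sub, zero_sub, star_neg]
    ring
  rw [e, Av_add, Av_sub, Av_mul_left, Av_mul_left] at h1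
  linear_combination h1

/-- For three different indices, `2 Av T(ca|cb) conj T(aa|ab) = Av T(ab|bb) conj T(aa|ab)`
(in the form with the conjugate of the last term). -/
theorem Av_pair_D (δ : Design n (D + D)) (hT : Ten22 D T)
    (hs1 : ∀ i j k l, T i j k l = T j i k l) (hs2 : ∀ i j k l, T i j k l = T i j l k)
    {a b c : Fin n} (hab : b ≠ a) (hca : c ≠ a) (hcb : c ≠ b) :
    2 * Av δ (fun U => T c a c b U * star (T a a a b U)) =
      Av δ (fun U => T a a a b U * star (T a b b b U)) := by
  have hab' : ¬ (a = b) := fun h => hab h.symm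
  have hca' : ¬ (a = c) := fun h => hca h.symm
  have hcb' : ¬ (b = c) := fun h => hcb h.symm
  -- first relation
  have hp := (hT.1 a a c b).mul (hT.1 a a a b).star
  have h1 := Av_HasD δ hp ((hT.2 c a a a c b).mul (hT.2 a c a a a b).star)
  have e : (fun U => ((if a = a then T c a c b U else 0) + (if a = a then T a c c b U else 0) -
      (if c = c then T a a a b U else 0) - (if b = c then T a a c a U else 0)) *
        star (T a a a b U) +
      T a a c b U * -star ((if a = c then T a a a b U else 0) +
        (if a = c then T a a a b U else 0) - (if a = a then T a a c b U else 0) -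
        (if b = a then T a a a c U else 0))) =
      fun U => 2 * (T c a c b U * star (T a a a b U)) - T a a a b U * star (T a a a b U) +
        T a a c b U * star (T a a c b U) := by
    funext U
    simp only [hab, hca', hcb', if_true, if_false, zero_add, sub_zero, hs1 a c c b,
      zero_sub, star_neg]
    ring
  rw [e, Av_add, Av_sub, Av_mul_left] at h1
  -- second relation
  have hp2 := (hT.1 a a b b).mul (hT.1 a a c b).star
  have h2 := Av_HasD δ hp2 ((hT.2 b c a a b b).mul (hT.2 c b a a c b).star)
  have e2 : (fun U => ((if a = c then T b a b b U else 0) + (if a = c then T a b b b U else 0) -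
      (if b = b then T a a c b U else 0) - (if b = b then T a a b c U else 0)) *
        star (T a a c b U) +
      T a a b b U * -star ((if a = b then T c a c b U else 0) +
        (if a = b then T a c c b U else 0) - (if c = c then T a a b b U else 0) -
        (if b = c then T a a c b U else 0))) =
      fun U => T a a b b U * star (T a a b b U) - 2 * (T a a c b U * star (T a a c b U)) := by
    funext U
    simp only [hab', hca', hcb', if_true, if_false, zero_add, sub_zero, hs2 a a b c,
      zero_sub, star_neg]
    ring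
  rw [e2, Av_sub, Av_mul_left] at h2
  have h3 := Av_pair_B δ hT hs1 hs2 hab
  linear_combination h1 + (1 / 2) * h2 - (1 / 2) * h3

/-- `2 Av T_1(a|b) conj T(aa|ab) = 2 Av|T(aa|ab)|^2 + n Av T(aa|ab) conj T(ab|bb)` for
`a ≠ b` (real part form). -/
theorem Av_pair_E (δ : Design n (D + D)) (hT : Ten22 D T)
    (hs1 : ∀ i j k l, T i j k l = T j i k l) (hs2 : ∀ i j k l, T i j k l = T i j l k)
    {a b : Fin n} (hab : b ≠ a) :
    2 * (Av δ (fun U => (∑ c, T c a c b U) * star (T a a a b U))).re =
      2 * (Av δ (fun U => T a a a b U * star (T a a a b U))).re +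
      (n : ℝ) * (Av δ (fun U => T a a a b U * star (T a b b b U))).re := by
  have hab' : ¬ (a = b) := fun h => hab h.symm
  have hconj : (Av δ (fun U => T b a b b U * star (T a a a b U))).re =
      (Av δ (fun U => T a a a b U * star (T a b b b U))).re := by
    have : (fun U => T b a b b U * star (T a a a b U)) =
        fun U => star (T a a a b U * star (T a b b b U)) := by
      funext U
      rw [star_mul', star_star, hs1 b a b b, mul_comm]
    rw [this, Av_star, Complex.star_def, Complex.conj_re]
  have hall : ∀ c, 2 * (Av δ (fun U => T c a c b U * star (T a a a b U))).re =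
      (Av δ (fun U => T a a a b U * star (T a b b b U))).re +
      (if c = a then 2 * (Av δ (fun U => T a a a b U * star (T a a a b U))).re -
        (Av δ (fun U => T a a a b U * star (T a b b b U))).re else 0) +
      (if c = b then (Av δ (fun U => T a a a b U * star (T a b b b U))).re else 0) := by
    intro c
    by_cases hca : c = a
    · subst hca
      rw [if_pos rfl, if_neg hab']
      ring
    · by_cases hcb : c = b
      · subst hcb
        rw [if_neg hca, if_pos rfl, hconj]
        ring
      · rw [if_neg hca, if_neg hcb]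
        have h := congrArg Complex.re (Av_pair_D δ hT hs1 hs2 hab hca hcb)
        rw [show (2 : ℂ) = ((2 : ℝ) : ℂ) by norm_num, Complex.re_ofReal_mul] at h
        linarith
  have h2 : (Av δ (fun U => (∑ c, T c a c b U) * star (T a a a b U))).re =
      ∑ c, (Av δ (fun U => T c a c b U * star (T a a a b U))).re := by
    rw [← Complex.re_sum, ← Av_sum δ Finset.univ (fun c U => T c a c b U * star (T a a a b U))]
    congr 1
    exact Av_congr δ fun U => by rw [Finset.sum_mul]
  rw [h2, Finset.mul_sum, Finset.sum_congr rfl fun c _ => hall c, Finset.sum_add_distrib,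
    Finset.sum_add_distrib, Finset.sum_const, Finset.card_univ, Fintype.card_fin, nsmul_eq_mul,
    Finset.sum_ite_eq' Finset.univ a, Finset.sum_ite_eq' Finset.univ b]
  simp only [Finset.mem_univ, if_true]
  ring

/-- `(n+1) ∑_{a,b} Av T_1(a|b) conj T(aa|ab) = 2 Av ∑ |T_1|^2`. -/
theorem Av_T22_half (δ : Design n ((1 + D) + (1 + D))) (hT : Ten22 D T)
    (hs1 : ∀ i j k l, T i j k l = T j i k l) (hs2 : ∀ i j k l, T i j k l = T i j l k) :
    ((n : ℂ) + 1) * ∑ a, ∑ b, Av δ (fun U => (∑ c, T c a c b U) * star (T a a a b U)) =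
      2 * Av δ (fun U => ∑ a, ∑ b, (∑ c, T c a c b U) * star (∑ c, T c a c b U)) := by
  have h : ∀ α, ((n : ℂ) + 1) * ∑ a, Av δ (fun U =>
      (∑ b, (U : Matrix (Fin n) (Fin n) ℂ) α b * ∑ c, T c a c b U) *
        star (∑ b, (U : Matrix (Fin n) (Fin n) ℂ) α b * T a a a b U)) =
      2 * Av δ (fun U => ∑ a, (∑ b, (U : Matrix (Fin n) (Fin n) ℂ) α b * ∑ c, T c a c b U) *
        star (∑ k, ∑ b, (U : Matrix (Fin n) (Fin n) ℂ) α b * T a k k b U)) := by
    intro α
    have hf := hT.fix α
    have hg := hT.contr13.fix α
    have hsym : ∀ i j k, (fun U : UG n => ∑ b, (U : Matrix (Fin n) (Fin n) ℂ) α b * T i j k b U) =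
        fun U : UG n => ∑ b, (U : Matrix (Fin n) (Fin n) ℂ) α b * T j i k b U := by
      intro i j k
      funext U
      exact Finset.sum_congr rfl fun b _ => by rw [hs1 i j k b]
    have h' := Av_T21_trace δ hf hsym hg
    exact h'
  have h2 : ∑ α, (((n : ℂ) + 1) * ∑ a, Av δ (fun U =>
      (∑ b, (U : Matrix (Fin n) (Fin n) ℂ) α b * ∑ c, T c a c b U) *
        star (∑ b, (U : Matrix (Fin n) (Fin n) ℂ) α b * T a a a b U))) =
      ∑ α, (2 * Av δ (fun U => ∑ a,
        (∑ b, (U : Matrix (Fin n) (Fin n) ℂ) α b * ∑ c, T c a c b U) *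
        star (∑ k, ∑ b, (U : Matrix (Fin n) (Fin n) ℂ) α b * T a k k b U))) :=
    Finset.sum_congr rfl fun α _ => h α
  rw [← Finset.mul_sum, ← Finset.mul_sum] at h2
  have e1 : ∑ α, ∑ a, Av δ (fun U =>
      (∑ b, (U : Matrix (Fin n) (Fin n) ℂ) α b * ∑ c, T c a c b U) *
        star (∑ b, (U : Matrix (Fin n) (Fin n) ℂ) α b * T a a a b U)) =
      ∑ a, ∑ b, Av δ (fun U => (∑ c, T c a c b U) * star (T a a a b U)) := by
    rw [Finset.sum_comm]
    refine Finset.sum_congr rfl fun a _ => ?_
    rw [← Av_sum δ Finset.univ (fun α (U : UG n) =>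
      (∑ b, (U : Matrix (Fin n) (Fin n) ℂ) α b * ∑ c, T c a c b U) *
        star (∑ b, (U : Matrix (Fin n) (Fin n) ℂ) α b * T a a a b U)),
      ← Av_sum δ Finset.univ (fun b (U : UG n) => (∑ c, T c a c b U) * star (T a a a b U))]
    exact Av_congr δ fun U => parseval_pol U _ _
  have e2 : ∑ α, Av δ (fun U => ∑ a,
        (∑ b, (U : Matrix (Fin n) (Fin n) ℂ) α b * ∑ c, T c a c b U) *
        star (∑ k, ∑ b, (U : Matrix (Fin n) (Fin n) ℂ) α b * T a k k b U)) =
      Av δ (fun U => ∑ a, ∑ b, (∑ c, T c a c b U) * star (∑ c, T c a c b U)) := by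
    rw [← Av_sum δ Finset.univ (fun α (U : UG n) => ∑ a,
        (∑ b, (U : Matrix (Fin n) (Fin n) ℂ) α b * ∑ c, T c a c b U) *
        star (∑ k, ∑ b, (U : Matrix (Fin n) (Fin n) ℂ) α b * T a k k b U))]
    refine Av_congr δ fun U => ?_
    rw [Finset.sum_comm]
    refine Finset.sum_congr rfl fun a _ => ?_
    have e3 : ∀ α, ∑ k, ∑ b, (U : Matrix (Fin n) (Fin n) ℂ) α b * T a k k b U =
        ∑ b, (U : Matrix (Fin n) (Fin n) ℂ) α b * ∑ c, T c a c b U := by
      intro α
      rw [Finset.sum_comm]
      refine Finset.sum_congr rfl fun b _ => ?_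
      rw [Finset.mul_sum]
      exact Finset.sum_congr rfl fun k _ => by rw [hs1 a k k b]
    rw [Finset.sum_congr rfl fun α _ => by rw [e3 α]]
    exact parseval_pol U _ _
  rw [e1, e2] at h2
  exact h2

end Pair

end Pool.Agent.H92U
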