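import Pool.Agent.Lib.H92U.U1

/-! # H92U/U2: finite averages over the unitary group, exact for polynomials of bounded degree -/

namespace Pool.Agent.H92U

open MeasureTheory MeasureTheory.Measure Matrix

/-- The unitary group. -/
abbrev UG (n : ℕ) := Matrix.unitaryGroup (Fin n) ℂ

instance (n : ℕ) : CompactSpace (UG n) := by
  refine (isCompact_iff_compactSpace
    (s := (unitary (Matrix (Fin n) (Fin n) ℂ) : Set (Matrix (Fin n) (Fin n) ℂ)))).1 ?_
  have h1 : IsClosed ((unitary (Matrix (Fin n) (Fin n) ℂ) : Set (Matrix (Fin n) (Fin n) ℂ))) :=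
    isClosed_unitary
  have h2 : IsCompact (Set.univ.pi fun _ : Fin n => Set.univ.pi fun _ : Fin n =>
      Metric.closedBall (0 : ℂ) 1) :=
    isCompact_univ_pi fun _ => isCompact_univ_pi fun _ => isCompact_closedBall _ _
  refine h2.of_isClosed_subset h1 ?_
  intro U hU i _ j _
  rw [mem_closedBall_zero_iff]
  exact entry_norm_bound_of_unitary hU i j

instance (n : ℕ) : SecondCountableTopology (UG n) := by
  have h0 : SecondCountableTopology (Fin n → Fin n → ℂ) := inferInstance
  have h : SecondCountableTopology (Matrix (Fin n) (Fin n) ℂ) := h0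
  exact TopologicalSpace.Subtype.secondCountableTopology _

/-- A factor: an entry or a conjugate entry. -/
def fac {n : ℕ} (U : UG n) (x : Fin n × Fin n × Bool) : ℂ :=
  if x.2.2 then star ((U : Matrix (Fin n) (Fin n) ℂ) x.1 x.2.1)
  else (U : Matrix (Fin n) (Fin n) ℂ) x.1 x.2.1

/-- Monomials. -/
def lmono {n : ℕ} (l : List (Fin n × Fin n × Bool)) (U : UG n) : ℂ := (l.map (fac U)).prod

/-- Polynomials of degree at most `D` in the entries and the conjugate entries. -/
def PolLe {n : ℕ} (D : ℕ) (f : UG n → ℂ) : Prop :=
  f ∈ Submodule.span ℂ (lmono '' {l : List (Fin n × Fin n × Bool) | l.length ≤ D})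

namespace PolLe

variable {n : ℕ} {D D' : ℕ} {f g : UG n → ℂ}

theorem of_mono {l : List (Fin n × Fin n × Bool)} (h : l.length ≤ D) : PolLe D (lmono l) :=
  Submodule.subset_span ⟨l, h, rfl⟩

theorem mono (h : D ≤ D') (hf : PolLe D f) : PolLe D' f :=
  Submodule.span_mono (Set.image_mono fun _ hl => le_trans hl h) hf

theorem zero : PolLe D (fun _ : UG n => (0 : ℂ)) := Submodule.zero_mem _

theorem const (c : ℂ) : PolLe D (fun _ : UG n => c) := by
  have h : PolLe D (lmono ([] : List (Fin n × Fin n × Bool))) := of_mono (Nat.zero_le _)
  have h2 := Submodule.smul_mem _ c h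
  have h3 : (c • lmono ([] : List (Fin n × Fin n × Bool))) = fun _ : UG n => c := by
    funext U
    simp [lmono]
  rw [h3] at h2
  exact h2

theorem entry (i j : Fin n) : PolLe 1 (fun U : UG n => (U : Matrix (Fin n) (Fin n) ℂ) i j) := by
  have h : PolLe 1 (lmono [(i, j, false)]) := of_mono (by simp)
  have h3 : lmono [(i, j, false)] = fun U : UG n => (U : Matrix (Fin n) (Fin n) ℂ) i j := by
    funext U
    simp [lmono, fac]
  rw [h3] at h
  exact h

theorem entry_star (i j : Fin n) :
    PolLe 1 (fun U : UG n => star ((U : Matrix (Fin n) (Fin n) ℂ) i j)) := by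
  have h : PolLe 1 (lmono [(i, j, true)]) := of_mono (by simp)
  have h3 : lmono [(i, j, true)] = fun U : UG n => star ((U : Matrix (Fin n) (Fin n) ℂ) i j) := by
    funext U
    simp [lmono, fac]
  rw [h3] at h
  exact h

theorem add (hf : PolLe D f) (hg : PolLe D g) : PolLe D (fun U => f U + g U) :=
  Submodule.add_mem _ hf hg

theorem neg (hf : PolLe D f) : PolLe D (fun U => - f U) :=
  Submodule.neg_mem _ hf

theorem sub (hf : PolLe D f) (hg : PolLe D g) : PolLe D (fun U => f U - g U) :=
  Submodule.sub_mem _ hf hg

theorem smul (c : ℂ) (hf : PolLe D f) : PolLe D (fun U => c * f U) :=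
  Submodule.smul_mem _ c hf

theorem sum {ι : Type*} (s : Finset ι) (F : ι → UG n → ℂ) (h : ∀ i ∈ s, PolLe D (F i)) :
    PolLe D (fun U => ∑ i ∈ s, F i U) := by
  have h2 : (∑ i ∈ s, F i) ∈ Submodule.span ℂ
      (lmono '' {l : List (Fin n × Fin n × Bool) | l.length ≤ D}) := Submodule.sum_mem _ h
  have h3 : (∑ i ∈ s, F i) = fun U => ∑ i ∈ s, F i U := by
    funext U
    simp
  rw [h3] at h2
  exact h2

theorem mul (hf : PolLe D f) (hg : PolLe D' g) : PolLe (D + D') (fun U => f U * g U) := by
  have key : ∀ f, PolLe D f → ∀ g, PolLe D' g → PolLe (D + D') (f * g : UG n → ℂ) := by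
    intro f hf
    refine Submodule.span_induction (p := fun f _ => ∀ g, PolLe D' g → PolLe (D + D') (f * g))
      ?_ ?_ ?_ ?_ hf
    · rintro _ ⟨l, hl, rfl⟩ g hg
      refine Submodule.span_induction (p := fun g _ => PolLe (D + D') (lmono l * g))
        ?_ ?_ ?_ ?_ hg
      · rintro _ ⟨l', hl', rfl⟩
        have h1 : PolLe (D + D') (lmono (l ++ l')) := by
          refine of_mono ?_
          rw [List.length_append]
          exact add_le_add hl hl'
        have h2 : (lmono (l ++ l') : UG n → ℂ) = lmono l * lmono l' := by
          funext U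
          simp [lmono]
        rwa [h2] at h1
      · rw [mul_zero]
        exact zero
      · intro x y _ _ hx hy
        rw [mul_add]
        exact Submodule.add_mem _ hx hy
      · intro c x _ hx
        rw [mul_smul_comm]
        exact Submodule.smul_mem _ c hx
    · intro g _
      rw [zero_mul]
      exact zero
    · intro x y _ _ hx hy g hg
      rw [add_mul]
      exact Submodule.add_mem _ (hx g hg) (hy g hg)
    · intro c x _ hx g hg
      rw [smul_mul_assoc]
      exact Submodule.smul_mem _ c (hx g hg)
  exact key f hf g hg

theorem star (hf : PolLe D f) : PolLe D (fun U => star (f U)) := by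
  refine Submodule.span_induction (p := fun f _ => PolLe D (fun U => Star.star (f U)))
    ?_ ?_ ?_ ?_ hf
  · rintro _ ⟨l, hl, rfl⟩
    have h1 : PolLe D (lmono (l.map fun x => (x.1, x.2.1, !x.2.2))) := by
      refine of_mono ?_
      rw [List.length_map]
      exact hl
    have h2 : (lmono (l.map fun x => (x.1, x.2.1, !x.2.2)) : UG n → ℂ) =
        fun U => Star.star (lmono l U) := by
      funext U
      unfold lmono
      clear h1 hl
      induction l with
      | nil => simp
      | cons x l ih =>
        rw [List.map_cons, List.map_cons, List.prod_cons, List.map_cons, List.prod_cons, star_mul',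
          ih]
        congr 1
        unfold fac
        rcases x with ⟨a, b, c⟩
        cases c <;> simp
    rwa [h2] at h1
  · simp only [Pi.zero_apply, star_zero]
    exact zero
  · intro x y _ _ hx hy
    simp only [Pi.add_apply, star_add]
    exact add hx hy
  · intro c x _ hx
    simp only [Pi.smul_apply, smul_eq_mul, star_mul']
    exact smul _ hx

theorem prod {ι : Type*} [DecidableEq ι] (s : Finset ι) (F : ι → UG n → ℂ) (h : ∀ i ∈ s, PolLe 1 (F i)) :
    PolLe s.card (fun U => ∏ i ∈ s, F i U) := by
  induction s using Finset.induction_on with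
  | empty =>
    simp only [Finset.prod_empty]
    exact const 1
  | insert a s ha ih =>
    rw [Finset.card_insert_of_notMem ha]
    simp only [Finset.prod_insert ha]
    rw [add_comm]
    exact mul (h a (Finset.mem_insert_self a s)) (ih fun i hi => h i (Finset.mem_insert_of_mem hi))

theorem mul_right (V : UG n) (hf : PolLe D f) : PolLe D (fun U => f (U * V)) := by
  refine Submodule.span_induction (p := fun f _ => PolLe D (fun U => f (U * V))) ?_ ?_ ?_ ?_ hf
  · rintro _ ⟨l, hl, rfl⟩
    refine mono hl ?_
    clear hl
    induction l with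
    | nil =>
      have : (fun U : UG n => lmono ([] : List (Fin n × Fin n × Bool)) (U * V)) = fun _ => 1 := by
        funext U
        simp [lmono]
      rw [this]
      exact const 1
    | cons x l ih =>
      have h1 : PolLe 1 (fun U : UG n => fac (U * V) x) := by
        rcases x with ⟨a, b, c⟩
        cases c
        · simp only [fac, Bool.false_eq_true, if_false]
          have : (fun U : UG n => ((U * V : UG n) : Matrix (Fin n) (Fin n) ℂ) a b) =
              fun U : UG n => ∑ k, (V : Matrix (Fin n) (Fin n) ℂ) k b *
                (U : Matrix (Fin n) (Fin n) ℂ) a k := by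
            funext U
            change ((U : Matrix (Fin n) (Fin n) ℂ) * (V : Matrix (Fin n) (Fin n) ℂ)) a b = _
            rw [Matrix.mul_apply]
            exact Finset.sum_congr rfl fun k _ => mul_comm _ _
          rw [this]
          exact sum _ _ fun k _ => smul _ (entry a k)
        · simp only [fac, if_true]
          have : (fun U : UG n => Star.star (((U * V : UG n) : Matrix (Fin n) (Fin n) ℂ) a b)) =
              fun U : UG n => ∑ k, Star.star ((V : Matrix (Fin n) (Fin n) ℂ) k b) *
                Star.star ((U : Matrix (Fin n) (Fin n) ℂ) a k) := by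
            funext U
            change Star.star (((U : Matrix (Fin n) (Fin n) ℂ) * (V : Matrix (Fin n) (Fin n) ℂ)) a b) = _
            rw [Matrix.mul_apply, star_sum]
            exact Finset.sum_congr rfl fun k _ => by rw [star_mul', mul_comm]
          rw [this]
          exact sum _ _ fun k _ => smul _ (entry_star a k)
      have h2 := mul h1 ih
      rw [List.length_cons, add_comm]
      have h3 : (fun U : UG n => lmono (x :: l) (U * V)) =
          fun U : UG n => fac (U * V) x * lmono l (U * V) := by
        funext U
        simp [lmono]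
      rw [h3]
      exact h2
  · exact zero
  · intro x y _ _ hx hy
    exact add hx hy
  · intro c x _ hx
    exact smul c hx

theorem mul_left (V : UG n) (hf : PolLe D f) : PolLe D (fun U => f (V * U)) := by
  refine Submodule.span_induction (p := fun f _ => PolLe D (fun U => f (V * U))) ?_ ?_ ?_ ?_ hf
  · rintro _ ⟨l, hl, rfl⟩
    refine mono hl ?_
    clear hl
    induction l with
    | nil =>
      have : (fun U : UG n => lmono ([] : List (Fin n × Fin n × Bool)) (V * U)) = fun _ => 1 := by
        funext U
        simp [lmono]
      rw [this]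
      exact const 1
    | cons x l ih =>
      have h1 : PolLe 1 (fun U : UG n => fac (V * U) x) := by
        rcases x with ⟨a, b, c⟩
        cases c
        · simp only [fac, Bool.false_eq_true, if_false]
          have : (fun U : UG n => ((V * U : UG n) : Matrix (Fin n) (Fin n) ℂ) a b) =
              fun U : UG n => ∑ k, (V : Matrix (Fin n) (Fin n) ℂ) a k *
                (U : Matrix (Fin n) (Fin n) ℂ) k b := by
            funext U
            change ((V : Matrix (Fin n) (Fin n) ℂ) * (U : Matrix (Fin n) (Fin n) ℂ)) a b = _
            rw [Matrix.mul_apply]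
          rw [this]
          exact sum _ _ fun k _ => smul _ (entry k b)
        · simp only [fac, if_true]
          have : (fun U : UG n => Star.star (((V * U : UG n) : Matrix (Fin n) (Fin n) ℂ) a b)) =
              fun U : UG n => ∑ k, Star.star ((V : Matrix (Fin n) (Fin n) ℂ) a k) *
                Star.star ((U : Matrix (Fin n) (Fin n) ℂ) k b) := by
            funext U
            change Star.star (((V : Matrix (Fin n) (Fin n) ℂ) * (U : Matrix (Fin n) (Fin n) ℂ)) a b) = _
            rw [Matrix.mul_apply, star_sum]
            exact Finset.sum_congr rfl fun k _ => by rw [star_mul']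
          rw [this]
          exact sum _ _ fun k _ => smul _ (entry_star k b)
      have h2 := mul h1 ih
      rw [List.length_cons, add_comm]
      have h3 : (fun U : UG n => lmono (x :: l) (V * U)) =
          fun U : UG n => fac (V * U) x * lmono l (V * U) := by
        funext U
        simp [lmono]
      rw [h3]
      exact h2
  · exact zero
  · intro x y _ _ hx hy
    exact add hx hy
  · intro c x _ hx
    exact smul c hx

end PolLe

/-- A finite positive average on the unitary group which is exact for polynomials of degree at
most `D`; here recorded by its invariance. -/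
structure Design (n D : ℕ) where
  /-- number of points -/
  m : ℕ
  /-- weights -/
  w : Fin m → ℝ
  /-- points -/
  u : Fin m → UG n
  nonneg : ∀ i, 0 ≤ w i
  sum_one : ∑ i, w i = 1
  right : ∀ f : UG n → ℂ, PolLe D f → ∀ V : UG n,
    ∑ i, (w i : ℂ) * f (u i * V) = ∑ i, (w i : ℂ) * f (u i)
  left : ∀ f : UG n → ℂ, PolLe D f → ∀ V : UG n,
    ∑ i, (w i : ℂ) * f (V * u i) = ∑ i, (w i : ℂ) * f (u i)

private theorem fac_continuous {n : ℕ} (x : Fin n × Fin n × Bool) :
    Continuous fun U : UG n => fac U x := by
  have h : Continuous fun U : UG n => (U : Matrix (Fin n) (Fin n) ℂ) x.1 x.2.1 :=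
    continuous_subtype_val.matrix_elem x.1 x.2.1
  unfold fac
  by_cases hx : x.2.2
  · simp only [hx, if_true]
    exact h.star
  · simp only [hx]
    exact h

/-- The factor attached to an optional letter. -/
private noncomputable def ofac {n : ℕ} (U : UG n) : Option (Fin n × Fin n × Bool) → ℂ
  | none => 1
  | some x => fac U x

private theorem ofac_continuous {n : ℕ} (x : Option (Fin n × Fin n × Bool)) :
    Continuous fun U : UG n => ofac U x := by
  cases x with
  | none => exact continuous_const
  | some x => exact fac_continuous x

private theorem prod_ofac {n : ℕ} (U : UG n) : ∀ (D : ℕ) (l : List (Fin n × Fin n × Bool)),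
    l.length ≤ D → ∏ k : Fin D, ofac U (l[(k : ℕ)]?) = lmono l U := by
  intro D
  induction D with
  | zero =>
    intro l hl
    have : l = [] := List.length_eq_zero_iff.1 (Nat.le_zero.1 hl)
    subst this
    simp [lmono]
  | succ D ih =>
    intro l hl
    rw [Fin.prod_univ_succ]
    cases l with
    | nil => simp [lmono, ofac]
    | cons x l =>
      have h1 : ∀ k : Fin D, ((x :: l)[((Fin.succ k : Fin (D + 1)) : ℕ)]?) = l[(k : ℕ)]? := by
        intro k
        simp
      simp only [h1]
      rw [ih l (Nat.le_of_succ_le_succ hl)]
      simp [lmono, ofac]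

private theorem design_exists (n D : ℕ) : Nonempty (Design n D) := by
  classical
  let _ : MeasurableSpace (UG n) := borel _
  have : BorelSpace (UG n) := ⟨rfl⟩
  let μ : Measure (UG n) := haarMeasure ⊤
  have hprob : IsProbabilityMeasure μ := by
    constructor
    have := haarMeasure_self (G := UG n) (K₀ := ⊤)
    exact this
  let Φ : UG n → ((Fin D → Option (Fin n × Fin n × Bool)) → ℂ) :=
    fun U σ => ∏ k, ofac U (σ k)
  have hΦ : Continuous Φ :=
    continuous_pi fun σ => continuous_finsetProd _ fun k _ => ofac_continuous (σ k)
  obtain ⟨m, w, u, hw0, hw1, hsum⟩ := exists_quadrature μ Φ hΦ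
  -- exactness on monomials
  have hint : ∀ f : UG n → ℂ, Continuous f → Integrable f μ := fun f hf =>
    hf.integrable_of_hasCompactSupport (HasCompactSupport.of_compactSpace f)
  have hcont : ∀ l : List (Fin n × Fin n × Bool), Continuous (lmono l : UG n → ℂ) := by
    intro l
    induction l with
    | nil =>
      have : (lmono ([] : List (Fin n × Fin n × Bool)) : UG n → ℂ) = fun _ => 1 := by
        funext U
        simp [lmono]
      rw [this]
      exact continuous_const
    | cons x l ih =>
      have : (lmono (x :: l) : UG n → ℂ) = fun U => fac U x * lmono l U := by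
        funext U
        simp [lmono]
      rw [this]
      exact (fac_continuous x).mul ih
  have hexact : ∀ f : UG n → ℂ, PolLe D f →
      Continuous f ∧ ∑ i, (w i : ℂ) * f (u i) = ∫ U, f U ∂μ := by
    intro f hf
    refine Submodule.span_induction
      (p := fun f _ => Continuous f ∧ ∑ i, (w i : ℂ) * f (u i) = ∫ U, f U ∂μ) ?_ ?_ ?_ ?_ hf
    · rintro _ ⟨l, hl, rfl⟩
      refine ⟨hcont l, ?_⟩
      have h1 := congrFun hsum (fun k : Fin D => l[(k : ℕ)]?)
      have h2 : (∫ U, Φ U ∂μ) (fun k : Fin D => l[(k : ℕ)]?) =
          ∫ U, Φ U (fun k : Fin D => l[(k : ℕ)]?) ∂μ := by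
        have hi : Integrable Φ μ :=
          hΦ.integrable_of_hasCompactSupport (HasCompactSupport.of_compactSpace Φ)
        have h0 := MeasureTheory.eval_integral (μ := μ) (f := fun U σ => Φ U σ)
          (fun σ => hint (fun U => Φ U σ) ((continuous_apply σ).comp hΦ))
          (fun k : Fin D => l[(k : ℕ)]?)
        exact h0
      rw [h2] at h1
      have h3 : ∀ U : UG n, Φ U (fun k : Fin D => l[(k : ℕ)]?) = lmono l U := fun U =>
        prod_ofac U D l hl
      simp only [h3] at h1
      rw [← h1]
      rw [Finset.sum_apply]
      refine Finset.sum_congr rfl fun i _ => ?_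
      rw [Pi.smul_apply, h3, Complex.real_smul]
    · refine ⟨continuous_const, ?_⟩
      simp
    · intro x y _ _ hx hy
      refine ⟨hx.1.add hy.1, ?_⟩
      simp only [Pi.add_apply, mul_add, Finset.sum_add_distrib]
      rw [hx.2, hy.2, integral_add (hint x hx.1) (hint y hy.1)]
    · intro c x _ hx
      refine ⟨hx.1.const_smul c, ?_⟩
      simp only [Pi.smul_apply, smul_eq_mul]
      rw [integral_const_mul, ← hx.2, Finset.mul_sum]
      exact Finset.sum_congr rfl fun i _ => by ring
  refine ⟨⟨m, w, u, hw0, hw1, ?_, ?_⟩⟩
  · intro f hf V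
    have h1 := (hexact _ (PolLe.mul_right V hf)).2
    have h2 := (hexact _ hf).2
    rw [h1, h2]
    have : IsMulRightInvariant μ := by
      constructor
      intro g
      have : IsProbabilityMeasure (μ.map (· * g)) :=
        isProbabilityMeasure_map (measurable_mul_const g).aemeasurable
      have : IsHaarMeasure (μ.map (· * g)) := by
        have : IsMulLeftInvariant (μ.map (· * g)) := isMulLeftInvariant_map_mul_right g
        refine isHaarMeasure_of_isCompact_nonempty_interior _ Set.univ isCompact_univ ?_ ?_ ?_
        · rw [interior_univ]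
          exact Set.univ_nonempty
        · rw [measure_univ]
          exact one_ne_zero
        · rw [measure_univ]
          exact ENNReal.one_ne_top
      exact isHaarMeasure_eq_of_isProbabilityMeasure _ _
    exact integral_mul_right_eq_self f V
  · intro f hf V
    have h1 := (hexact _ (PolLe.mul_left V hf)).2
    have h2 := (hexact _ hf).2
    rw [h1, h2]
    exact integral_mul_left_eq_self f V

instance (n D : ℕ) : Nonempty (Design n D) := design_exists n D

end Pool.Agent.H92U
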