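import Pool.Agent.Lib.H92U.U2

/-! # H92U/U3: the averages, rotated families, and the infinitesimal rule -/

namespace Pool.Agent.H92U

open Matrix

variable {n D : ℕ}

/-! ### averages -/

/-- The average of a function with values in a real vector space. -/
noncomputable def Av {M : Type*} [AddCommGroup M] [Module ℝ M] (δ : Design n D)
    (f : UG n → M) : M := ∑ k, δ.w k • f (δ.u k)

section Av

variable {M N : Type*} [AddCommGroup M] [Module ℝ M] [AddCommGroup N] [Module ℝ N]
  (δ : Design n D)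

theorem Av_add (f g : UG n → M) : Av δ (fun U => f U + g U) = Av δ f + Av δ g := by
  simp only [Av, smul_add, Finset.sum_add_distrib]

theorem Av_sub (f g : UG n → M) : Av δ (fun U => f U - g U) = Av δ f - Av δ g := by
  simp only [Av, smul_sub, Finset.sum_sub_distrib]

theorem Av_neg (f : UG n → M) : Av δ (fun U => - f U) = - Av δ f := by
  simp only [Av, smul_neg, Finset.sum_neg_distrib]

theorem Av_const (c : M) : Av δ (fun _ => c) = c := by
  simp only [Av]
  rw [← Finset.sum_smul, δ.sum_one, one_smul]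

theorem Av_zero : Av δ (fun _ => (0 : M)) = 0 := Av_const δ 0

theorem Av_sum {ι : Type*} (s : Finset ι) (F : ι → UG n → M) :
    Av δ (fun U => ∑ i ∈ s, F i U) = ∑ i ∈ s, Av δ (F i) := by
  simp only [Av, Finset.smul_sum]
  exact Finset.sum_comm

theorem Av_map (L : M →ₗ[ℝ] N) (f : UG n → M) : Av δ (fun U => L (f U)) = L (Av δ f) := by
  simp only [Av, map_sum, map_smul]

theorem Av_smul (c : ℝ) (f : UG n → M) : Av δ (fun U => c • f U) = c • Av δ f := by
  simp only [Av, Finset.smul_sum]
  exact Finset.sum_congr rfl fun k _ => smul_comm _ _ _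

theorem Av_congr {f g : UG n → M} (h : ∀ U, f U = g U) : Av δ f = Av δ g := by
  rw [funext h]

theorem Av_mul_left (c : ℂ) (f : UG n → ℂ) : Av δ (fun U => c * f U) = c * Av δ f := by
  simp only [Av, Finset.mul_sum]
  exact Finset.sum_congr rfl fun k _ => by rw [mul_smul_comm]

theorem Av_mul_right (c : ℂ) (f : UG n → ℂ) : Av δ (fun U => f U * c) = Av δ f * c := by
  simp only [Av, Finset.sum_mul]
  exact Finset.sum_congr rfl fun k _ => by rw [smul_mul_assoc]

theorem Av_mul_left_real (c : ℝ) (f : UG n → ℝ) : Av δ (fun U => c * f U) = c * Av δ f := by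
  simp only [Av, Finset.mul_sum]
  exact Finset.sum_congr rfl fun k _ => by rw [mul_smul_comm]

theorem Av_re (f : UG n → ℂ) : Av δ (fun U => (f U).re) = (Av δ f).re :=
  Av_map δ Complex.reLm f

theorem Av_im (f : UG n → ℂ) : Av δ (fun U => (f U).im) = (Av δ f).im :=
  Av_map δ Complex.imLm f

theorem Av_ofReal (f : UG n → ℝ) : Av δ (fun U => ((f U : ℝ) : ℂ)) = ((Av δ f : ℝ) : ℂ) := by
  simp only [Av, Complex.ofReal_sum, smul_eq_mul, Complex.real_smul, Complex.ofReal_mul]

theorem Av_star (f : UG n → ℂ) : Av δ (fun U => star (f U)) = star (Av δ f) := by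
  simp only [Av, star_sum, Complex.real_smul, star_mul', Complex.star_def, Complex.conj_ofReal]

theorem Av_mono {f g : UG n → ℝ} (h : ∀ U, f U ≤ g U) : Av δ f ≤ Av δ g := by
  refine Finset.sum_le_sum fun k _ => ?_
  exact mul_le_mul_of_nonneg_left (h _) (δ.nonneg k)

theorem Av_nonneg {f : UG n → ℝ} (h : ∀ U, 0 ≤ f U) : 0 ≤ Av δ f := by
  refine Finset.sum_nonneg fun k _ => ?_
  exact mul_nonneg (δ.nonneg k) (h _)

theorem Av_eq (f : UG n → ℂ) : Av δ f = ∑ k, (δ.w k : ℂ) * f (δ.u k) := by
  simp only [Av, Complex.real_smul]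

theorem Av_right {f : UG n → ℂ} (hf : PolLe D f) (V : UG n) :
    Av δ (fun U => f (U * V)) = Av δ f := by
  rw [Av_eq, Av_eq]
  exact δ.right f hf V

theorem Av_left {f : UG n → ℂ} (hf : PolLe D f) (V : UG n) :
    Av δ (fun U => f (V * U)) = Av δ f := by
  rw [Av_eq, Av_eq]
  exact δ.left f hf V

end Av

/-! ### rotated families -/

/-- The rotated family: the members in the frame given by the columns of `U`. -/
def rot {M : Type*} [AddCommGroup M] [Module ℂ M] (U : UG n) (A : Fin n → M) (i : Fin n) : M :=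
  ∑ j, ((U : Matrix (Fin n) (Fin n) ℂ) j i) • A j

theorem rot_mul {M : Type*} [AddCommGroup M] [Module ℂ M] (U V : UG n) (A : Fin n → M)
    (i : Fin n) : rot (U * V) A i = rot V (rot U A) i := by
  unfold rot
  have h : ∀ j, ((U * V : UG n) : Matrix (Fin n) (Fin n) ℂ) j i =
      ∑ k, (U : Matrix (Fin n) (Fin n) ℂ) j k * (V : Matrix (Fin n) (Fin n) ℂ) k i := by
    intro j
    change ((U : Matrix (Fin n) (Fin n) ℂ) * (V : Matrix (Fin n) (Fin n) ℂ)) j i = _
    rw [Matrix.mul_apply]
  simp only [h, Finset.sum_smul, Finset.smul_sum, smul_smul]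
  rw [Finset.sum_comm]
  exact Finset.sum_congr rfl fun k _ => Finset.sum_congr rfl fun j _ => by rw [mul_comm]

/-- Column orthonormality. -/
theorem col_orth (U : UG n) (i j : Fin n) :
    ∑ k, (U : Matrix (Fin n) (Fin n) ℂ) k i * star ((U : Matrix (Fin n) (Fin n) ℂ) k j) =
      if i = j then 1 else 0 := by
  have h1 : star (U : Matrix (Fin n) (Fin n) ℂ) * (U : Matrix (Fin n) (Fin n) ℂ) = 1 :=
    (Matrix.mem_unitaryGroup_iff'.1 U.2)
  have h := congrFun (congrFun h1 j) i
  rw [Matrix.mul_apply, Matrix.one_apply] at h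
  rw [show (if i = j then (1 : ℂ) else 0) = if j = i then 1 else 0 by simp only [eq_comm], ← h]
  refine Finset.sum_congr rfl fun k _ => ?_
  rw [Matrix.star_apply, mul_comm]

/-- Row orthonormality (completeness of the frame). -/
theorem row_orth (U : UG n) (α β : Fin n) :
    ∑ k, (U : Matrix (Fin n) (Fin n) ℂ) α k * star ((U : Matrix (Fin n) (Fin n) ℂ) β k) =
      if α = β then 1 else 0 := by
  have h1 : (U : Matrix (Fin n) (Fin n) ℂ) * star (U : Matrix (Fin n) (Fin n) ℂ) = 1 :=
    (Matrix.mem_unitaryGroup_iff.1 U.2)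
  have h := congrFun (congrFun h1 α) β
  rw [Matrix.mul_apply, Matrix.one_apply] at h
  rw [← h]
  refine Finset.sum_congr rfl fun k _ => ?_
  rw [Matrix.star_apply]

/-! ### generators -/

/-- Generators of simple one parameter groups. -/
structure Gen (n : ℕ) where
  /-- the projection -/
  D : Matrix (Fin n) (Fin n) ℂ
  /-- the generator -/
  J : Matrix (Fin n) (Fin n) ℂ
  hD : star D = D
  hJ : star J = -J
  hDD : D * D = D
  hDJ : D * J = J
  hJD : J * D = J
  hJJ : J * J = -D

/-- The one parameter group. -/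
noncomputable def Gen.V (G : Gen n) (θ : ℝ) : UG n :=
  ⟨1 + ((Real.cos θ - 1 : ℝ) : ℂ) • G.D + ((Real.sin θ : ℝ) : ℂ) • G.J, by
    rw [Matrix.mem_unitaryGroup_iff']
    have hs : star (1 + ((Real.cos θ - 1 : ℝ) : ℂ) • G.D + ((Real.sin θ : ℝ) : ℂ) • G.J) =
        1 + ((Real.cos θ - 1 : ℝ) : ℂ) • G.D - ((Real.sin θ : ℝ) : ℂ) • G.J := by
      rw [star_add, star_add, star_smul, star_smul, G.hD, G.hJ, star_one, Complex.star_def,
        Complex.conj_ofReal, Complex.conj_ofReal, smul_neg, ← sub_eq_add_neg]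
    rw [hs]
    have hc : (((Real.cos θ - 1 : ℝ) : ℂ)) * ((Real.cos θ - 1 : ℝ) : ℂ) +
        2 * ((Real.cos θ - 1 : ℝ) : ℂ) + ((Real.sin θ : ℝ) : ℂ) * ((Real.sin θ : ℝ) : ℂ) = 0 := by
      have := Real.sin_sq_add_cos_sq θ
      have h2 : (Real.cos θ - 1) * (Real.cos θ - 1) + 2 * (Real.cos θ - 1) +
          Real.sin θ * Real.sin θ = 0 := by nlinarith
      exact_mod_cast h2
    generalize ((Real.cos θ - 1 : ℝ) : ℂ) = c at hc ⊢
    generalize ((Real.sin θ : ℝ) : ℂ) = s at hc ⊢
    have e : (1 + c • G.D - s • G.J) * (1 + c • G.D + s • G.J) =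
        1 + (c * c + 2 * c + s * s) • G.D := by
      simp only [sub_mul, add_mul, mul_add, one_mul, mul_one, smul_mul_assoc, mul_smul_comm,
        G.hDD, G.hDJ, G.hJD, G.hJJ, smul_neg, add_smul]
      module
    rw [e, hc, zero_smul, add_zero]⟩

theorem Gen.V_zero (G : Gen n) : G.V 0 = 1 := by
  apply Subtype.ext
  simp [Gen.V]

/-- Derivative of the entries along a generator. -/
theorem Gen.entry_deriv (G : Gen n) (U : UG n) (α i : Fin n) :
    HasDerivAt (fun θ : ℝ => ((U * G.V θ : UG n) : Matrix (Fin n) (Fin n) ℂ) α i)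
      (∑ k, (U : Matrix (Fin n) (Fin n) ℂ) α k * G.J k i) 0 := by
  have h : ∀ θ : ℝ, ((U * G.V θ : UG n) : Matrix (Fin n) (Fin n) ℂ) α i =
      ∑ k, (U : Matrix (Fin n) (Fin n) ℂ) α k * ((1 : Matrix (Fin n) (Fin n) ℂ) k i +
        ((Real.cos θ - 1 : ℝ) : ℂ) * G.D k i + ((Real.sin θ : ℝ) : ℂ) * G.J k i) := by
    intro θ
    change ((U : Matrix (Fin n) (Fin n) ℂ) * (1 + ((Real.cos θ - 1 : ℝ) : ℂ) • G.D +
      ((Real.sin θ : ℝ) : ℂ) • G.J)) α i = _
    rw [Matrix.mul_apply]
    rfl
  simp only [h]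
  refine HasDerivAt.fun_sum fun k _ => ?_
  refine HasDerivAt.const_mul _ ?_
  have hc : HasDerivAt (fun θ : ℝ => ((Real.cos θ - 1 : ℝ) : ℂ)) ((0 : ℝ) : ℂ) 0 := by
    have h1 : HasDerivAt (fun θ : ℝ => Real.cos θ - 1) (-Real.sin 0) 0 :=
      (Real.hasDerivAt_cos 0).sub_const 1
    rw [Real.sin_zero, neg_zero] at h1
    exact h1.ofReal_comp
  have hs : HasDerivAt (fun θ : ℝ => ((Real.sin θ : ℝ) : ℂ)) ((1 : ℝ) : ℂ) 0 := by
    have h1 : HasDerivAt (fun θ : ℝ => Real.sin θ) (Real.cos 0) 0 := Real.hasDerivAt_sin 0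
    rw [Real.cos_zero] at h1
    exact h1.ofReal_comp
  have h3 := (((hc.mul_const (G.D k i)).const_add ((1 : Matrix (Fin n) (Fin n) ℂ) k i))).add
    (hs.mul_const (G.J k i))
  rw [Complex.ofReal_zero, zero_mul, zero_add, Complex.ofReal_one, one_mul] at h3
  exact h3

theorem Gen.entry_star_deriv (G : Gen n) (U : UG n) (α i : Fin n) :
    HasDerivAt (fun θ : ℝ => star (((U * G.V θ : UG n) : Matrix (Fin n) (Fin n) ℂ) α i))
      (-∑ k, star ((U : Matrix (Fin n) (Fin n) ℂ) α k) * G.J i k) 0 := by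
  have h := (G.entry_deriv U α i).star
  have h2 : star (∑ k, (U : Matrix (Fin n) (Fin n) ℂ) α k * G.J k i) =
      -∑ k, star ((U : Matrix (Fin n) (Fin n) ℂ) α k) * G.J i k := by
    rw [star_sum, ← Finset.sum_neg_distrib]
    refine Finset.sum_congr rfl fun k _ => ?_
    have h3 : star (G.J k i) = - G.J i k := by
      have := congrFun (congrFun G.hJ i) k
      rw [Matrix.star_apply] at this
      exact this
    rw [star_mul', h3]
    ring
  rw [h2] at h
  exact h

/-- the phase generator -/
def G0 (a : Fin n) : Gen n where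
  D := Matrix.single a a 1
  J := Complex.I • Matrix.single a a 1
  hD := by
    rw [Matrix.star_eq_conjTranspose, Matrix.conjTranspose_single, star_one]
  hJ := by
    rw [star_smul, Matrix.star_eq_conjTranspose, Matrix.conjTranspose_single, star_one,
      Complex.star_def, Complex.conj_I, neg_smul]
  hDD := by rw [Matrix.single_mul_single_same, mul_one]
  hDJ := by rw [mul_smul_comm, Matrix.single_mul_single_same, mul_one]
  hJD := by rw [smul_mul_assoc, Matrix.single_mul_single_same, mul_one]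
  hJJ := by
    rw [smul_mul_assoc, mul_smul_comm, Matrix.single_mul_single_same, mul_one, smul_smul,
      Complex.I_mul_I, neg_smul, one_smul]

/-- the real rotation -/
def G1 {a b : Fin n} (h : a ≠ b) : Gen n where
  D := Matrix.single a a 1 + Matrix.single b b 1
  J := Matrix.single b a 1 - Matrix.single a b 1
  hD := by
    rw [star_add, Matrix.star_eq_conjTranspose, Matrix.star_eq_conjTranspose,
      Matrix.conjTranspose_single, Matrix.conjTranspose_single, star_one]
  hJ := by
    rw [star_sub, Matrix.star_eq_conjTranspose, Matrix.star_eq_conjTranspose,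
      Matrix.conjTranspose_single, Matrix.conjTranspose_single, star_one, neg_sub]
  hDD := by
    simp only [mul_add, add_mul, Matrix.single_mul_single_same, mul_one,
      Matrix.single_mul_single_of_ne _ _ _ _ h, Matrix.single_mul_single_of_ne _ _ _ _ h.symm,
      add_zero, zero_add]
  hDJ := by
    simp only [mul_sub, add_mul, Matrix.single_mul_single_same, mul_one,
      Matrix.single_mul_single_of_ne _ _ _ _ h, Matrix.single_mul_single_of_ne _ _ _ _ h.symm,
      add_zero, zero_add]
  hJD := by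
    simp only [mul_add, sub_mul, Matrix.single_mul_single_same, mul_one,
      Matrix.single_mul_single_of_ne _ _ _ _ h, Matrix.single_mul_single_of_ne _ _ _ _ h.symm,
      zero_sub, sub_zero]
    abel
  hJJ := by
    simp only [mul_sub, sub_mul, Matrix.single_mul_single_same, mul_one,
      Matrix.single_mul_single_of_ne _ _ _ _ h, Matrix.single_mul_single_of_ne _ _ _ _ h.symm,
      zero_sub, sub_zero]
    abel

/-- the imaginary rotation -/
def G2 {a b : Fin n} (h : a ≠ b) : Gen n where
  D := Matrix.single a a 1 + Matrix.single b b 1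
  J := Complex.I • (Matrix.single a b 1 + Matrix.single b a 1)
  hD := by
    rw [star_add, Matrix.star_eq_conjTranspose, Matrix.star_eq_conjTranspose,
      Matrix.conjTranspose_single, Matrix.conjTranspose_single, star_one]
  hJ := by
    rw [star_smul, star_add, Matrix.star_eq_conjTranspose, Matrix.star_eq_conjTranspose,
      Matrix.conjTranspose_single, Matrix.conjTranspose_single, star_one, Complex.star_def,
      Complex.conj_I, neg_smul, add_comm]
  hDD := by
    simp only [mul_add, add_mul, Matrix.single_mul_single_same, mul_one,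
      Matrix.single_mul_single_of_ne _ _ _ _ h, Matrix.single_mul_single_of_ne _ _ _ _ h.symm,
      add_zero, zero_add]
  hDJ := by
    simp only [mul_add, add_mul, mul_smul_comm, Matrix.single_mul_single_same, mul_one,
      Matrix.single_mul_single_of_ne _ _ _ _ h, Matrix.single_mul_single_of_ne _ _ _ _ h.symm,
      add_zero, zero_add]
  hJD := by
    simp only [mul_add, add_mul, smul_mul_assoc, Matrix.single_mul_single_same, mul_one,
      Matrix.single_mul_single_of_ne _ _ _ _ h, Matrix.single_mul_single_of_ne _ _ _ _ h.symm,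
      add_zero, zero_add, smul_add, smul_zero]
    rw [add_comm]
  hJJ := by
    simp only [mul_add, add_mul, mul_smul_comm, smul_mul_assoc, Matrix.single_mul_single_same,
      mul_one, Matrix.single_mul_single_of_ne _ _ _ _ h,
      Matrix.single_mul_single_of_ne _ _ _ _ h.symm, add_zero, smul_add, smul_smul,
      Complex.I_mul_I, neg_smul, one_smul, smul_zero, zero_add]
    abel

theorem G1_symm_V {a b : Fin n} (h : a ≠ b) (θ : ℝ) : (G1 h.symm).V θ = (G1 h).V (-θ) := by
  apply Subtype.ext
  change 1 + ((Real.cos θ - 1 : ℝ) : ℂ) • (Matrix.single b b 1 + Matrix.single a a 1) +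
      ((Real.sin θ : ℝ) : ℂ) • (Matrix.single a b 1 - Matrix.single b a 1) =
    1 + ((Real.cos (-θ) - 1 : ℝ) : ℂ) • (Matrix.single a a 1 + Matrix.single b b 1) +
      ((Real.sin (-θ) : ℝ) : ℂ) • (Matrix.single b a 1 - Matrix.single a b (1 : ℂ))
  rw [Real.cos_neg, Real.sin_neg, Complex.ofReal_neg, neg_smul, ← smul_neg, neg_sub,
    add_comm (Matrix.single b b 1)]

theorem G2_symm_V {a b : Fin n} (h : a ≠ b) (θ : ℝ) : (G2 h.symm).V θ = (G2 h).V θ := by
  apply Subtype.ext
  change 1 + ((Real.cos θ - 1 : ℝ) : ℂ) • (Matrix.single b b 1 + Matrix.single a a 1) +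
      ((Real.sin θ : ℝ) : ℂ) • (Complex.I • (Matrix.single b a 1 + Matrix.single a b 1)) =
    1 + ((Real.cos θ - 1 : ℝ) : ℂ) • (Matrix.single a a 1 + Matrix.single b b 1) +
      ((Real.sin θ : ℝ) : ℂ) • (Complex.I • (Matrix.single a b 1 + Matrix.single b a (1 : ℂ)))
  rw [add_comm (Matrix.single b b 1), add_comm (Matrix.single b a 1)]

/-! ### the derivation `D_ab` -/

/-- The complex combination giving the matrix unit `E_ab`. -/
noncomputable def comb (a b : Fin n) (φ : Gen n → ℂ) : ℂ :=
  if h : a = b then -Complex.I * φ (G0 a) else -(φ (G1 h) + Complex.I * φ (G2 h)) / 2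

theorem comb_J (a b k i : Fin n) :
    comb a b (fun G => G.J k i) = if k = a ∧ i = b then 1 else 0 := by
  unfold comb
  split_ifs with h h1 h1
  · subst h
    obtain ⟨rfl, rfl⟩ := h1
    simp [G0]
  · subst h
    have h2 : ¬ (a = k ∧ a = i) := fun h => h1 ⟨h.1.symm, h.2.symm⟩
    simp [G0, h2]
  · obtain ⟨rfl, rfl⟩ := h1
    have h2 : ¬ (i = k) := fun h' => h h'.symm
    simp [G1, G2, h, h2]
  · by_cases h3 : k = b ∧ i = a
    · obtain ⟨rfl, rfl⟩ := h3
      have h2 : ¬ (k = i) := fun h' => h h'.symm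
      simp [G1, G2, h, h2]
    · have h2 : ¬ (a = k ∧ b = i) := fun h => h1 ⟨h.1.symm, h.2.symm⟩
      have h4 : ¬ (b = k ∧ a = i) := fun h => h3 ⟨h.1.symm, h.2.symm⟩
      simp [G1, G2, h2, h4]

theorem comb_add (a b : Fin n) (φ ψ : Gen n → ℂ) :
    comb a b (fun G => φ G + ψ G) = comb a b φ + comb a b ψ := by
  unfold comb
  split_ifs <;> ring

theorem comb_mul_left (a b : Fin n) (c : ℂ) (φ : Gen n → ℂ) :
    comb a b (fun G => c * φ G) = c * comb a b φ := by
  unfold comb
  split_ifs <;> ring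

theorem comb_zero (a b : Fin n) : comb a b (fun _ => 0) = 0 := by
  unfold comb
  split_ifs <;> ring

theorem comb_neg (a b : Fin n) (φ : Gen n → ℂ) :
    comb a b (fun G => - φ G) = - comb a b φ := by
  unfold comb
  split_ifs <;> ring

theorem comb_sum {ι : Type*} (s : Finset ι) (a b : Fin n) (φ : ι → Gen n → ℂ) :
    comb a b (fun G => ∑ i ∈ s, φ i G) = ∑ i ∈ s, comb a b (φ i) := by
  classical
  induction s using Finset.induction_on with
  | empty => simpa using comb_zero a b
  | insert i s hi ih =>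
    simp only [Finset.sum_insert hi]
    rw [comb_add, ih]

/-- `g` is the image of `f` under the derivation `U_(α b) ↦ U_(α a)`,
`conj U_(γ a) ↦ - conj U_(γ b)`. -/
def HasD (a b : Fin n) (f g : UG n → ℂ) : Prop :=
  ∃ f' : Gen n → UG n → ℂ, (∀ G U, HasDerivAt (fun θ : ℝ => f (U * G.V θ)) (f' G U) 0) ∧
    ∀ U, g U = comb a b (fun G => f' G U)

namespace HasD

variable {a b : Fin n} {f g f1 g1 f2 g2 : UG n → ℂ}

theorem congr (h : HasD a b f g) (hf : ∀ U, f1 U = f U) (hg : ∀ U, g1 U = g U) :
    HasD a b f1 g1 := by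
  rw [funext hf, funext hg]
  exact h

theorem const (c : ℂ) : HasD a b (fun _ => c) (fun _ => 0) :=
  ⟨fun _ _ => 0, fun _ _ => hasDerivAt_const _ _, fun _ => (comb_zero a b).symm⟩

theorem entry (α i : Fin n) : HasD a b (fun U : UG n => (U : Matrix (Fin n) (Fin n) ℂ) α i)
    (fun U => if i = b then (U : Matrix (Fin n) (Fin n) ℂ) α a else 0) := by
  refine ⟨_, fun G U => G.entry_deriv U α i, fun U => ?_⟩
  rw [comb_sum]
  simp only [comb_mul_left, comb_J, mul_ite, mul_one, mul_zero, ite_and]
  rw [Finset.sum_ite_eq' Finset.univ a]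
  simp

theorem entry_star (γ j : Fin n) :
    HasD a b (fun U : UG n => star ((U : Matrix (Fin n) (Fin n) ℂ) γ j))
    (fun U => if j = a then - star ((U : Matrix (Fin n) (Fin n) ℂ) γ b) else 0) := by
  refine ⟨_, fun G U => G.entry_star_deriv U γ j, fun U => ?_⟩
  rw [comb_neg, comb_sum]
  simp only [comb_mul_left, comb_J, mul_ite, mul_one, mul_zero, ite_and]
  by_cases h : j = a
  · simp [h]
  · simp [h]

theorem add (h1 : HasD a b f1 g1) (h2 : HasD a b f2 g2) :
    HasD a b (fun U => f1 U + f2 U) (fun U => g1 U + g2 U) := by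
  obtain ⟨p, hp, hp'⟩ := h1
  obtain ⟨q, hq, hq'⟩ := h2
  refine ⟨fun G U => p G U + q G U, fun G U => (hp G U).add (hq G U), fun U => ?_⟩
  rw [comb_add, ← hp', ← hq']

theorem neg (h1 : HasD a b f1 g1) : HasD a b (fun U => - f1 U) (fun U => - g1 U) := by
  obtain ⟨p, hp, hp'⟩ := h1
  refine ⟨fun G U => - p G U, fun G U => (hp G U).neg, fun U => ?_⟩
  rw [comb_neg, ← hp']

theorem sub (h1 : HasD a b f1 g1) (h2 : HasD a b f2 g2) :
    HasD a b (fun U => f1 U - f2 U) (fun U => g1 U - g2 U) :=
  (h1.add h2.neg).congr (fun _ => sub_eq_add_neg _ _) fun _ => sub_eq_add_neg _ _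

theorem smul (c : ℂ) (h1 : HasD a b f1 g1) : HasD a b (fun U => c * f1 U) (fun U => c * g1 U) := by
  obtain ⟨p, hp, hp'⟩ := h1
  refine ⟨fun G U => c * p G U, fun G U => (hp G U).const_mul c, fun U => ?_⟩
  rw [comb_mul_left, ← hp']

theorem mul (h1 : HasD a b f1 g1) (h2 : HasD a b f2 g2) :
    HasD a b (fun U => f1 U * f2 U) (fun U => g1 U * f2 U + f1 U * g2 U) := by
  obtain ⟨p, hp, hp'⟩ := h1
  obtain ⟨q, hq, hq'⟩ := h2
  refine ⟨fun G U => p G U * f2 U + f1 U * q G U, fun G U => ?_, fun U => ?_⟩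
  · have h := (hp G U).mul (hq G U)
    rw [G.V_zero, mul_one] at h
    exact h
  · have e1 : comb a b (fun G => p G U * f2 U) = g1 U * f2 U := by
      rw [hp', mul_comm (comb a b _) (f2 U), ← comb_mul_left]
      exact congrArg _ (funext fun G => mul_comm _ _)
    rw [comb_add, comb_mul_left, ← hq', e1]

theorem sum {ι : Type*} (s : Finset ι) (F F' : ι → UG n → ℂ) (h : ∀ i ∈ s, HasD a b (F i) (F' i)) :
    HasD a b (fun U => ∑ i ∈ s, F i U) (fun U => ∑ i ∈ s, F' i U) := by
  classical
  induction s using Finset.induction_on with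
  | empty => simpa using const (a := a) (b := b) 0
  | insert i s hi ih =>
    simp only [Finset.sum_insert hi]
    exact (h i (Finset.mem_insert_self i s)).add
      (ih fun j hj => h j (Finset.mem_insert_of_mem hj))

/-- The conjugate. -/
theorem star (h1 : HasD b a f g) :
    HasD a b (fun U => Star.star (f U)) (fun U => - Star.star (g U)) := by
  obtain ⟨p, hp, hp'⟩ := h1
  refine ⟨fun G U => Star.star (p G U), fun G U => (hp G U).star, fun U => ?_⟩
  change - Star.star (g U) = comb a b fun G => Star.star (p G U)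
  rw [hp']
  by_cases h : a = b
  · subst h
    simp only [comb, dif_pos, star_mul', star_neg, Complex.star_def, Complex.conj_I]
    ring
  · have h' : b ≠ a := fun h1 => h h1.symm
    have e1 : p (G1 h') U = - p (G1 h) U := by
      have d1 : HasDerivAt (fun θ : ℝ => f (U * (G1 h').V θ)) (- p (G1 h) U) 0 := by
        have d2 := hp (G1 h) U
        have d3 : HasDerivAt (fun θ : ℝ => -θ) (-1) (0 : ℝ) := hasDerivAt_neg 0
        have d4 := HasDerivAt.scomp (x := (0 : ℝ)) (h := fun θ : ℝ => -θ) (h' := -1)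
          (g₁ := fun θ : ℝ => f (U * (G1 h).V θ)) (g₁' := p (G1 h) U)
          (by rw [neg_zero]; exact d2) d3
        rw [neg_smul, one_smul] at d4
        have d5 : (fun θ : ℝ => f (U * (G1 h').V θ)) =
            (fun θ : ℝ => f (U * (G1 h).V θ)) ∘ (fun θ : ℝ => -θ) := by
          funext θ
          change f (U * (G1 h').V θ) = f (U * (G1 h).V (-θ))
          rw [G1_symm_V h]
        rw [d5]
        exact d4
      exact (hp (G1 h') U).unique d1
    have e2 : p (G2 h') U = p (G2 h) U := by
      have d2 := hp (G2 h) U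
      have d5 : (fun θ : ℝ => f (U * (G2 h').V θ)) = (fun θ : ℝ => f (U * (G2 h).V θ)) := by
        funext θ
        rw [G2_symm_V h]
      rw [← d5] at d2
      exact (hp (G2 h') U).unique d2
    simp only [comb, dif_neg h, dif_neg h', e1, e2]
    simp only [Complex.star_def, map_neg, map_div₀, map_add, map_mul, Complex.conj_I,
      Complex.conj_ofNat]
    ring

end HasD

/-- **The infinitesimal rule**: averages of derivatives vanish. -/
theorem Av_HasD (δ : Design n D) {a b : Fin n} {f g : UG n → ℂ} (hf : PolLe D f)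
    (h : HasD a b f g) : Av δ g = 0 := by
  obtain ⟨p, hp, hp'⟩ := h
  have key : ∀ G : Gen n, Av δ (p G) = 0 := by
    intro G
    have h1 : HasDerivAt (fun θ : ℝ => Av δ (fun U => f (U * G.V θ))) (Av δ (p G)) 0 := by
      unfold Av
      exact HasDerivAt.fun_sum fun k _ => (hp G (δ.u k)).const_smul (δ.w k)
    have h2 : (fun θ : ℝ => Av δ (fun U => f (U * G.V θ))) = fun _ => Av δ f := by
      funext θ
      exact Av_right δ hf _
    rw [h2] at h1
    exact h1.unique (hasDerivAt_const _ _)
  have h3 : Av δ g = comb a b (fun G => Av δ (p G)) := by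
    rw [Av_eq]
    simp only [Av_eq]
    rw [comb_sum]
    refine Finset.sum_congr rfl fun k _ => ?_
    rw [comb_mul_left, hp']
  rw [h3]
  simp only [key]
  exact comb_zero a b

end Pool.Agent.H92U
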