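import Pool.Agent.Lib.H92U.U3

/-! # H92U/U4: matrix valued polynomials and their derivations; permutations of the frame -/

namespace Pool.Agent.H92U

open Matrix

variable {n D D' : ℕ} {p q r : Type*}

theorem rot_apply (U : UG n) (A : Fin n → Matrix p q ℂ) (i : Fin n) (x : p) (y : q) :
    (rot U A i) x y = ∑ j, A j x y * (U : Matrix (Fin n) (Fin n) ℂ) j i := by
  unfold rot
  rw [Matrix.sum_apply]
  exact Finset.sum_congr rfl fun j _ => by rw [Matrix.smul_apply, smul_eq_mul, mul_comm]

/-- Matrix valued polynomials of degree at most `D`. -/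
def PolM (D : ℕ) (F : UG n → Matrix p q ℂ) : Prop := ∀ i j, PolLe D (fun U => F U i j)

/-- Matrix valued derivation `D_ab`. -/
def HasDM (a b : Fin n) (F G : UG n → Matrix p q ℂ) : Prop :=
  ∀ i j, HasD a b (fun U => F U i j) (fun U => G U i j)

namespace PolM

variable {F F1 F2 : UG n → Matrix p q ℂ}

theorem congr (h : PolM D F) (h1 : ∀ U, F1 U = F U) : PolM D F1 := by
  rw [funext h1]
  exact h

theorem mono (h : D ≤ D') (hF : PolM D F) : PolM D' F := fun i j => (hF i j).mono h

theorem const (c : Matrix p q ℂ) : PolM (n := n) D (fun _ => c) := fun _ _ => PolLe.const _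

theorem add (h1 : PolM D F1) (h2 : PolM D F2) : PolM D (fun U => F1 U + F2 U) :=
  fun i j => (h1 i j).add (h2 i j)

theorem sub (h1 : PolM D F1) (h2 : PolM D F2) : PolM D (fun U => F1 U - F2 U) :=
  fun i j => (h1 i j).sub (h2 i j)

theorem neg (h1 : PolM D F1) : PolM D (fun U => - F1 U) := fun i j => (h1 i j).neg

theorem smul (c : ℂ) (h1 : PolM D F1) : PolM D (fun U => c • F1 U) := fun i j => (h1 i j).smul c

theorem smul_fun {f : UG n → ℂ} (hf : PolLe D f) (h1 : PolM D' F1) :
    PolM (D + D') (fun U => f U • F1 U) := fun i j => hf.mul (h1 i j)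

theorem sum {ι : Type*} (s : Finset ι) (F : ι → UG n → Matrix p q ℂ) (h : ∀ i ∈ s, PolM D (F i)) :
    PolM D (fun U => ∑ i ∈ s, F i U) := by
  intro i j
  have h2 := PolLe.sum s (fun k U => F k U i j) fun k hk => h k hk i j
  have h3 : (fun U => (∑ k ∈ s, F k U) i j) = fun U => ∑ k ∈ s, F k U i j := by
    funext U
    rw [Matrix.sum_apply]
  rw [h3]
  exact h2

theorem mul [Fintype q] {F : UG n → Matrix p q ℂ} {G : UG n → Matrix q r ℂ} (h1 : PolM D F)
    (h2 : PolM D' G) : PolM (D + D') (fun U => F U * G U) := by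
  intro i j
  have h3 : (fun U => (F U * G U) i j) = fun U => ∑ k, F U i k * G U k j := by
    funext U
    rw [Matrix.mul_apply]
  rw [h3]
  exact PolLe.sum _ _ fun k _ => (h1 i k).mul (h2 k j)

theorem conjTranspose (h1 : PolM D F) : PolM D (fun U => (F U)ᴴ) := fun i j => (h1 j i).star

theorem trace [Fintype p] {F : UG n → Matrix p p ℂ} (h1 : PolM D F) :
    PolLe D (fun U => (F U).trace) :=
  PolLe.sum _ (fun i U => F U i i) fun i _ => h1 i i

theorem rot (A : Fin n → Matrix p q ℂ) (i : Fin n) : PolM 1 (fun U => rot U A i) := by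
  intro x y
  have h3 : (fun U : UG n => (H92U.rot U A i) x y) =
      fun U : UG n => ∑ j, A j x y * (U : Matrix (Fin n) (Fin n) ℂ) j i := by
    funext U
    exact rot_apply U A i x y
  rw [h3]
  exact PolLe.sum _ _ fun j _ => (PolLe.entry j i).smul _

end PolM

namespace HasDM

variable {a b : Fin n} {F G F1 G1 F2 G2 : UG n → Matrix p q ℂ}

theorem congr (h : HasDM a b F G) (hf : ∀ U, F1 U = F U) (hg : ∀ U, G1 U = G U) :
    HasDM a b F1 G1 := by
  rw [funext hf, funext hg]
  exact h

theorem const (c : Matrix p q ℂ) : HasDM a b (fun _ => c) (fun _ => 0) := fun _ _ => HasD.const _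

theorem add (h1 : HasDM a b F1 G1) (h2 : HasDM a b F2 G2) :
    HasDM a b (fun U => F1 U + F2 U) (fun U => G1 U + G2 U) := fun i j => (h1 i j).add (h2 i j)

theorem sub (h1 : HasDM a b F1 G1) (h2 : HasDM a b F2 G2) :
    HasDM a b (fun U => F1 U - F2 U) (fun U => G1 U - G2 U) := fun i j => (h1 i j).sub (h2 i j)

theorem neg (h1 : HasDM a b F1 G1) : HasDM a b (fun U => - F1 U) (fun U => - G1 U) :=
  fun i j => (h1 i j).neg

theorem smul (c : ℂ) (h1 : HasDM a b F1 G1) :
    HasDM a b (fun U => c • F1 U) (fun U => c • G1 U) := fun i j => (h1 i j).smul c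

theorem smul_fun {f g : UG n → ℂ} (h : HasD a b f g) (h1 : HasDM a b F1 G1) :
    HasDM a b (fun U => f U • F1 U) (fun U => g U • F1 U + f U • G1 U) :=
  fun i j => h.mul (h1 i j)

theorem sum {ι : Type*} (s : Finset ι) (F F' : ι → UG n → Matrix p q ℂ)
    (h : ∀ i ∈ s, HasDM a b (F i) (F' i)) :
    HasDM a b (fun U => ∑ i ∈ s, F i U) (fun U => ∑ i ∈ s, F' i U) := by
  intro i j
  have h2 := HasD.sum s (fun k U => F k U i j) (fun k U => F' k U i j) fun k hk => h k hk i j
  exact h2.congr (fun U => Matrix.sum_apply _ _ _ _) fun U => Matrix.sum_apply _ _ _ _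

theorem mul [Fintype q] {F F' : UG n → Matrix p q ℂ} {G G' : UG n → Matrix q r ℂ}
    (h1 : HasDM a b F F') (h2 : HasDM a b G G') :
    HasDM a b (fun U => F U * G U) (fun U => F' U * G U + F U * G' U) := by
  intro i j
  have h3 := HasD.sum Finset.univ (fun k U => F U i k * G U k j)
    (fun k U => F' U i k * G U k j + F U i k * G' U k j) fun k _ => (h1 i k).mul (h2 k j)
  refine h3.congr (fun U => Matrix.mul_apply) fun U => ?_
  change (F' U * G U + F U * G' U) i j = _
  rw [Matrix.add_apply, Matrix.mul_apply, Matrix.mul_apply, Finset.sum_add_distrib]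

theorem conjTranspose (h1 : HasDM b a F G) : HasDM a b (fun U => (F U)ᴴ) (fun U => - (G U)ᴴ) :=
  fun i j => (h1 j i).star

theorem trace [Fintype p] {F G : UG n → Matrix p p ℂ} (h1 : HasDM a b F G) :
    HasD a b (fun U => (F U).trace) (fun U => (G U).trace) :=
  HasD.sum _ (fun i U => F U i i) (fun i U => G U i i) fun i _ => h1 i i

theorem rot (A : Fin n → Matrix p q ℂ) (i : Fin n) :
    HasDM a b (fun U => rot U A i) (fun U => if i = b then H92U.rot U A a else 0) := by
  intro x y
  have h := HasD.sum Finset.univ (fun j (U : UG n) => A j x y * (U : Matrix (Fin n) (Fin n) ℂ) j i)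
    (fun j U => A j x y * (if i = b then (U : Matrix (Fin n) (Fin n) ℂ) j a else 0))
    (fun j _ => (HasD.entry (a := a) (b := b) j i).smul (A j x y))
  refine h.congr (fun U => rot_apply U A i x y) fun U => ?_
  by_cases hi : i = b
  · simp only [hi, if_true]
    exact rot_apply U A a x y
  · simp only [hi, if_false, mul_zero, Finset.sum_const_zero, Matrix.zero_apply]

/-- The adjoint of a member of the rotated family. -/
theorem rotH (A : Fin n → Matrix p q ℂ) (j : Fin n) :
    HasDM a b (fun U => (H92U.rot U A j)ᴴ)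
      (fun U => if j = a then - (H92U.rot U A b)ᴴ else 0) := by
  have h := (HasDM.rot (a := b) (b := a) A j).conjTranspose
  refine h.congr (fun _ => rfl) fun U => ?_
  by_cases hj : j = a
  · simp [hj]
  · simp [hj]

end HasDM

/-- The averages of matrix valued functions, entrywise. -/
theorem Av_apply (δ : Design n D) (F : UG n → Matrix p q ℂ) (i : p) (j : q) :
    (Av δ F) i j = Av δ (fun U => F U i j) := by
  unfold Av
  rw [Matrix.sum_apply]
  rfl

/-- **The infinitesimal rule**, matrix valued. -/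
theorem Av_HasDM (δ : Design n D) {a b : Fin n} {F G : UG n → Matrix p q ℂ} (hF : PolM D F)
    (h : HasDM a b F G) : Av δ G = 0 := by
  ext i j
  rw [Av_apply, Matrix.zero_apply]
  exact Av_HasD δ (hF i j) (h i j)

theorem Av_trace (δ : Design n D) [Fintype p] (F : UG n → Matrix p p ℂ) :
    Av δ (fun U => (F U).trace) = (Av δ F).trace := by
  unfold Matrix.trace
  rw [Av_sum]
  refine Finset.sum_congr rfl fun i _ => ?_
  rw [Matrix.diag_apply, Av_apply]
  rfl

/-! ### permutations of the frame -/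

/-- The permutation matrix, as a unitary. -/
def permU (σ : Equiv.Perm (Fin n)) : UG n :=
  ⟨Matrix.of fun k i => if k = σ i then 1 else 0, by
    rw [Matrix.mem_unitaryGroup_iff']
    ext i j
    rw [Matrix.mul_apply, Matrix.one_apply]
    simp only [Matrix.star_apply, Matrix.of_apply, apply_ite (star : ℂ → ℂ), star_one, star_zero,
      ite_mul, one_mul, zero_mul]
    rw [Finset.sum_ite_eq' Finset.univ (σ i)]
    simp only [Finset.mem_univ, if_true, EmbeddingLike.apply_eq_iff_eq]⟩

theorem mul_permU_apply (σ : Equiv.Perm (Fin n)) (U : UG n) (α i : Fin n) :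
    ((U * permU σ : UG n) : Matrix (Fin n) (Fin n) ℂ) α i =
      (U : Matrix (Fin n) (Fin n) ℂ) α (σ i) := by
  change ((U : Matrix (Fin n) (Fin n) ℂ) *
    (Matrix.of fun k i => if k = σ i then (1 : ℂ) else 0)) α i = _
  rw [Matrix.mul_apply]
  simp

theorem rot_permU {M : Type*} [AddCommGroup M] [Module ℂ M] (σ : Equiv.Perm (Fin n)) (U : UG n)
    (A : Fin n → M) (i : Fin n) : rot (U * permU σ) A i = rot U A (σ i) := by
  unfold rot
  simp only [mul_permU_apply]

/-- Completeness: sums over the frame of sesquilinear expressions are frame independent. -/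
theorem sum_rot_sesq {M N : Type*} [AddCommGroup M] [Module ℂ M] [AddCommGroup N] [Module ℂ N]
    (U : UG n) (A B : Fin n → M) (Φ : M → M → N)
    (hadd1 : ∀ x y z, Φ (x + y) z = Φ x z + Φ y z) (hadd2 : ∀ x y z, Φ x (y + z) = Φ x y + Φ x z)
    (hs1 : ∀ (c : ℂ) x y, Φ (c • x) y = c • Φ x y)
    (hs2 : ∀ (c : ℂ) x y, Φ x (c • y) = star c • Φ x y) :
    ∑ i, Φ (rot U A i) (rot U B i) = ∑ j, Φ (A j) (B j) := by
  classical
  have hz1 : ∀ y, Φ 0 y = 0 := fun y => by simpa using hs1 0 0 y
  have hz2 : ∀ y, Φ y 0 = 0 := fun y => by simpa using hs2 0 y 0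
  have hsum1 : ∀ (s : Finset (Fin n)) (f : Fin n → M) (y : M),
      Φ (∑ i ∈ s, f i) y = ∑ i ∈ s, Φ (f i) y := by
    intro s f y
    induction s using Finset.induction_on with
    | empty => simpa using hz1 y
    | insert i s hi ih => rw [Finset.sum_insert hi, Finset.sum_insert hi, hadd1, ih]
  have hsum2 : ∀ (s : Finset (Fin n)) (f : Fin n → M) (y : M),
      Φ y (∑ i ∈ s, f i) = ∑ i ∈ s, Φ y (f i) := by
    intro s f y
    induction s using Finset.induction_on with
    | empty => simpa using hz2 y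
    | insert i s hi ih => rw [Finset.sum_insert hi, Finset.sum_insert hi, hadd2, ih]
  unfold rot
  simp only [hsum1, hsum2, hs1, hs2]
  rw [Finset.sum_comm]
  refine Finset.sum_congr rfl fun j _ => ?_
  rw [Finset.sum_comm]
  have h : ∀ k, ∑ i, (U : Matrix (Fin n) (Fin n) ℂ) j i • (star ((U : Matrix (Fin n) (Fin n) ℂ) k i)
      • Φ (A j) (B k)) = (if j = k then (1 : ℂ) else 0) • Φ (A j) (B k) := by
    intro k
    rw [← row_orth U j k, Finset.sum_smul]
    exact Finset.sum_congr rfl fun i _ => by rw [smul_smul]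
  simp only [h, ite_smul, one_smul, zero_smul]
  rw [Finset.sum_ite_eq Finset.univ j]
  simp

end Pool.Agent.H92U
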