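import Pool.Agent.Lib.H92U.U4

/-! # H92U/U5: tensor fields on the frame bundle and their averages

A tensor field of type `(p,q)` has `p` slots in which the frame vectors enter linearly and `q`
slots in which they enter conjugate linearly; only the infinitesimal rule is used. -/

namespace Pool.Agent.H92U

open Matrix

variable {n D D' : ℕ}

/-- Type (1,0). -/
def Ten10 (D : ℕ) (T : Fin n → UG n → ℂ) : Prop :=
  (∀ i, PolLe D (T i)) ∧ ∀ a b i, HasD a b (T i) (fun U => if i = b then T a U else 0)

/-- Type (1,1). -/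
def Ten11 (D : ℕ) (T : Fin n → Fin n → UG n → ℂ) : Prop :=
  (∀ i k, PolLe D (T i k)) ∧ ∀ a b i k, HasD a b (T i k)
    (fun U => (if i = b then T a k U else 0) - (if k = a then T i b U else 0))

/-- Type (2,1). -/
def Ten21 (D : ℕ) (T : Fin n → Fin n → Fin n → UG n → ℂ) : Prop :=
  (∀ i j k, PolLe D (T i j k)) ∧ ∀ a b i j k, HasD a b (T i j k)
    (fun U => (if i = b then T a j k U else 0) + (if j = b then T i a k U else 0) -
      (if k = a then T i j b U else 0))

/-- Type (2,2). -/
def Ten22 (D : ℕ) (T : Fin n → Fin n → Fin n → Fin n → UG n → ℂ) : Prop :=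
  (∀ i j k l, PolLe D (T i j k l)) ∧ ∀ a b i j k l, HasD a b (T i j k l)
    (fun U => (if i = b then T a j k l U else 0) + (if j = b then T i a k l U else 0) -
      (if k = a then T i j b l U else 0) - (if l = a then T i j k b U else 0))

/-! ### contractions and products -/

theorem Ten11.sum {ι : Type*} (s : Finset ι) (T : ι → Fin n → Fin n → UG n → ℂ)
    (h : ∀ x ∈ s, Ten11 D (T x)) : Ten11 D (fun i k U => ∑ x ∈ s, T x i k U) := by
  refine ⟨fun i k => PolLe.sum s (fun x => T x i k) fun x hx => (h x hx).1 i k,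
    fun a b i k => ?_⟩
  refine (HasD.sum s (fun x => T x i k) (fun x U => (if i = b then T x a k U else 0) -
    (if k = a then T x i b U else 0)) fun x hx => (h x hx).2 a b i k).congr (fun _ => rfl)
    fun U => ?_
  rw [Finset.sum_sub_distrib]
  congr 1
  · split_ifs <;> simp
  · split_ifs <;> simp

theorem Ten21.contr {T : Fin n → Fin n → Fin n → UG n → ℂ} (h : Ten21 D T) :
    Ten10 D (fun i U => ∑ k, T i k k U) := by
  refine ⟨fun i => PolLe.sum _ (fun k => T i k k) fun k _ => h.1 i k k, fun a b i => ?_⟩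
  refine (HasD.sum Finset.univ (fun k => T i k k) _ fun k _ => h.2 a b i k k).congr (fun _ => rfl)
    fun U => ?_
  rw [Finset.sum_sub_distrib, Finset.sum_add_distrib, Finset.sum_ite_eq' Finset.univ b,
    Finset.sum_ite_eq' Finset.univ a]
  simp only [Finset.mem_univ, if_true]
  split_ifs <;> simp

theorem Ten22.contr13 {T : Fin n → Fin n → Fin n → Fin n → UG n → ℂ} (h : Ten22 D T) :
    Ten11 D (fun j l U => ∑ i, T i j i l U) := by
  refine ⟨fun j l => PolLe.sum _ (fun i => T i j i l) fun i _ => h.1 i j i l, fun a b j l => ?_⟩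
  refine (HasD.sum Finset.univ (fun i => T i j i l) _ fun i _ => h.2 a b i j i l).congr
    (fun _ => rfl) fun U => ?_
  rw [Finset.sum_sub_distrib, Finset.sum_sub_distrib, Finset.sum_add_distrib,
    Finset.sum_ite_eq' Finset.univ b, Finset.sum_ite_eq' Finset.univ a]
  simp only [Finset.mem_univ, if_true]
  split_ifs <;> (try simp only [Finset.sum_const_zero]) <;> ring

theorem Ten22.contr14 {T : Fin n → Fin n → Fin n → Fin n → UG n → ℂ} (h : Ten22 D T) :
    Ten11 D (fun j k U => ∑ i, T i j k i U) := by
  refine ⟨fun j k => PolLe.sum _ (fun i => T i j k i) fun i _ => h.1 i j k i, fun a b j k => ?_⟩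
  refine (HasD.sum Finset.univ (fun i => T i j k i) _ fun i _ => h.2 a b i j k i).congr
    (fun _ => rfl) fun U => ?_
  rw [Finset.sum_sub_distrib, Finset.sum_sub_distrib, Finset.sum_add_distrib,
    Finset.sum_ite_eq' Finset.univ b, Finset.sum_ite_eq' Finset.univ a]
  simp only [Finset.mem_univ, if_true]
  split_ifs <;> (try simp only [Finset.sum_const_zero]) <;> ring

theorem Ten22.swapHol {T : Fin n → Fin n → Fin n → Fin n → UG n → ℂ} (h : Ten22 D T) :
    Ten22 D (fun i j k l => T j i k l) := by
  refine ⟨fun i j k l => h.1 j i k l, fun a b i j k l => ?_⟩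
  refine (h.2 a b j i k l).congr (fun _ => rfl) fun U => ?_
  ring

theorem Ten22.swapAnti {T : Fin n → Fin n → Fin n → Fin n → UG n → ℂ} (h : Ten22 D T) :
    Ten22 D (fun i j k l => T i j l k) := by
  refine ⟨fun i j k l => h.1 i j l k, fun a b i j k l => ?_⟩
  refine (h.2 a b i j l k).congr (fun _ => rfl) fun U => ?_
  ring

theorem Ten11.contr_const {T : Fin n → Fin n → UG n → ℂ} (h : Ten11 D T) (a b : Fin n) :
    HasD a b (fun U => ∑ i, T i i U) (fun _ => 0) := by
  refine (HasD.sum Finset.univ (fun i => T i i) _ fun i _ => h.2 a b i i).congr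
    (fun _ => rfl) fun U => ?_
  rw [Finset.sum_sub_distrib, Finset.sum_ite_eq' Finset.univ b, Finset.sum_ite_eq' Finset.univ a]
  simp

/-- `S(i|k) conj T(l|j)` has type (2,2). -/
theorem Ten11.mulStar {S T : Fin n → Fin n → UG n → ℂ} (hS : Ten11 D S) (hT : Ten11 D' T) :
    Ten22 (D + D') (fun i j k l U => S i k U * star (T l j U)) := by
  refine ⟨fun i j k l => (hS.1 i k).mul (hT.1 l j).star, fun a b i j k l => ?_⟩
  refine ((hS.2 a b i k).mul (hT.2 b a l j).star).congr (fun _ => rfl) fun U => ?_
  split_ifs <;> simp <;> ring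

/-- `S(i) conj T(k)` has type (1,1). -/
theorem Ten10.mulStar {S T : Fin n → UG n → ℂ} (hS : Ten10 D S) (hT : Ten10 D' T) :
    Ten11 (D + D') (fun i k U => S i U * star (T k U)) := by
  refine ⟨fun i k => (hS.1 i).mul (hT.1 k).star, fun a b i k => ?_⟩
  refine ((hS.2 a b i).mul (hT.2 b a k).star).congr (fun _ => rfl) fun U => ?_
  split_ifs <;> simp <;> ring

/-! ### reduction formulas -/

/-- Type (1,1). -/
theorem Av_T11 (δ : Design n D) {T : Fin n → Fin n → UG n → ℂ} (hT : Ten11 D T) (a : Fin n) :
    (n : ℂ) * Av δ (T a a) = Av δ (fun U => ∑ i, T i i U) := by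
  have h : ∀ b, Av δ (T b b) = Av δ (T a a) := by
    intro b
    by_cases hab : b = a
    · rw [hab]
    · have h1 := Av_HasD δ (hT.1 b a) (hT.2 a b b a)
      simp only [if_true] at h1
      rw [Av_sub, sub_eq_zero] at h1
      exact h1.symm
  rw [Av_sum, Finset.sum_congr rfl fun b _ => h b, Finset.sum_const, Finset.card_univ,
    Fintype.card_fin, nsmul_eq_mul]

/-- Type (2,2), one step. -/
theorem Av_T22_step (δ : Design n D) {T : Fin n → Fin n → Fin n → Fin n → UG n → ℂ}
    (hT : Ten22 D T) (a : Fin n) :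
    ((n : ℂ) + 1) * Av δ (T a a a a) =
      Av δ (fun U => ∑ i, T i a i a U) + Av δ (fun U => ∑ i, T i a a i U) := by
  have h : ∀ b, b ≠ a → Av δ (T a a a a) = Av δ (T b a b a) + Av δ (T b a a b) := by
    intro b hab
    have h1 := Av_HasD δ (hT.1 b a a a) (hT.2 a b b a a a)
    have hab' : ¬ (a = b) := fun h => hab h.symm
    simp only [if_true, hab', if_false, add_zero] at h1
    rw [Av_sub, Av_sub] at h1
    linear_combination h1
  have h2 : ∑ b, (if b = a then 2 * Av δ (T a a a a) else Av δ (T a a a a)) =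
      ∑ b, (Av δ (T b a b a) + Av δ (T b a a b)) := by
    refine Finset.sum_congr rfl fun b _ => ?_
    by_cases hb : b = a
    · rw [if_pos hb, hb]
      ring
    · rw [if_neg hb]
      exact h b hb
  rw [Av_sum, Av_sum, ← Finset.sum_add_distrib, ← h2]
  have h3 : ∀ b, (if b = a then 2 * Av δ (T a a a a) else Av δ (T a a a a)) =
      Av δ (T a a a a) + if b = a then Av δ (T a a a a) else 0 := by
    intro b
    split_ifs <;> ring
  simp only [h3, Finset.sum_add_distrib, Finset.sum_const, Finset.card_univ, Fintype.card_fin,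
    nsmul_eq_mul, Finset.sum_ite_eq', Finset.mem_univ, if_true]
  ring

/-- Type (2,2), all slots equal. -/
theorem Av_T22 (δ : Design n D) {T : Fin n → Fin n → Fin n → Fin n → UG n → ℂ}
    (hT : Ten22 D T) (a : Fin n) :
    (n : ℂ) * ((n : ℂ) + 1) * Av δ (T a a a a) =
      Av δ (fun U => ∑ i, ∑ j, T i j i j U) + Av δ (fun U => ∑ i, ∑ j, T i j j i U) := by
  have h1 := Av_T22_step δ hT a
  have h2 := Av_T11 δ hT.contr13 a
  have h3 := Av_T11 δ hT.contr14 a
  have e2 : (fun U => ∑ i, ∑ j, T i j i j U) = fun U => ∑ j, ∑ i, T i j i j U := by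
    funext U
    exact Finset.sum_comm
  have e3 : (fun U => ∑ i, ∑ j, T i j j i U) = fun U => ∑ j, ∑ i, T i j j i U := by
    funext U
    exact Finset.sum_comm
  rw [e2, e3, ← h2, ← h3]
  linear_combination (n : ℂ) * h1

/-- Type (2,2), slots `(ab|ab)` for `a ≠ b`. -/
theorem Av_T22_off (δ : Design n D) {T : Fin n → Fin n → Fin n → Fin n → UG n → ℂ}
    (hT : Ten22 D T) {a b : Fin n} (hab : b ≠ a) :
    (n : ℂ) * ((n : ℂ) + 1) * ((n : ℂ) - 1) * Av δ (T b a b a) =
      (n : ℂ) * Av δ (fun U => ∑ i, ∑ j, T i j i j U) - Av δ (fun U => ∑ i, ∑ j, T i j j i U) := by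
  have h1 := Av_T22 δ hT a
  have h2 := Av_T11 δ hT.contr13 a
  have e2 : (fun U => ∑ i, ∑ j, T i j i j U) = fun U => ∑ j, ∑ i, T i j i j U := by
    funext U
    exact Finset.sum_comm
  have h : ∀ c, c ≠ a → Av δ (T c a c a) = Av δ (T b a b a) := by
    intro c hc
    by_cases hcb : c = b
    · rw [hcb]
    · have h3 := Av_HasD δ (hT.1 b a c a) (hT.2 c b b a c a)
      have h4 : ¬ (a = b) := fun h => hab h.symm
      have h5 : ¬ (a = c) := fun h => hc h.symm
      simp only [if_true, h4, h5, if_false, add_zero, sub_zero] at h3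
      rw [Av_sub, sub_eq_zero] at h3
      exact h3
  have h6 : Av δ (fun U => ∑ i, T i a i a U) =
      ((n : ℂ) - 1) * Av δ (T b a b a) + Av δ (T a a a a) := by
    rw [Av_sum, Finset.sum_congr rfl (g := fun i => Av δ (T b a b a) +
      if i = a then Av δ (T a a a a) - Av δ (T b a b a) else 0) fun i _ => ?_]
    · rw [Finset.sum_add_distrib, Finset.sum_const, Finset.card_univ, Fintype.card_fin,
        nsmul_eq_mul, Finset.sum_ite_eq' Finset.univ a]
      simp only [Finset.mem_univ, if_true]
      ring
    · by_cases hi : i = a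
      · rw [if_pos hi, hi]
        ring
      · rw [if_neg hi, add_zero]
        exact h i hi
  have e3 : Av δ (fun U => ∑ i, ∑ j, T i j i j U) =
      (n : ℂ) * (((n : ℂ) - 1) * Av δ (T b a b a) + Av δ (T a a a a)) := by
    rw [e2, ← h2, h6]
  linear_combination (-1 : ℂ) * h1 - ((n : ℂ) + 1) * e3

/-! ### type (2,1), symmetric in the first two slots -/

section T21

variable {T : Fin n → Fin n → Fin n → UG n → ℂ}

/-- `2 Av |T(ab|a)|^2 = Av |T(aa|a)|^2 - Av T(ab|b) conj T(aa|a)` for `a ≠ b`. -/
theorem Av_T21_pair (δ : Design n (D + D)) (hT : Ten21 D T) (hs : ∀ i j k, T i j k = T j i k)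
    {a b : Fin n} (hab : b ≠ a) :
    2 * Av δ (fun U => T a b a U * star (T a b a U)) =
      Av δ (fun U => T a a a U * star (T a a a U)) - Av δ (fun U => T a b b U * star (T a a a U)) := by
  have hab' : ¬ (a = b) := fun h => hab h.symm
  have hp := (hT.1 a b a).mul (hT.1 a a a).star
  have h1 := Av_HasD δ hp ((hT.2 a b a b a).mul (hT.2 b a a a a).star)
  have e : (fun U => ((if a = b then T a b a U else 0) + (if b = b then T a a a U else 0) -
      (if a = a then T a b b U else 0)) * star (T a a a U) +
      T a b a U * -star ((if a = a then T b a a U else 0) + (if a = a then T a b a U else 0) -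
      (if a = b then T a a a U else 0))) = fun U => (T a a a U * star (T a a a U) -
      T a b b U * star (T a a a U)) - 2 * (T a b a U * star (T a b a U)) := by
    funext U
    simp only [hab', if_true, if_false, zero_add, sub_zero, hs b a a, star_add]
    ring
  rw [e, Av_sub, Av_sub, Av_mul_left] at h1
  linear_combination -h1

/-- `Av t(a) conj T(aa|a) = 2 Av t(b) conj T(ab|a)` for `a ≠ b` and `t` of type (1,0). -/
theorem Av_T21_t (δ : Design n (D' + D)) (hT : Ten21 D T) (hs : ∀ i j k, T i j k = T j i k)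
    {t : Fin n → UG n → ℂ} (ht : Ten10 D' t) {a b : Fin n} (hab : b ≠ a) :
    Av δ (fun U => t a U * star (T a a a U)) = 2 * Av δ (fun U => t b U * star (T a b a U)) := by
  have hab' : ¬ (a = b) := fun h => hab h.symm
  have hp := (ht.1 b).mul (hT.1 a a a).star
  have h1 := Av_HasD δ hp ((ht.2 a b b).mul (hT.2 b a a a a).star)
  have e : (fun U => (if b = b then t a U else 0) * star (T a a a U) +
      t b U * -star ((if a = a then T b a a U else 0) + (if a = a then T a b a U else 0) -
      (if a = b then T a a a U else 0))) = fun U => t a U * star (T a a a U) -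
      2 * (t b U * star (T a b a U)) := by
    funext U
    simp only [hab', if_true, if_false, sub_zero, hs b a a, star_add]
    ring
  rw [e, Av_sub, Av_mul_left] at h1
  linear_combination h1

/-- `(n+1) ∑_a Av t(a) conj T(aa|a) = 2 Av ∑_a t(a) conj T_1(a)`. -/
theorem Av_T21_trace (δ : Design n (D' + D)) (hT : Ten21 D T) (hs : ∀ i j k, T i j k = T j i k)
    {t : Fin n → UG n → ℂ} (ht : Ten10 D' t) :
    ((n : ℂ) + 1) * ∑ a, Av δ (fun U => t a U * star (T a a a U)) =
      2 * Av δ (fun U => ∑ a, t a U * star (∑ k, T a k k U)) := by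
  have h1 : ∀ a b, 2 * Av δ (fun U => t b U * star (T a b a U)) =
      Av δ (fun U => t a U * star (T a a a U)) +
        if b = a then Av δ (fun U => t a U * star (T a a a U)) else 0 := by
    intro a b
    by_cases hb : b = a
    · rw [if_pos hb, hb]
      ring
    · rw [if_neg hb, add_zero]
      exact (Av_T21_t δ hT hs ht hb).symm
  have h2 : Av δ (fun U => ∑ b, t b U * star (∑ k, T b k k U)) =
      ∑ b, ∑ a, Av δ (fun U => t b U * star (T a b a U)) := by
    rw [Av_sum]
    refine Finset.sum_congr rfl fun b _ => ?_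
    rw [← Av_sum]
    refine Av_congr δ fun U => ?_
    rw [star_sum, Finset.mul_sum]
    exact Finset.sum_congr rfl fun a _ => by rw [hs b a a]
  have h3 : 2 * Av δ (fun U => ∑ b, t b U * star (∑ k, T b k k U)) =
      ∑ b, ∑ a, (Av δ (fun U => t a U * star (T a a a U)) +
        if b = a then Av δ (fun U => t a U * star (T a a a U)) else 0) := by
    rw [h2, Finset.mul_sum]
    refine Finset.sum_congr rfl fun b _ => ?_
    rw [Finset.mul_sum]
    exact Finset.sum_congr rfl fun a _ => h1 a b
  rw [h3]
  simp only [Finset.sum_add_distrib, Finset.sum_const, Finset.card_univ, Fintype.card_fin,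
    nsmul_eq_mul, Finset.sum_ite_eq, Finset.mem_univ, if_true]
  ring

/-- `4 ∑_{a≠b} Av |T(ab|a)|^2 = 2n ∑_a Av |T(aa|a)|^2 - (4/(n+1)) |t|^2`. -/
theorem Av_T21_main (δ : Design n (D + D)) (hT : Ten21 D T) (hs : ∀ i j k, T i j k = T j i k) :
    4 * ∑ a, ∑ b, (if b = a then 0 else Av δ (fun U => T a b a U * star (T a b a U))) =
      2 * (n : ℂ) * ∑ a, Av δ (fun U => T a a a U * star (T a a a U)) -
      (4 / ((n : ℂ) + 1)) * Av δ (fun U => ∑ a, (∑ k, T a k k U) * star (∑ k, T a k k U)) := by
  have hn : ((n : ℂ) + 1) ≠ 0 := by exact_mod_cast Nat.succ_ne_zero n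
  have h1 := Av_T21_trace (D' := D) δ hT hs hT.contr
  have h2 : ∀ a b, 2 * (if b = a then 0 else Av δ (fun U => T a b a U * star (T a b a U))) =
      Av δ (fun U => T a a a U * star (T a a a U)) - Av δ (fun U => T a b b U * star (T a a a U)) := by
    intro a b
    by_cases hb : b = a
    · rw [if_pos hb, hb]
      ring
    · rw [if_neg hb]
      exact Av_T21_pair δ hT hs hb
  have h3 : ∀ a, ∑ b, Av δ (fun U => T a b b U * star (T a a a U)) =
      Av δ (fun U => (∑ k, T a k k U) * star (T a a a U)) := by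
    intro a
    rw [← Av_sum]
    exact Av_congr δ fun U => by rw [Finset.sum_mul]
  have h4 : 2 * ∑ a, ∑ b, (if b = a then 0 else Av δ (fun U => T a b a U * star (T a b a U))) =
      (n : ℂ) * ∑ a, Av δ (fun U => T a a a U * star (T a a a U)) -
        ∑ a, Av δ (fun U => (∑ k, T a k k U) * star (T a a a U)) := by
    rw [Finset.mul_sum, Finset.mul_sum, ← Finset.sum_sub_distrib]
    refine Finset.sum_congr rfl fun a _ => ?_
    rw [Finset.mul_sum, Finset.sum_congr rfl fun b _ => h2 a b, Finset.sum_sub_distrib, h3,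
      Finset.sum_const, Finset.card_univ, Fintype.card_fin, nsmul_eq_mul]
  have h5 : ∑ a, Av δ (fun U => (∑ k, T a k k U) * star (T a a a U)) =
      (2 / ((n : ℂ) + 1)) * Av δ (fun U => ∑ a, (∑ k, T a k k U) * star (∑ k, T a k k U)) := by
    field_simp
    linear_combination h1
  rw [h5] at h4
  linear_combination 2 * h4

end T21

/-! ### type (2,2), symmetric in the first two and in the last two slots -/

section T22

variable {T : Fin n → Fin n → Fin n → Fin n → UG n → ℂ}

/-- `2 Av |T(aa|ab)|^2 = Av |T(aa|aa)|^2 - 2 Av T(ab|ab) conj T(aa|aa)` for `a ≠ b`. -/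
theorem Av_T22_pair (δ : Design n (D + D)) (hT : Ten22 D T)
    (hs1 : ∀ i j k l, T i j k l = T j i k l) (hs2 : ∀ i j k l, T i j k l = T i j l k)
    {a b : Fin n} (hab : b ≠ a) :
    2 * Av δ (fun U => T a a a b U * star (T a a a b U)) =
      Av δ (fun U => T a a a a U * star (T a a a a U)) -
        2 * Av δ (fun U => T a b a b U * star (T a a a a U)) := by
  have hab' : ¬ (a = b) := fun h => hab h.symm
  have hp := (hT.1 a a a b).mul (hT.1 a a a a).star
  have h1 := Av_HasD δ hp ((hT.2 b a a a a b).mul (hT.2 a b a a a a).star)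
  have e : (fun U => ((if a = a then T b a a b U else 0) + (if a = a then T a b a b U else 0) -
      (if a = b then T a a a b U else 0) - (if b = b then T a a a a U else 0)) *
        star (T a a a a U) +
      T a a a b U * -star ((if a = b then T a a a a U else 0) + (if a = b then T a a a a U else 0)
        - (if a = a then T a a b a U else 0) - (if a = a then T a a a b U else 0))) =
      fun U => (2 * (T a b a b U * star (T a a a a U)) -
      T a a a a U * star (T a a a a U)) + 2 * (T a a a b U * star (T a a a b U)) := by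
    funext U
    simp only [hab', if_true, if_false, zero_add, sub_zero, hs1 b a a b, hs2 a a b a, star_sub,
      star_zero]
    ring
  rw [e, Av_add, Av_sub, Av_mul_left, Av_mul_left] at h1
  linear_combination h1

/-- The gradient formula. -/
theorem Av_T22_grad (δ : Design n (D + D)) (hT : Ten22 D T)
    (hs1 : ∀ i j k l, T i j k l = T j i k l) (hs2 : ∀ i j k l, T i j k l = T i j l k)
    (a : Fin n) :
    2 * ∑ b, (if b = a then 0 else Av δ (fun U => T a a a b U * star (T a a a b U))) =
      ((n : ℂ) + 1) * Av δ (fun U => T a a a a U * star (T a a a a U)) -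
        2 * Av δ (fun U => (∑ b, T a b a b U) * star (T a a a a U)) := by
  have h2 : ∀ b, 2 * (if b = a then 0 else Av δ (fun U => T a a a b U * star (T a a a b U))) =
      Av δ (fun U => T a a a a U * star (T a a a a U)) -
        2 * Av δ (fun U => T a b a b U * star (T a a a a U)) +
        if b = a then Av δ (fun U => T a a a a U * star (T a a a a U)) else 0 := by
    intro b
    by_cases hb : b = a
    · rw [if_pos hb, if_pos hb, hb]
      ring
    · rw [if_neg hb, if_neg hb, add_zero]
      exact Av_T22_pair δ hT hs1 hs2 hb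
  have h3 : ∑ b, Av δ (fun U => T a b a b U * star (T a a a a U)) =
      Av δ (fun U => (∑ b, T a b a b U) * star (T a a a a U)) := by
    rw [← Av_sum]
    exact Av_congr δ fun U => by rw [Finset.sum_mul]
  rw [Finset.mul_sum, Finset.sum_congr rfl fun b _ => h2 b, Finset.sum_add_distrib,
    Finset.sum_sub_distrib, ← Finset.mul_sum, h3, Finset.sum_const, Finset.card_univ,
    Fintype.card_fin, nsmul_eq_mul, Finset.sum_ite_eq' Finset.univ a]
  simp only [Finset.mem_univ, if_true]
  ring

end T22

end Pool.Agent.H92U
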