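import Pool.Agent.Lib.H92U.U6

/-! # H92U/U7: total norms of tensors of types (2,1) and (2,2), antisymmetric tensors -/

namespace Pool.Agent.H92U

open Matrix

variable {n D D' : ℕ}

/-! ### Parseval in the frame -/

theorem parseval (U : UG n) (z : Fin n → ℂ) :
    ∑ α, ‖∑ b, (U : Matrix (Fin n) (Fin n) ℂ) α b * z b‖ ^ 2 = ∑ b, ‖z b‖ ^ 2 := by
  have h : ((∑ α, ‖∑ b, (U : Matrix (Fin n) (Fin n) ℂ) α b * z b‖ ^ 2 : ℝ) : ℂ) =
      ((∑ b, ‖z b‖ ^ 2 : ℝ) : ℂ) := by
    rw [Complex.ofReal_sum, Complex.ofReal_sum]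
    have e1 : ∀ α, ((‖∑ b, (U : Matrix (Fin n) (Fin n) ℂ) α b * z b‖ ^ 2 : ℝ) : ℂ) =
        ∑ b, ∑ c, (z b * star (z c)) * ((U : Matrix (Fin n) (Fin n) ℂ) α b *
          star ((U : Matrix (Fin n) (Fin n) ℂ) α c)) := by
      intro α
      rw [← mul_star_eq, star_sum, Finset.sum_mul_sum]
      refine Finset.sum_congr rfl fun b _ => Finset.sum_congr rfl fun c _ => ?_
      rw [star_mul']
      ring
    rw [Finset.sum_congr rfl fun α _ => e1 α, Finset.sum_comm]
    refine Finset.sum_congr rfl fun b _ => ?_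
    rw [Finset.sum_comm, ← mul_star_eq]
    have e2 : ∀ c, ∑ α, (z b * star (z c)) * ((U : Matrix (Fin n) (Fin n) ℂ) α b *
        star ((U : Matrix (Fin n) (Fin n) ℂ) α c)) =
        if b = c then z b * star (z c) else 0 := by
      intro c
      rw [← Finset.mul_sum, col_orth]
      split_ifs <;> simp
    rw [Finset.sum_congr rfl fun c _ => e2 c, Finset.sum_ite_eq Finset.univ b]
    simp
  exact_mod_cast h

/-- Polarised Parseval. -/
theorem parseval_pol (U : UG n) (z w : Fin n → ℂ) :
    ∑ α, (∑ b, (U : Matrix (Fin n) (Fin n) ℂ) α b * z b) *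
      star (∑ b, (U : Matrix (Fin n) (Fin n) ℂ) α b * w b) = ∑ b, z b * star (w b) := by
  have e1 : ∀ α, (∑ b, (U : Matrix (Fin n) (Fin n) ℂ) α b * z b) *
      star (∑ b, (U : Matrix (Fin n) (Fin n) ℂ) α b * w b) =
      ∑ b, ∑ c, (z b * star (w c)) * ((U : Matrix (Fin n) (Fin n) ℂ) α b *
        star ((U : Matrix (Fin n) (Fin n) ℂ) α c)) := by
    intro α
    rw [star_sum, Finset.sum_mul_sum]
    refine Finset.sum_congr rfl fun b _ => Finset.sum_congr rfl fun c _ => ?_
    rw [star_mul']
    ring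
  rw [Finset.sum_congr rfl fun α _ => e1 α, Finset.sum_comm]
  refine Finset.sum_congr rfl fun b _ => ?_
  rw [Finset.sum_comm]
  have e2 : ∀ c, ∑ α, (z b * star (w c)) * ((U : Matrix (Fin n) (Fin n) ℂ) α b *
      star ((U : Matrix (Fin n) (Fin n) ℂ) α c)) =
      if b = c then z b * star (w c) else 0 := by
    intro c
    rw [← Finset.mul_sum, col_orth]
    split_ifs <;> simp
  rw [Finset.sum_congr rfl fun c _ => e2 c, Finset.sum_ite_eq Finset.univ b]
  simp

/-! ### fixing a conjugate linear slot -/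

/-- Fixing the last slot of a (2,2) field. -/
theorem Ten22.fix {T : Fin n → Fin n → Fin n → Fin n → UG n → ℂ} (hT : Ten22 D T) (α : Fin n) :
    Ten21 (1 + D) (fun i j k U => ∑ b, (U : Matrix (Fin n) (Fin n) ℂ) α b * T i j k b U) := by
  refine ⟨fun i j k => PolLe.sum _ (fun b (U : UG n) => (U : Matrix (Fin n) (Fin n) ℂ) α b *
    T i j k b U) fun b _ => (PolLe.entry α b).mul (hT.1 i j k b), fun a0 b0 i j k => ?_⟩
  refine (HasD.sum Finset.univ (fun b (U : UG n) => (U : Matrix (Fin n) (Fin n) ℂ) α b *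
    T i j k b U) _ fun b _ => (HasD.entry (a := a0) (b := b0) α b).mul
    (hT.2 a0 b0 i j k b)).congr (fun _ => rfl) fun U => ?_
  have e1 : ∀ b, (if b = b0 then (U : Matrix (Fin n) (Fin n) ℂ) α a0 else 0) * T i j k b U +
      (U : Matrix (Fin n) (Fin n) ℂ) α b * ((if i = b0 then T a0 j k b U else 0) +
        (if j = b0 then T i a0 k b U else 0) - (if k = a0 then T i j b0 b U else 0) -
        (if b = a0 then T i j k b0 U else 0)) =
      (if b = b0 then (U : Matrix (Fin n) (Fin n) ℂ) α a0 * T i j k b U else 0) -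
      (if b = a0 then (U : Matrix (Fin n) (Fin n) ℂ) α b * T i j k b0 U else 0) +
      ((if i = b0 then (U : Matrix (Fin n) (Fin n) ℂ) α b * T a0 j k b U else 0) +
      (if j = b0 then (U : Matrix (Fin n) (Fin n) ℂ) α b * T i a0 k b U else 0) -
      (if k = a0 then (U : Matrix (Fin n) (Fin n) ℂ) α b * T i j b0 b U else 0)) := by
    intro b
    split_ifs <;> ring
  simp only [e1]
  rw [Finset.sum_add_distrib, Finset.sum_sub_distrib, Finset.sum_ite_eq' Finset.univ b0,
    Finset.sum_ite_eq' Finset.univ a0, Finset.sum_sub_distrib, Finset.sum_add_distrib]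
  simp only [Finset.mem_univ, if_true, sub_self, zero_add]
  split_ifs <;> (try simp only [Finset.sum_const_zero])

/-- Fixing the last slot of a (1,1) field. -/
theorem Ten11.fix {T : Fin n → Fin n → UG n → ℂ} (hT : Ten11 D T) (α : Fin n) :
    Ten10 (1 + D) (fun i U => ∑ b, (U : Matrix (Fin n) (Fin n) ℂ) α b * T i b U) := by
  refine ⟨fun i => PolLe.sum _ (fun b (U : UG n) => (U : Matrix (Fin n) (Fin n) ℂ) α b *
    T i b U) fun b _ => (PolLe.entry α b).mul (hT.1 i b), fun a0 b0 i => ?_⟩
  refine (HasD.sum Finset.univ (fun b (U : UG n) => (U : Matrix (Fin n) (Fin n) ℂ) α b *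
    T i b U) _ fun b _ => (HasD.entry (a := a0) (b := b0) α b).mul
    (hT.2 a0 b0 i b)).congr (fun _ => rfl) fun U => ?_
  have e1 : ∀ b, (if b = b0 then (U : Matrix (Fin n) (Fin n) ℂ) α a0 else 0) * T i b U +
      (U : Matrix (Fin n) (Fin n) ℂ) α b * ((if i = b0 then T a0 b U else 0) -
        (if b = a0 then T i b0 U else 0)) =
      (if b = b0 then (U : Matrix (Fin n) (Fin n) ℂ) α a0 * T i b U else 0) -
      (if b = a0 then (U : Matrix (Fin n) (Fin n) ℂ) α b * T i b0 U else 0) +
      (if i = b0 then (U : Matrix (Fin n) (Fin n) ℂ) α b * T a0 b U else 0) := by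
    intro b
    split_ifs <;> ring
  simp only [e1]
  rw [Finset.sum_add_distrib, Finset.sum_sub_distrib, Finset.sum_ite_eq' Finset.univ b0,
    Finset.sum_ite_eq' Finset.univ a0]
  simp only [Finset.mem_univ, if_true, sub_self, zero_add]
  split_ifs <;> (try simp only [Finset.sum_const_zero])

/-! ### the total norm of a (2,1) field -/

section T21

variable {T : Fin n → Fin n → Fin n → UG n → ℂ}

/-- `Av ∑_k |T(aa|k)|^2 = 2 Av ∑_k |T(ba|k)|^2`, `a ≠ b`. -/
theorem Av_T21_row (δ : Design n (D + D)) (hT : Ten21 D T) (hs : ∀ i j k, T i j k = T j i k)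
    {a b : Fin n} (hab : b ≠ a) :
    Av δ (fun U => ∑ k, T a a k U * star (T a a k U)) =
      2 * Av δ (fun U => ∑ k, T b a k U * star (T b a k U)) := by
  have hab' : ¬ (a = b) := fun h => hab h.symm
  have hp : PolLe (D + D) (fun U => ∑ k, T b a k U * star (T a a k U)) :=
    PolLe.sum _ (fun k U => T b a k U * star (T a a k U)) fun k _ =>
      (hT.1 b a k).mul (hT.1 a a k).star
  have h1 := Av_HasD δ hp (HasD.sum Finset.univ (fun k U => T b a k U * star (T a a k U)) _
    fun k _ => (hT.2 a b b a k).mul (hT.2 b a a a k).star)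
  have e : (fun U => ∑ k, (((if b = b then T a a k U else 0) + (if a = b then T b a k U else 0) -
      (if k = a then T b a b U else 0)) * star (T a a k U) +
      T b a k U * -star ((if a = a then T b a k U else 0) + (if a = a then T a b k U else 0) -
      (if k = b then T a a a U else 0)))) = fun U => (∑ k, T a a k U * star (T a a k U)) -
      2 * ∑ k, T b a k U * star (T b a k U) := by
    funext U
    have e1 : ∀ k, (((if b = b then T a a k U else 0) + (if a = b then T b a k U else 0) -
        (if k = a then T b a b U else 0)) * star (T a a k U) +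
        T b a k U * -star ((if a = a then T b a k U else 0) + (if a = a then T a b k U else 0) -
        (if k = b then T a a a U else 0))) = (T a a k U * star (T a a k U) -
        2 * (T b a k U * star (T b a k U))) - (if k = a then T b a b U * star (T a a k U) else 0) +
        (if k = b then T b a k U * star (T a a a U) else 0) := by
      intro k
      simp only [hab', if_true, if_false, add_zero, hs a b k]
      split_ifs <;> simp only [star_add, star_sub, star_zero] <;> ring
    rw [Finset.sum_congr rfl fun k _ => e1 k, Finset.sum_add_distrib, Finset.sum_sub_distrib,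
      Finset.sum_ite_eq' Finset.univ a, Finset.sum_ite_eq' Finset.univ b, Finset.sum_sub_distrib,
      ← Finset.mul_sum]
    simp only [Finset.mem_univ, if_true]
    ring
  rw [e, Av_sub, Av_mul_left] at h1
  linear_combination h1

/-- `(n+1) Av ∑_k |T(aa|k)|^2 = 2 Av ∑_{b,k} |T(ba|k)|^2`. -/
theorem Av_T21_row_sum (δ : Design n (D + D)) (hT : Ten21 D T) (hs : ∀ i j k, T i j k = T j i k)
    (a : Fin n) :
    ((n : ℂ) + 1) * Av δ (fun U => ∑ k, T a a k U * star (T a a k U)) =
      2 * Av δ (fun U => ∑ b, ∑ k, T b a k U * star (T b a k U)) := by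
  have h2 : ∀ b, 2 * Av δ (fun U => ∑ k, T b a k U * star (T b a k U)) =
      Av δ (fun U => ∑ k, T a a k U * star (T a a k U)) +
        if b = a then Av δ (fun U => ∑ k, T a a k U * star (T a a k U)) else 0 := by
    intro b
    by_cases hb : b = a
    · rw [if_pos hb, hb]
      ring
    · rw [if_neg hb, add_zero]
      exact (Av_T21_row δ hT hs hb).symm
  have h3 : Av δ (fun U => ∑ b, ∑ k, T b a k U * star (T b a k U)) =
      ∑ b, Av δ (fun U => ∑ k, T b a k U * star (T b a k U)) :=
    Av_sum δ Finset.univ (fun b U => ∑ k, T b a k U * star (T b a k U))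
  rw [h3, Finset.mul_sum, Finset.sum_congr rfl fun b _ => h2 b, Finset.sum_add_distrib,
    Finset.sum_const, Finset.card_univ, Fintype.card_fin, nsmul_eq_mul,
    Finset.sum_ite_eq' Finset.univ a]
  simp only [Finset.mem_univ, if_true]
  ring

/-- `Av |T(aa|b)|^2 = Av |T(aa|a)|^2 - 2 Av conj(T(aa|a)) T(ab|b)`, `a ≠ b`. -/
theorem Av_T21_col (δ : Design n (D + D)) (hT : Ten21 D T) (hs : ∀ i j k, T i j k = T j i k)
    {a b : Fin n} (hab : b ≠ a) :
    Av δ (fun U => T a a b U * star (T a a b U)) =
      Av δ (fun U => T a a a U * star (T a a a U)) -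
        2 * Av δ (fun U => T a b b U * star (T a a a U)) := by
  have hab' : ¬ (a = b) := fun h => hab h.symm
  have hp := (hT.1 a a b).mul (hT.1 a a a).star
  have h1 := Av_HasD δ hp ((hT.2 b a a a b).mul (hT.2 a b a a a).star)
  have e : (fun U => ((if a = a then T b a b U else 0) + (if a = a then T a b b U else 0) -
      (if b = b then T a a a U else 0)) * star (T a a a U) +
      T a a b U * -star ((if a = b then T a a a U else 0) + (if a = b then T a a a U else 0) -
      (if a = a then T a a b U else 0))) = fun U => (2 * (T a b b U * star (T a a a U)) -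
      T a a a U * star (T a a a U)) + T a a b U * star (T a a b U) := by
    funext U
    simp only [hab', if_true, if_false, zero_add, hs b a b, zero_sub, star_neg]
    ring
  rw [e, Av_add, Av_sub, Av_mul_left] at h1
  linear_combination h1

theorem Av_T21_col_sum (δ : Design n (D + D)) (hT : Ten21 D T) (hs : ∀ i j k, T i j k = T j i k)
    (a : Fin n) :
    Av δ (fun U => ∑ k, T a a k U * star (T a a k U)) =
      ((n : ℂ) + 2) * Av δ (fun U => T a a a U * star (T a a a U)) -
        2 * Av δ (fun U => (∑ k, T a k k U) * star (T a a a U)) := by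
  have h2 : ∀ b, Av δ (fun U => T a a b U * star (T a a b U)) =
      Av δ (fun U => T a a a U * star (T a a a U)) -
        2 * Av δ (fun U => T a b b U * star (T a a a U)) +
        if b = a then 2 * Av δ (fun U => T a a a U * star (T a a a U)) else 0 := by
    intro b
    by_cases hb : b = a
    · rw [if_pos hb, hb]
      ring
    · rw [if_neg hb, add_zero]
      exact Av_T21_col δ hT hs hb
  have h3 : ∑ b, Av δ (fun U => T a b b U * star (T a a a U)) =
      Av δ (fun U => (∑ k, T a k k U) * star (T a a a U)) := by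
    rw [← Av_sum]
    exact Av_congr δ fun U => by rw [Finset.sum_mul]
  rw [Av_sum, Finset.sum_congr rfl fun b _ => h2 b, Finset.sum_add_distrib,
    Finset.sum_sub_distrib, ← Finset.mul_sum, h3, Finset.sum_const, Finset.card_univ,
    Fintype.card_fin, nsmul_eq_mul, Finset.sum_ite_eq' Finset.univ a]
  simp only [Finset.mem_univ, if_true]
  ring

/-- **Total norm of a (2,1) field**:
`(n+1)(n+2) ∑_a Av|T(aa|a)|^2 = 2 Av ∑|T|^2 + 4 Av ∑ |t|^2`. -/
theorem Av_T21_total (δ : Design n (D + D)) (hT : Ten21 D T) (hs : ∀ i j k, T i j k = T j i k) :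
    ((n : ℂ) + 1) * ((n : ℂ) + 2) * ∑ a, Av δ (fun U => T a a a U * star (T a a a U)) =
      2 * Av δ (fun U => ∑ a, ∑ b, ∑ k, T b a k U * star (T b a k U)) +
      4 * Av δ (fun U => ∑ a, (∑ k, T a k k U) * star (∑ k, T a k k U)) := by
  have h1 := Av_T21_trace (D' := D) δ hT hs hT.contr
  have h2 : ∑ a, ((n : ℂ) + 1) * Av δ (fun U => ∑ k, T a a k U * star (T a a k U)) =
      ∑ a, 2 * Av δ (fun U => ∑ b, ∑ k, T b a k U * star (T b a k U)) :=
    Finset.sum_congr rfl fun a _ => Av_T21_row_sum δ hT hs a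
  have h3 : ∑ a, Av δ (fun U => ∑ k, T a a k U * star (T a a k U)) =
      ∑ a, (((n : ℂ) + 2) * Av δ (fun U => T a a a U * star (T a a a U)) -
        2 * Av δ (fun U => (∑ k, T a k k U) * star (T a a a U))) :=
    Finset.sum_congr rfl fun a _ => Av_T21_col_sum δ hT hs a
  rw [← Finset.mul_sum, ← Finset.mul_sum] at h2
  rw [Finset.sum_sub_distrib, ← Finset.mul_sum, ← Finset.mul_sum] at h3
  have h4 : Av δ (fun U => ∑ a, ∑ b, ∑ k, T b a k U * star (T b a k U)) =
      ∑ a, Av δ (fun U => ∑ b, ∑ k, T b a k U * star (T b a k U)) :=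
    Av_sum δ Finset.univ (fun a U => ∑ b, ∑ k, T b a k U * star (T b a k U))
  rw [h4]
  linear_combination h2 - ((n : ℂ) + 1) * h3 + 2 * h1

end T21

end Pool.Agent.H92U
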