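import Pool.Agent.Lib.H92U.U7

/-! # H92U/U8: total norms of (2,2) fields; antisymmetric fields -/

namespace Pool.Agent.H92U

open Matrix

variable {n D D' : ℕ}

theorem Ten11.mono {T : Fin n → Fin n → UG n → ℂ} (h : D ≤ D') (hT : Ten11 D T) : Ten11 D' T :=
  ⟨fun i k => (hT.1 i k).mono h, hT.2⟩

theorem Ten22.mono {T : Fin n → Fin n → Fin n → Fin n → UG n → ℂ} (h : D ≤ D')
    (hT : Ten22 D T) : Ten22 D' T :=
  ⟨fun i j k l => (hT.1 i j k l).mono h, hT.2⟩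

/-- Total norm of a (2,1) field, real form. -/
theorem Av_T21_total_real (δ : Design n (D + D)) {T : Fin n → Fin n → Fin n → UG n → ℂ}
    (hT : Ten21 D T) (hs : ∀ i j k, T i j k = T j i k) :
    ((n : ℝ) + 1) * ((n : ℝ) + 2) * ∑ a, Av δ (fun U => ‖T a a a U‖ ^ 2) =
      2 * Av δ (fun U => ∑ a, ∑ b, ∑ k, ‖T b a k U‖ ^ 2) +
      4 * Av δ (fun U => ∑ a, ‖∑ k, T a k k U‖ ^ 2) := by
  have h := Av_T21_total δ hT hs
  simp only [mul_star_eq] at h
  have e1 : (fun U => ∑ a, ∑ b, ∑ k, ((‖T b a k U‖ ^ 2 : ℝ) : ℂ)) =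
      fun U => ((∑ a, ∑ b, ∑ k, ‖T b a k U‖ ^ 2 : ℝ) : ℂ) := by
    funext U
    rw [Complex.ofReal_sum]
    refine Finset.sum_congr rfl fun a _ => ?_
    rw [Complex.ofReal_sum]
    exact Finset.sum_congr rfl fun b _ => (Complex.ofReal_sum _ _).symm
  have e2 : (fun U => ∑ a, ((‖∑ k, T a k k U‖ ^ 2 : ℝ) : ℂ)) =
      fun U => ((∑ a, ‖∑ k, T a k k U‖ ^ 2 : ℝ) : ℂ) := by
    funext U
    rw [Complex.ofReal_sum]
  rw [e1, e2, Av_ofReal, Av_ofReal] at h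
  simp only [Av_ofReal] at h
  rw [← Complex.ofReal_sum] at h
  apply Complex.ofReal_injective
  rw [Complex.ofReal_add, Complex.ofReal_mul, Complex.ofReal_mul, Complex.ofReal_mul,
    Complex.ofReal_mul, Complex.ofReal_add, Complex.ofReal_add, Complex.ofReal_natCast,
    Complex.ofReal_one, Complex.ofReal_ofNat, Complex.ofReal_ofNat]
  exact h

section T22

variable {T G : Fin n → Fin n → Fin n → Fin n → UG n → ℂ}

/-- For a (2,2) field symmetric in the linear slots: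
`(n+1)(n+2) ∑_{a,b} Av|T(aa|ab)|^2 = 2 Av ∑ |T|^2 + 4 Av ∑_{i,l} |∑_k T(ik|kl)|^2`. -/
theorem Av_T22_fixsum (δ : Design n ((1 + D) + (1 + D))) (hT : Ten22 D T)
    (hs1 : ∀ i j k l, T i j k l = T j i k l) :
    ((n : ℝ) + 1) * ((n : ℝ) + 2) * ∑ a, ∑ b, Av δ (fun U => ‖T a a a b U‖ ^ 2) =
      2 * Av δ (fun U => ∑ i, ∑ j, ∑ k, ∑ l, ‖T j i k l U‖ ^ 2) +
      4 * Av δ (fun U => ∑ i, ∑ l, ‖∑ k, T i k k l U‖ ^ 2) := by
  have h : ∀ α, ((n : ℝ) + 1) * ((n : ℝ) + 2) * ∑ a, Av δ (fun U =>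
      ‖∑ b, (U : Matrix (Fin n) (Fin n) ℂ) α b * T a a a b U‖ ^ 2) =
      2 * Av δ (fun U => ∑ i, ∑ j, ∑ k,
        ‖∑ b, (U : Matrix (Fin n) (Fin n) ℂ) α b * T j i k b U‖ ^ 2) +
      4 * Av δ (fun U => ∑ a, ‖∑ k, ∑ b, (U : Matrix (Fin n) (Fin n) ℂ) α b * T a k k b U‖ ^ 2) := by
    intro α
    have hf := hT.fix α
    have hsym : ∀ i j k, (fun U : UG n => ∑ b, (U : Matrix (Fin n) (Fin n) ℂ) α b * T i j k b U) =
        fun U : UG n => ∑ b, (U : Matrix (Fin n) (Fin n) ℂ) α b * T j i k b U := by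
      intro i j k
      funext U
      exact Finset.sum_congr rfl fun b _ => by rw [hs1 i j k b]
    have h' := Av_T21_total_real δ hf hsym
    exact h'
  have h2 : ∑ α, (((n : ℝ) + 1) * ((n : ℝ) + 2) * ∑ a, Av δ (fun U =>
      ‖∑ b, (U : Matrix (Fin n) (Fin n) ℂ) α b * T a a a b U‖ ^ 2)) =
      ∑ α, (2 * Av δ (fun U => ∑ i, ∑ j, ∑ k,
        ‖∑ b, (U : Matrix (Fin n) (Fin n) ℂ) α b * T j i k b U‖ ^ 2) +
      4 * Av δ (fun U => ∑ a, ‖∑ k, ∑ b, (U : Matrix (Fin n) (Fin n) ℂ) α b * T a k k b U‖ ^ 2)) :=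
    Finset.sum_congr rfl fun α _ => h α
  rw [← Finset.mul_sum, Finset.sum_add_distrib, ← Finset.mul_sum, ← Finset.mul_sum] at h2
  have e1 : ∑ α, ∑ a, Av δ (fun U =>
      ‖∑ b, (U : Matrix (Fin n) (Fin n) ℂ) α b * T a a a b U‖ ^ 2) =
      ∑ a, ∑ b, Av δ (fun U => ‖T a a a b U‖ ^ 2) := by
    rw [Finset.sum_comm]
    refine Finset.sum_congr rfl fun a _ => ?_
    rw [← Av_sum δ Finset.univ (fun α (U : UG n) =>
      ‖∑ b, (U : Matrix (Fin n) (Fin n) ℂ) α b * T a a a b U‖ ^ 2),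
      ← Av_sum δ Finset.univ (fun b (U : UG n) => ‖T a a a b U‖ ^ 2)]
    exact Av_congr δ fun U => parseval U _
  have e2 : ∑ α, Av δ (fun U => ∑ i, ∑ j, ∑ k,
      ‖∑ b, (U : Matrix (Fin n) (Fin n) ℂ) α b * T j i k b U‖ ^ 2) =
      Av δ (fun U => ∑ i, ∑ j, ∑ k, ∑ l, ‖T j i k l U‖ ^ 2) := by
    rw [← Av_sum δ Finset.univ (fun α (U : UG n) => ∑ i, ∑ j, ∑ k,
      ‖∑ b, (U : Matrix (Fin n) (Fin n) ℂ) α b * T j i k b U‖ ^ 2)]
    refine Av_congr δ fun U => ?_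
    rw [Finset.sum_comm]
    refine Finset.sum_congr rfl fun i _ => ?_
    rw [Finset.sum_comm]
    refine Finset.sum_congr rfl fun j _ => ?_
    rw [Finset.sum_comm]
    exact Finset.sum_congr rfl fun k _ => parseval U _
  have e3 : ∑ α, Av δ (fun U => ∑ a, ‖∑ k, ∑ b, (U : Matrix (Fin n) (Fin n) ℂ) α b *
      T a k k b U‖ ^ 2) = Av δ (fun U => ∑ i, ∑ l, ‖∑ k, T i k k l U‖ ^ 2) := by
    rw [← Av_sum δ Finset.univ (fun α (U : UG n) => ∑ a, ‖∑ k, ∑ b,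
      (U : Matrix (Fin n) (Fin n) ℂ) α b * T a k k b U‖ ^ 2)]
    refine Av_congr δ fun U => ?_
    rw [Finset.sum_comm]
    refine Finset.sum_congr rfl fun i _ => ?_
    refine Eq.trans ?_ (parseval U (fun l => ∑ k, T i k k l U))
    refine Finset.sum_congr rfl fun α _ => ?_
    congr 2
    rw [Finset.sum_comm]
    exact Finset.sum_congr rfl fun b _ => by rw [Finset.mul_sum]
  rw [e1, e2, e3] at h2
  exact h2

/-- **Total norm of a symmetric (2,2) field**: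
`(n+1)(n+2)(n+3) ∑_a Av|T(aa|aa)|^2 = 4 N_4 + 16 N_1 + 4 N_0`. -/
theorem Av_T22_total (δ : Design n ((1 + D) + (1 + D))) (hT : Ten22 D T)
    (hs1 : ∀ i j k l, T i j k l = T j i k l) (hs2 : ∀ i j k l, T i j k l = T i j l k) :
    ((n : ℝ) + 1) * ((n : ℝ) + 2) * ((n : ℝ) + 3) * ∑ a, Av δ (fun U => ‖T a a a a U‖ ^ 2) =
      4 * Av δ (fun U => ∑ i, ∑ j, ∑ k, ∑ l, ‖T j i k l U‖ ^ 2) +
      16 * Av δ (fun U => ∑ b, ∑ i, ‖∑ j, T b j i j U‖ ^ 2) +
      4 * Av δ (fun U => ‖∑ i, ∑ j, T i j i j U‖ ^ 2) := by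
  rcases Nat.eq_zero_or_pos n with hn | hn
  · subst hn
    simp [Av_zero]
  have h1 := Av_T22_fixsum δ hT hs1
  have h2 : ∀ a, 2 * ∑ b, Av δ (fun U => ‖T a a a b U‖ ^ 2) =
      ((n : ℝ) + 3) * Av δ (fun U => ‖T a a a a U‖ ^ 2) -
        (2 / ((n : ℝ) * ((n : ℝ) + 1) * ((n : ℝ) + 2))) *
          (4 * Av δ (fun U => ∑ b, ∑ i, ‖∑ j, T b j i j U‖ ^ 2) +
            2 * Av δ (fun U => ‖∑ i, ∑ j, T i j i j U‖ ^ 2)) := by
    intro a
    have h3 := Av_T22_real δ (hT.mono (Nat.le_add_left D 1)) hs1 hs2 a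
    have h4 : ∑ b, Av δ (fun U => ‖T a a a b U‖ ^ 2) =
        ∑ b, (if b = a then 0 else Av δ (fun U => ‖T a a a b U‖ ^ 2)) +
          Av δ (fun U => ‖T a a a a U‖ ^ 2) := by
      have h5 : ∀ b, Av δ (fun U => ‖T a a a b U‖ ^ 2) =
          (if b = a then 0 else Av δ (fun U => ‖T a a a b U‖ ^ 2)) +
          (if b = a then Av δ (fun U => ‖T a a a a U‖ ^ 2) else 0) := by
        intro b
        by_cases hb : b = a
        · rw [if_pos hb, if_pos hb, hb, zero_add]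
        · rw [if_neg hb, if_neg hb, add_zero]
      rw [Finset.sum_congr rfl fun b _ => h5 b, Finset.sum_add_distrib,
        Finset.sum_ite_eq' Finset.univ a]
      simp
    rw [h4, mul_add, h3]
    ring
  have h3 : ∑ a, 2 * ∑ b, Av δ (fun U => ‖T a a a b U‖ ^ 2) =
      ∑ a, (((n : ℝ) + 3) * Av δ (fun U => ‖T a a a a U‖ ^ 2) -
        (2 / ((n : ℝ) * ((n : ℝ) + 1) * ((n : ℝ) + 2))) *
          (4 * Av δ (fun U => ∑ b, ∑ i, ‖∑ j, T b j i j U‖ ^ 2) +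
            2 * Av δ (fun U => ‖∑ i, ∑ j, T i j i j U‖ ^ 2))) :=
    Finset.sum_congr rfl fun a _ => h2 a
  rw [← Finset.mul_sum, Finset.sum_sub_distrib, ← Finset.mul_sum, Finset.sum_const,
    Finset.card_univ, Fintype.card_fin, nsmul_eq_mul] at h3
  have e1 : Av δ (fun U => ∑ i, ∑ l, ‖∑ k, T i k k l U‖ ^ 2) =
      Av δ (fun U => ∑ b, ∑ i, ‖∑ j, T b j i j U‖ ^ 2) := by
    refine Av_congr δ fun U => Finset.sum_congr rfl fun i _ => Finset.sum_congr rfl fun l _ => ?_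
    congr 2
    exact Finset.sum_congr rfl fun k _ => by rw [hs2 i k k l]
  rw [e1] at h1
  have hn' : (0 : ℝ) < n := Nat.cast_pos.2 hn
  have h5 : (n : ℝ) * ((2 / ((n : ℝ) * ((n : ℝ) + 1) * ((n : ℝ) + 2))) *
          (4 * Av δ (fun U => ∑ b, ∑ i, ‖∑ j, T b j i j U‖ ^ 2) +
            2 * Av δ (fun U => ‖∑ i, ∑ j, T i j i j U‖ ^ 2))) * (((n : ℝ) + 1) * ((n : ℝ) + 2)) =
      2 * (4 * Av δ (fun U => ∑ b, ∑ i, ‖∑ j, T b j i j U‖ ^ 2) +
            2 * Av δ (fun U => ‖∑ i, ∑ j, T i j i j U‖ ^ 2)) := by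
    field_simp
  linear_combination 2 * h1 - (((n : ℝ) + 1) * ((n : ℝ) + 2)) * h3 + h5

/-- **Antisymmetric fields**: for `G` symmetric in the linear, antisymmetric in the conjugate
linear slots, `(n+1)(n+2) ∑_{a,c} Av|G(ac|ac)|^2 = N_4 + 2 N_1`. -/
theorem Av_G22_norm (δ : Design n ((1 + D) + (1 + D))) (hG : Ten22 D G)
    (hs1 : ∀ i j k l, G i j k l = G j i k l) (hs2 : ∀ i j k l, G i j k l = fun U => - G i j l k U) :
    ((n : ℝ) + 1) * ((n : ℝ) + 2) * ∑ a, ∑ c, Av δ (fun U => ‖G a c a c U‖ ^ 2) =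
      Av δ (fun U => ∑ i, ∑ j, ∑ k, ∑ l, ‖G j i k l U‖ ^ 2) +
      2 * Av δ (fun U => ∑ i, ∑ l, ‖∑ k, G i k k l U‖ ^ 2) := by
  have hz : ∀ i j k U, G i j k k U = 0 := by
    intro i j k U
    have h := congrFun (hs2 i j k k) U
    exact CharZero.eq_neg_self_iff.1 h
  have h1 := Av_T22_fixsum δ hG hs1
  have h2 : ∀ a c, Av δ (fun U => ‖G a a a c U‖ ^ 2) = 2 * Av δ (fun U => ‖G a c a c U‖ ^ 2) := by
    intro a c
    by_cases hc : c = a
    · subst hc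
      simp only [hz, norm_zero, ne_eq, OfNat.ofNat_ne_zero, not_false_eq_true, zero_pow, Av_zero,
        mul_zero]
    · have hca : ¬ (a = c) := fun h => hc h.symm
      have hG' := hG.mono (Nat.le_add_left D 1)
      have hp := (hG'.1 a c a c).mul (hG'.1 a a a c).star
      have h3 := Av_HasD δ hp ((hG'.2 a c a c a c).mul (hG'.2 c a a a a c).star)
      have e : (fun U => ((if a = c then G a c a c U else 0) + (if c = c then G a a a c U else 0) -
          (if a = a then G a c c c U else 0) - (if c = a then G a c a c U else 0)) *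
            star (G a a a c U) +
          G a c a c U * -star ((if a = a then G c a a c U else 0) +
            (if a = a then G a c a c U else 0) - (if a = c then G a a a c U else 0) -
            (if c = c then G a a a a U else 0))) =
          fun U => G a a a c U * star (G a a a c U) - 2 * (G a c a c U * star (G a c a c U)) := by
        funext U
        simp only [hca, hc, if_true, if_false, zero_add, sub_zero, hz, hs1 c a a c, star_add]
        ring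
      rw [e, Av_sub, Av_mul_left, Av_mul_star, Av_mul_star] at h3
      have h4 : Av δ (fun U => ‖G a a a c U‖ ^ 2) - 2 * Av δ (fun U => ‖G a c a c U‖ ^ 2) = 0 := by
        exact_mod_cast h3
      linarith
  simp only [h2, ← Finset.mul_sum] at h1
  linarith

end T22

end Pool.Agent.H92U
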