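import Pool.Agent.Lib.H92U.U8

/-! # H92U/U9: bilinear averages of antisymmetric fields -/

namespace Pool.Agent.H92U

open Matrix

variable {n D : ℕ}

section G22

variable {G G' : Fin n → Fin n → Fin n → Fin n → UG n → ℂ}

theorem Av_G22_b1 (δ : Design n (D + D)) (hG : Ten22 D G) (hG' : Ten22 D G')
    (hs2 : ∀ i j k l, G i j k l = fun U => - G i j l k U)
    (hs1' : ∀ i j k l, G' i j k l = G' j i k l)
    (hs2' : ∀ i j k l, G' i j k l = fun U => - G' i j l k U) {a b : Fin n} (hab : b ≠ a) :
    2 * Av δ (fun U => G a b a b U * G' a b a b U) = - Av δ (fun U => G a a a b U * G' b b a b U) := by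
  have hz : ∀ i j k U, G i j k k U = 0 := by
    intro i j k U
    have h := congrFun (hs2 i j k k) U
    exact CharZero.eq_neg_self_iff.1 h
  have hz' : ∀ i j k U, G' i j k k U = 0 := by
    intro i j k U
    have h := congrFun (hs2' i j k k) U
    exact CharZero.eq_neg_self_iff.1 h
  have hab' : ¬ (a = b) := fun h => hab h.symm
  have hp := (hG.1 a b a b).mul (hG'.1 b b a b)
  have h1 := Av_HasD δ hp ((hG.2 a b a b a b).mul (hG'.2 a b b b a b))
  have e : (fun U => ((if a = b then G a b a b U else 0) + (if b = b then G a a a b U else 0) -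
      (if a = a then G a b b b U else 0) - (if b = a then G a b a b U else 0)) * G' b b a b U +
      G a b a b U * ((if b = b then G' a b a b U else 0) + (if b = b then G' b a a b U else 0) -
      (if a = a then G' b b b b U else 0) - (if b = a then G' b b a b U else 0))) =
      fun U => G a a a b U * G' b b a b U + 2 * (G a b a b U * G' a b a b U) := by
    funext U
    simp only [hab', hab, if_true, if_false, zero_add, sub_zero, hz, hz', hs1' b a a b]
    ring
  rw [e, Av_add, Av_mul_left] at h1
  linear_combination h1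

theorem Av_G22_b2 (δ : Design n (D + D)) (hG : Ten22 D G) (hG' : Ten22 D G')
    (hs1 : ∀ i j k l, G i j k l = G j i k l)
    (hs2 : ∀ i j k l, G i j k l = fun U => - G i j l k U) {a b : Fin n} (hab : b ≠ a) :
    (n : ℂ) * Av δ (fun U => G a a a b U * G' b b a b U) =
      2 * Av δ (fun U => (∑ c, G c a c b U) * G' b b a b U) := by
  have hz : ∀ i j k U, G i j k k U = 0 := by
    intro i j k U
    have h := congrFun (hs2 i j k k) U
    exact CharZero.eq_neg_self_iff.1 h
  have hab' : ¬ (a = b) := fun h => hab h.symm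
  have hc : ∀ c, c ≠ a → c ≠ b → Av δ (fun U => G a a a b U * G' b b a b U) =
      2 * Av δ (fun U => G c a c b U * G' b b a b U) := by
    intro c hca hcb
    have hca' : ¬ (a = c) := fun h => hca h.symm
    have hcb' : ¬ (b = c) := fun h => hcb h.symm
    have hp := (hG.1 a a c b).mul (hG'.1 b b a b)
    have h1 := Av_HasD δ hp ((hG.2 c a a a c b).mul (hG'.2 c a b b a b))
    have e : (fun U => ((if a = a then G c a c b U else 0) + (if a = a then G a c c b U else 0) -
        (if c = c then G a a a b U else 0) - (if b = c then G a a c a U else 0)) * G' b b a b U +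
        G a a c b U * ((if b = a then G' c b a b U else 0) + (if b = a then G' b c a b U else 0) -
        (if a = c then G' b b a b U else 0) - (if b = c then G' b b a a U else 0))) =
        fun U => 2 * (G c a c b U * G' b b a b U) - G a a a b U * G' b b a b U := by
      funext U
      simp only [hca', hcb', hab, if_true, if_false, zero_add, sub_zero, add_zero, mul_zero,
        hs1 a c c b]
      ring
    rw [e, Av_sub, Av_mul_left] at h1
    linear_combination -h1
  have hall : ∀ c, 2 * Av δ (fun U => G c a c b U * G' b b a b U) =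
      Av δ (fun U => G a a a b U * G' b b a b U) +
      (if c = a then Av δ (fun U => G a a a b U * G' b b a b U) else 0) -
      (if c = b then Av δ (fun U => G a a a b U * G' b b a b U) else 0) := by
    intro c
    by_cases hca : c = a
    · subst hca
      rw [if_pos rfl, if_neg hab']
      ring
    · by_cases hcb : c = b
      · subst hcb
        rw [if_neg hca, if_pos rfl]
        have : (fun U => G c a c c U * G' c c a c U) = fun _ => (0 : ℂ) := by
          funext U
          rw [hz, zero_mul]
        rw [this, Av_zero]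
        ring
      · rw [if_neg hca, if_neg hcb, hc c hca hcb]
        ring
  have h2 : Av δ (fun U => (∑ c, G c a c b U) * G' b b a b U) =
      ∑ c, Av δ (fun U => G c a c b U * G' b b a b U) := by
    rw [← Av_sum δ Finset.univ (fun c U => G c a c b U * G' b b a b U)]
    exact Av_congr δ fun U => by rw [Finset.sum_mul]
  rw [h2, Finset.mul_sum, Finset.sum_congr rfl fun c _ => hall c, Finset.sum_sub_distrib,
    Finset.sum_add_distrib, Finset.sum_const, Finset.card_univ, Fintype.card_fin, nsmul_eq_mul,
    Finset.sum_ite_eq' Finset.univ a, Finset.sum_ite_eq' Finset.univ b]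
  simp only [Finset.mem_univ, if_true]
  ring

/-- Here `S` is any (1,1) field. -/
theorem Av_G22_b3 (δ : Design n (D + D)) {S : Fin n → Fin n → UG n → ℂ} (hS : Ten11 D S)
    (hG' : Ten22 D G') (hs1' : ∀ i j k l, G' i j k l = G' j i k l)
    (hs2' : ∀ i j k l, G' i j k l = fun U => - G' i j l k U) {a b : Fin n} (hab : b ≠ a) :
    (n : ℂ) * Av δ (fun U => S a b U * G' b b b a U) =
      2 * Av δ (fun U => S a b U * (∑ c, G' c b c a U)) := by
  have hz' : ∀ i j k U, G' i j k k U = 0 := by
    intro i j k U
    have h := congrFun (hs2' i j k k) U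
    exact CharZero.eq_neg_self_iff.1 h
  have hab' : ¬ (a = b) := fun h => hab h.symm
  have hc : ∀ c, c ≠ a → c ≠ b → Av δ (fun U => S a b U * G' b b b a U) =
      2 * Av δ (fun U => S a b U * G' c b c a U) := by
    intro c hca hcb
    have hca' : ¬ (a = c) := fun h => hca h.symm
    have hcb' : ¬ (b = c) := fun h => hcb h.symm
    have hp := (hS.1 a b).mul (hG'.1 b b c a)
    have h1 := Av_HasD δ hp ((hS.2 c b a b).mul (hG'.2 c b b b c a))
    have e : (fun U => ((if a = b then S c b U else 0) - (if b = c then S a b U else 0)) *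
        G' b b c a U +
        S a b U * ((if b = b then G' c b c a U else 0) + (if b = b then G' b c c a U else 0) -
        (if c = c then G' b b b a U else 0) - (if a = c then G' b b c b U else 0))) =
        fun U => 2 * (S a b U * G' c b c a U) - S a b U * G' b b b a U := by
      funext U
      simp only [hca', hcb', hab', if_true, if_false, sub_zero, zero_mul, zero_add,
        hs1' b c c a]
      ring
    rw [e, Av_sub, Av_mul_left] at h1
    linear_combination -h1
  have hall : ∀ c, 2 * Av δ (fun U => S a b U * G' c b c a U) =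
      Av δ (fun U => S a b U * G' b b b a U) +
      (if c = b then Av δ (fun U => S a b U * G' b b b a U) else 0) -
      (if c = a then Av δ (fun U => S a b U * G' b b b a U) else 0) := by
    intro c
    by_cases hcb : c = b
    · subst hcb
      rw [if_pos rfl, if_neg hab]
      ring
    · by_cases hca : c = a
      · subst hca
        rw [if_neg hcb, if_pos rfl]
        have : (fun U => S c b U * G' c b c c U) = fun _ => (0 : ℂ) := by
          funext U
          rw [hz', mul_zero]
        rw [this, Av_zero]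
        ring
      · rw [if_neg hca, if_neg hcb, hc c hca hcb]
        ring
  have h2 : Av δ (fun U => S a b U * (∑ c, G' c b c a U)) =
      ∑ c, Av δ (fun U => S a b U * G' c b c a U) := by
    rw [← Av_sum δ Finset.univ (fun c U => S a b U * G' c b c a U)]
    exact Av_congr δ fun U => by rw [Finset.mul_sum]
  rw [h2, Finset.mul_sum, Finset.sum_congr rfl fun c _ => hall c, Finset.sum_sub_distrib,
    Finset.sum_add_distrib, Finset.sum_const, Finset.card_univ, Fintype.card_fin, nsmul_eq_mul,
    Finset.sum_ite_eq' Finset.univ a, Finset.sum_ite_eq' Finset.univ b]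
  simp only [Finset.mem_univ, if_true]
  ring

/-- The product `S(i|l) S'(j|k)` as a (2,2) field. -/
theorem Ten11.mulSwap {S S' : Fin n → Fin n → UG n → ℂ} (hS : Ten11 D S) (hS' : Ten11 D S') :
    Ten22 (D + D) (fun i j k l U => S i l U * S' j k U) := by
  refine ⟨fun i j k l => (hS.1 i l).mul (hS'.1 j k), fun a b i j k l => ?_⟩
  refine ((hS.2 a b i l).mul (hS'.2 a b j k)).congr (fun _ => rfl) fun U => ?_
  split_ifs <;> ring

/-- `(n+1) ∑_{a≠b} Av S(a|b) S'(b|a) = n Av ∑ S(i|j) S'(j|i) - Av tr S tr S'`. -/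
theorem Av_T11_off (δ : Design n (D + D)) {S S' : Fin n → Fin n → UG n → ℂ} (hS : Ten11 D S)
    (hS' : Ten11 D S') :
    ((n : ℂ) + 1) * ∑ a, ∑ b, (if b = a then 0 else Av δ (fun U => S b a U * S' a b U)) =
      (n : ℂ) * Av δ (fun U => ∑ i, ∑ j, S i j U * S' j i U) -
        Av δ (fun U => ∑ i, ∑ j, S i i U * S' j j U) := by
  have hT := Ten11.mulSwap hS hS'
  rcases Nat.lt_or_ge n 2 with hn | hn
  · -- n = 0 or 1
    interval_cases n
    · simp [Av_zero]
    · simp
  have key : ∀ a b, b ≠ a → (n : ℂ) * ((n : ℂ) + 1) * ((n : ℂ) - 1) *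
      Av δ (fun U => S b a U * S' a b U) =
      (n : ℂ) * Av δ (fun U => ∑ i, ∑ j, S i j U * S' j i U) -
        Av δ (fun U => ∑ i, ∑ j, S i i U * S' j j U) := by
    intro a b hb
    exact Av_T22_off δ hT hb
  have hn0 : (n : ℂ) ≠ 0 := by
    have : n ≠ 0 := by omega
    exact_mod_cast this
  have hn1 : (n : ℂ) - 1 ≠ 0 := by
    have : (n : ℂ) ≠ 1 := by
      have : n ≠ 1 := by omega
      exact_mod_cast this
    exact sub_ne_zero.2 this
  have h1 : ∀ a b, (n : ℂ) * ((n : ℂ) + 1) * ((n : ℂ) - 1) *
      (if b = a then 0 else Av δ (fun U => S b a U * S' a b U)) =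
      ((n : ℂ) * Av δ (fun U => ∑ i, ∑ j, S i j U * S' j i U) -
        Av δ (fun U => ∑ i, ∑ j, S i i U * S' j j U)) -
      (if b = a then ((n : ℂ) * Av δ (fun U => ∑ i, ∑ j, S i j U * S' j i U) -
        Av δ (fun U => ∑ i, ∑ j, S i i U * S' j j U)) else 0) := by
    intro a b
    by_cases hb : b = a
    · rw [if_pos hb, if_pos hb]
      ring
    · rw [if_neg hb, if_neg hb, sub_zero]
      exact key a b hb
  have h2 : (n : ℂ) * ((n : ℂ) + 1) * ((n : ℂ) - 1) *
      ∑ a, ∑ b, (if b = a then 0 else Av δ (fun U => S b a U * S' a b U)) =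
      (n : ℂ) * ((n : ℂ) - 1) * ((n : ℂ) * Av δ (fun U => ∑ i, ∑ j, S i j U * S' j i U) -
        Av δ (fun U => ∑ i, ∑ j, S i i U * S' j j U)) := by
    rw [Finset.mul_sum]
    have h3 : ∀ a, (n : ℂ) * ((n : ℂ) + 1) * ((n : ℂ) - 1) *
        ∑ b, (if b = a then 0 else Av δ (fun U => S b a U * S' a b U)) =
        ((n : ℂ) - 1) * ((n : ℂ) * Av δ (fun U => ∑ i, ∑ j, S i j U * S' j i U) -
        Av δ (fun U => ∑ i, ∑ j, S i i U * S' j j U)) := by
      intro a
      rw [Finset.mul_sum, Finset.sum_congr rfl fun b _ => h1 a b, Finset.sum_sub_distrib,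
        Finset.sum_const, Finset.card_univ, Fintype.card_fin, nsmul_eq_mul,
        Finset.sum_ite_eq' Finset.univ a]
      simp only [Finset.mem_univ, if_true]
      ring
    rw [Finset.sum_congr rfl fun a _ => h3 a, Finset.sum_const, Finset.card_univ,
      Fintype.card_fin, nsmul_eq_mul]
    ring
  have h4 : (n : ℂ) * ((n : ℂ) - 1) ≠ 0 := mul_ne_zero hn0 hn1
  apply mul_left_cancel₀ h4
  linear_combination h2

/-- **Bilinear averages of antisymmetric fields**:
`n (n+1) ∑_{a,b} Av G(ab|ab) G'(ab|ab) = 2 Av ∑ G_1(i|j) G'_1(j|i)`, `G_1(i|j) = ∑_c G(ci|cj)`. -/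
theorem Av_G22_bil (δ : Design n (D + D)) (hG : Ten22 D G) (hG' : Ten22 D G')
    (hs1 : ∀ i j k l, G i j k l = G j i k l)
    (hs2 : ∀ i j k l, G i j k l = fun U => - G i j l k U)
    (hs1' : ∀ i j k l, G' i j k l = G' j i k l)
    (hs2' : ∀ i j k l, G' i j k l = fun U => - G' i j l k U) :
    (n : ℂ) * ((n : ℂ) + 1) * ∑ a, ∑ b, Av δ (fun U => G a b a b U * G' a b a b U) =
      2 * Av δ (fun U => ∑ i, ∑ j, (∑ c, G c i c j U) * (∑ c, G' c j c i U)) := by
  have hz : ∀ i j k U, G i j k k U = 0 := by
    intro i j k U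
    have h := congrFun (hs2 i j k k) U
    exact CharZero.eq_neg_self_iff.1 h
  rcases Nat.eq_zero_or_pos n with hn | hn
  · subst hn
    simp [Av_zero]
  have hn0 : (n : ℂ) ≠ 0 := by exact_mod_cast hn.ne'
  -- each pair
  have h1 : ∀ a b, (n : ℂ) * (n : ℂ) * Av δ (fun U => G a b a b U * G' a b a b U) =
      if b = a then 0 else 2 * Av δ (fun U => (∑ c, G c a c b U) * (∑ c, G' c b c a U)) := by
    intro a b
    by_cases hb : b = a
    · subst hb
      rw [if_pos rfl]
      have : (fun U => G b b b b U * G' b b b b U) = fun _ => (0 : ℂ) := by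
        funext U
        rw [hz, zero_mul]
      rw [this, Av_zero, mul_zero]
    · rw [if_neg hb]
      have k1 := Av_G22_b1 δ hG hG' hs2 hs1' hs2' hb
      have k2 := Av_G22_b2 δ hG hG' hs1 hs2 hb
      have k3 := Av_G22_b3 δ hG.contr13 hG' hs1' hs2' hb
      have k4 : Av δ (fun U => (∑ c, G c a c b U) * G' b b a b U) =
          - Av δ (fun U => (∑ c, G c a c b U) * G' b b b a U) := by
        rw [← Av_neg]
        refine Av_congr δ fun U => ?_
        rw [congrFun (hs2' b b a b) U]
        ring
      rw [k4] at k2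
      linear_combination ((n : ℂ) * (n : ℂ) / 2) * k1 - ((n : ℂ) / 2) * k2 + k3
  have h2 := Av_T11_off δ hG.contr13 hG'.contr13
  have h3 : Av δ (fun U => ∑ i, ∑ j, (∑ c, G c i c i U) * (∑ c, G' c j c j U)) = 0 := by
    have : (fun U => ∑ i, ∑ j, (∑ c, G c i c i U) * (∑ c, G' c j c j U)) = fun _ => (0 : ℂ) := by
      funext U
      rw [← Finset.sum_mul_sum]
      have h4 : ∑ i, ∑ c, G c i c i U = 0 := by
        have h5 : ∑ i, ∑ c, G c i c i U = - ∑ i, ∑ c, G c i c i U := by
          conv_rhs => rw [Finset.sum_comm]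
          rw [← Finset.sum_neg_distrib]
          refine Finset.sum_congr rfl fun i _ => ?_
          rw [← Finset.sum_neg_distrib]
          refine Finset.sum_congr rfl fun c _ => ?_
          rw [congrFun (hs1 i c i c) U, congrFun (hs2 c i i c) U, neg_neg]
        exact CharZero.eq_neg_self_iff.1 h5
      rw [h4, zero_mul]
    rw [this, Av_zero]
  rw [h3, sub_zero] at h2
  have h6 : (n : ℂ) * (n : ℂ) * ∑ a, ∑ b, Av δ (fun U => G a b a b U * G' a b a b U) =
      2 * ∑ a, ∑ b, (if b = a then 0 else
        Av δ (fun U => (∑ c, G c a c b U) * (∑ c, G' c b c a U))) := by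
    rw [Finset.mul_sum, Finset.mul_sum]
    refine Finset.sum_congr rfl fun a _ => ?_
    rw [Finset.mul_sum, Finset.mul_sum]
    refine Finset.sum_congr rfl fun b _ => ?_
    rw [h1 a b]
    split_ifs <;> ring
  have h7 : ∑ a, ∑ b, (if b = a then 0 else
        Av δ (fun U => (∑ c, G c a c b U) * (∑ c, G' c b c a U))) =
      ∑ a, ∑ b, (if b = a then 0 else
        Av δ (fun U => (∑ c, G c b c a U) * (∑ c, G' c a c b U))) := by
    conv_lhs => rw [Finset.sum_comm]
    refine Finset.sum_congr rfl fun a _ => Finset.sum_congr rfl fun b _ => ?_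
    by_cases hb : b = a
    · rw [if_pos hb, if_pos hb.symm]
    · rw [if_neg hb, if_neg fun h => hb h.symm]
  rw [h7] at h6
  apply mul_left_cancel₀ hn0
  linear_combination ((n : ℂ) + 1) * h6 + 2 * h2

end G22

end Pool.Agent.H92U
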